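import Pool.Agent.H79.Q.En
import Pool.Graph.R_pool_sql_team_seeded_620a6dc7.helper24_UT_.Mts
import Pool.Graph.R_pool_sql_team_seeded_620a6dc7.helper24_UT_.Mtc

/-!
Pair sums of the sieve model and the expansion of the singular series of a pair.
-/

set_option autoImplicit false

namespace Pool.Agent.H79.W.Sg

open Finset
open Pool.Agent.helper24_UT
open Pool.Agent.H373R2.T7 (Vz pz mem_pz Vz_pos ev_log' ev_L')
open Pool.Agent.H79.Q.En (tau tau_nonneg)

/-- the singular series of a pair with the difference `k`, primes up to `z` -/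
noncomputable def Sz (z : ℕ) (k : ℤ) : ℝ :=
  ((Vz z)⁻¹) ^ 2 * ∏ p ∈ pz z, (1 - (if (p : ℤ) ∣ k then 1 else 2) / (p : ℝ))

lemma nuf_two (x y : ℤ) (p : ℕ) (hp : p.Prime) :
    (nuf (fun _ => 1) ![x, y] p : ℝ) = if (p : ℤ) ∣ x - y then 1 else 2 := by
  classical
  have hp0 : (0 : ℤ) < p := by exact_mod_cast hp.pos
  obtain ⟨s, hs⟩ : ∃ s : ℤ → ℕ, s = fun w => ((-w) % (p : ℤ)).toNat := ⟨_, rfl⟩
  have hsv : ∀ w : ℤ, ((s w : ℕ) : ℤ) = (-w) % (p : ℤ) := by
    intro w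
    rw [hs]
    exact Int.toNat_of_nonneg (Int.emod_nonneg _ (by omega))
  have hslt : ∀ w : ℤ, s w < p := by
    intro w
    have := Int.emod_lt_of_pos (-w) hp0
    have h2 := hsv w
    omega
  have hiff : ∀ (t : ℕ) (w : ℤ), t < p → ((p : ℤ) ∣ 1 * (t : ℤ) + w ↔ t = s w) := by
    intro t w ht
    constructor
    · intro h
      have h1 : (t : ℤ) ≡ -w [ZMOD p] := by
        rw [Int.modEq_iff_dvd]
        have : -w - (t : ℤ) = -(1 * (t : ℤ) + w) := by ring
        rw [this]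
        exact (dvd_neg).2 h
      have h2 : (t : ℤ) % p = (-w) % p := h1
      rw [Int.emod_eq_of_lt (by omega) (by omega)] at h2
      have h3 := hsv w
      omega
    · intro h
      have h1 : (t : ℤ) ≡ -w [ZMOD p] := by
        have h3 := hsv w
        unfold Int.ModEq
        rw [h, h3, Int.emod_emod_of_dvd _ (dvd_refl _)]
      rw [Int.modEq_iff_dvd] at h1
      have : 1 * (t : ℤ) + w = -(-w - (t : ℤ)) := by ring
      rw [this]
      exact (dvd_neg).2 h1
  have hset : (range p).filter (fun t : ℕ => ∃ i : Fin 2, (p : ℤ) ∣ (fun _ : Fin 2 => (1 : ℤ)) i * t + ![x, y] i) =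
      {s x, s y} := by
    ext t
    rw [mem_filter, mem_range, mem_insert, mem_singleton]
    constructor
    · rintro ⟨ht, i, hi⟩
      fin_cases i
      · left
        exact (hiff t x ht).1 hi
      · right
        exact (hiff t y ht).1 hi
    · rintro (h | h)
      · have ht : t < p := by rw [h]; exact hslt x
        exact ⟨ht, 0, (hiff t x ht).2 h⟩
      · have ht : t < p := by rw [h]; exact hslt y
        exact ⟨ht, 1, (hiff t y ht).2 h⟩
  unfold nuf
  have hset' := congrArg Finset.card hset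
  have e0 : (open Classical in ((range p).filter (fun t : ℕ => ∃ i : Fin 2, (p : ℤ) ∣ (fun _ : Fin 2 => (1 : ℤ)) i * t + ![x, y] i)).card) =
      ({s x, s y} : Finset ℕ).card := by
    rw [← hset']
  rw [e0]
  have hxy : (p : ℤ) ∣ x - y ↔ s x = s y := by
    constructor
    · intro h
      have h1 : (-x) % (p : ℤ) = (-y) % p := by
        apply Int.ModEq.eq
        rw [Int.modEq_iff_dvd]
        have : -y - -x = x - y := by ring
        rw [this]
        exact h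
      have h2 := hsv x
      have h3 := hsv y
      omega
    · intro h
      have h2 := hsv x
      have h3 := hsv y
      have h1 : (-x) ≡ (-y) [ZMOD p] := by
        unfold Int.ModEq
        rw [← h2, ← h3, h]
      rw [Int.modEq_iff_dvd] at h1
      have : -y - -x = x - y := by ring
      rwa [this] at h1
  by_cases h : s x = s y
  · rw [if_pos (hxy.2 h), h]
    simp
  · rw [if_neg (fun h2 => h (hxy.1 h2)), Finset.card_pair h]
    norm_num

lemma exp_small (B A : ℕ) : ∃ N₀ : ℕ, ∀ N : ℕ, N₀ ≤ N →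
    Real.exp (B * Real.log (Real.log N) ^ 2) ≤ N / Real.log N ^ A := by
  have h := (Real.isLittleO_pow_log_id_atTop (n := 2)).bound (show (0 : ℝ) < 1 / (2 * (B + 1)) by positivity)
  have hlim : Filter.Tendsto (fun N : ℕ => Real.log (N : ℝ)) Filter.atTop Filter.atTop :=
    Real.tendsto_log_atTop.comp (tendsto_natCast_atTop_atTop (R := ℝ))
  have h2 := hlim.eventually h
  obtain ⟨N₁, hN₁⟩ := Filter.eventually_atTop.1 h2
  obtain ⟨N₂, hN₂⟩ := ev_log' A 1
  obtain ⟨N₃, hN₃⟩ := ev_L' 1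
  refine ⟨N₁ + N₂ + N₃ + 1, fun N hN => ?_⟩
  have h3 := hN₁ N (by omega)
  have h4 := hN₂ N (by omega)
  have hL1 := hN₃ N (by omega)
  have hN0 : (0 : ℝ) < N := by exact_mod_cast (by omega : 0 < N)
  obtain ⟨L, hL⟩ : ∃ L : ℝ, L = Real.log N := ⟨_, rfl⟩
  rw [← hL] at h3 h4 hL1 ⊢
  have hL0 : 0 < L := by linarith
  rw [Real.norm_of_nonneg (by positivity), id, Real.norm_of_nonneg hL0.le] at h3
  have h5 : B * Real.log L ^ 2 ≤ L / 2 := by
    have h6 : (B : ℝ) * Real.log L ^ 2 ≤ (B + 1) * (1 / (2 * (B + 1)) * L) := by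
      have : (B : ℝ) * Real.log L ^ 2 ≤ (B + 1) * Real.log L ^ 2 := by
        apply mul_le_mul_of_nonneg_right _ (sq_nonneg _)
        linarith
      exact this.trans (mul_le_mul_of_nonneg_left h3 (by positivity))
    refine h6.trans (le_of_eq ?_)
    field_simp
  have h6 : Real.exp (L / 2) = √N := by
    rw [hL, Real.sqrt_eq_rpow, Real.rpow_def_of_pos hN0]
    congr 1
    ring
  rw [le_div_iff₀ (by positivity)]
  calc Real.exp (B * Real.log L ^ 2) * L ^ A ≤ Real.exp (L / 2) * (1 * L ^ A) := by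
        rw [one_mul]
        exact mul_le_mul_of_nonneg_right (Real.exp_le_exp.2 h5) (by positivity)
    _ ≤ √N * √N := by
        rw [h6]
        exact mul_le_mul_of_nonneg_left h4 (Real.sqrt_nonneg _)
    _ = N := Real.mul_self_sqrt hN0.le

theorem pair_sum (E A : ℕ) : ∃ N₀ : ℕ, ∀ N : ℕ, N₀ ≤ N → ∀ z : ℕ, 1 ≤ z → (z : ℝ) ≤ (Real.log N) ^ E →
    ∀ (x y : ℤ) (M : ℕ), 2 * M + 1 ≤ N →
    |∑ c ∈ Icc (-(M : ℤ)) M, lz z (c + x) * lz z (c + y) - (2 * M + 1 : ℕ) * Sz z (x - y)| ≤ 2 * N / Real.log N ^ A := by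
  obtain ⟨B, N₁, hN₁⟩ := Mts.main Mtc.main 2 E A
  obtain ⟨N₂, hN₂⟩ := exp_small B A
  refine ⟨N₁ + N₂, fun N hN z hz1 hz2 x y M hM => ?_⟩
  have h1 := hN₁ N (by omega) z hz1 hz2 (fun _ => 1) ![x - M - 1, y - M - 1] (fun _ => Or.inl rfl) 0 1 0 (2 * M + 1)
    le_rfl hM
  have h2 := hN₂ N (by omega)
  have e1 : ∑ n ∈ (Ioc 0 (0 + (2 * M + 1))).filter (fun n => n % 1 = 0 % 1),
      ∏ i : Fin 2, lz z ((fun _ : Fin 2 => (1 : ℤ)) i * n + ![x - M - 1, y - M - 1] i) =
      ∑ c ∈ Icc (-(M : ℤ)) M, lz z (c + x) * lz z (c + y) := by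
    rw [Finset.filter_true_of_mem (fun n _ => by rw [Nat.mod_one])]
    refine Finset.sum_nbij' (fun n : ℕ => (n : ℤ) - M - 1) (fun c : ℤ => (c + M + 1).toNat) ?_ ?_ ?_ ?_ ?_
    · intro n hn
      rw [mem_Ioc] at hn
      rw [mem_Icc]
      omega
    · intro c hc
      rw [mem_Icc] at hc
      rw [mem_Ioc]
      omega
    · intro n hn
      rw [mem_Ioc] at hn
      omega
    · intro c hc
      rw [mem_Icc] at hc
      omega
    · intro n _
      rw [Fin.prod_univ_two]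
      congr 2
      · change 1 * (n : ℤ) + (x - M - 1) = (n : ℤ) - M - 1 + x
        ring
      · change 1 * (n : ℤ) + (y - M - 1) = (n : ℤ) - M - 1 + y
        ring
  have e2 : gz z (fun _ => 1) ![x - M - 1, y - M - 1] 1 0 = Sz z (x - y) := by
    unfold gz Sz
    rw [if_neg]
    · congr 1
      have e3 : (pz z).filter (fun p => ¬ p ∣ 1) = pz z := by
        apply Finset.filter_true_of_mem
        intro p hp h
        have := (mem_pz.1 hp).2
        exact this.one_lt.ne' (Nat.dvd_one.1 h)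
      rw [e3]
      refine Finset.prod_congr rfl fun p hp => ?_
      rw [nuf_two _ _ p (mem_pz.1 hp).2]
      have e4 : x - M - 1 - (y - M - 1) = x - y := by ring
      rw [e4]
    · rintro ⟨p, hp, h, -⟩
      have := (mem_pz.1 hp).2
      exact this.one_lt.ne' (Nat.dvd_one.1 h)
  rw [e1, e2] at h1
  have e3 : ((2 * M + 1 : ℕ) : ℝ) / ((1 : ℕ) : ℝ) = (2 * M + 1 : ℕ) := by simp
  have e4 : (N : ℝ) / ((1 : ℕ) : ℝ) = N := by simp
  rw [e3, e4] at h1
  refine h1.trans ?_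
  have e5 : 2 * (N : ℝ) / Real.log N ^ A = N / Real.log N ^ A + N / Real.log N ^ A := by ring
  rw [e5]
  linarith

/-- the product of the primes of a set -/
def dd (T : Finset ℕ) : ℕ := ∏ p ∈ T, p

/-- the coefficients of the expansion -/
noncomputable def Wt (z : ℕ) (T : Finset ℕ) : ℝ :=
  ((Vz z)⁻¹) ^ 2 * ((∏ p ∈ T, 1 / (p : ℝ)) * ∏ p ∈ pz z \ T, (1 - 2 / (p : ℝ)))

lemma Wt_nonneg (z : ℕ) (T : Finset ℕ) : 0 ≤ Wt z T := by
  unfold Wt
  apply mul_nonneg (sq_nonneg _)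
  apply mul_nonneg
  · exact Finset.prod_nonneg fun p _ => by positivity
  · apply Finset.prod_nonneg
    intro p hp
    rw [mem_sdiff] at hp
    have h2 : (2 : ℝ) ≤ p := by exact_mod_cast (mem_pz.1 hp.1).2.two_le
    have h3 : 2 / (p : ℝ) ≤ 1 := by rw [div_le_one (by linarith)]; exact h2
    linarith

lemma dd_dvd (z : ℕ) (T : Finset ℕ) (hT : T ⊆ pz z) (k : ℤ) : ((dd T : ℕ) : ℤ) ∣ k ↔ ∀ p ∈ T, (p : ℤ) ∣ k := by
  constructor
  · intro h p hp
    refine dvd_trans ?_ h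
    exact_mod_cast Finset.dvd_prod_of_mem _ hp
  · intro h
    have h1 : dd T ∣ k.natAbs := by
      unfold dd
      apply Finset.prod_primes_dvd
      · intro p hp
        exact (mem_pz.1 (hT hp)).2.prime
      · intro p hp
        exact Int.natCast_dvd.1 (h p hp)
    exact Int.natCast_dvd.2 h1

theorem Sz_eq (z : ℕ) (k : ℤ) :
    Sz z k = ∑ T ∈ (pz z).powerset, Wt z T * (if ((dd T : ℕ) : ℤ) ∣ k then 1 else 0) := by
  classical
  unfold Sz
  have h1 : ∏ p ∈ pz z, (1 - (if (p : ℤ) ∣ k then 1 else 2) / (p : ℝ)) =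
      ∏ p ∈ pz z, ((if (p : ℤ) ∣ k then 1 / (p : ℝ) else 0) + (1 - 2 / (p : ℝ))) := by
    refine Finset.prod_congr rfl fun p _ => ?_
    split_ifs
    · ring
    · ring
  rw [h1, Finset.prod_add, Finset.mul_sum]
  refine Finset.sum_congr rfl fun T hT => ?_
  rw [mem_powerset] at hT
  unfold Wt
  by_cases h : ((dd T : ℕ) : ℤ) ∣ k
  · rw [if_pos h, mul_one]
    congr 2
    refine Finset.prod_congr rfl fun p hp => ?_
    rw [if_pos ((dd_dvd z T hT k).1 h p hp)]
  · rw [if_neg h, mul_zero]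
    have h2 : ¬ ∀ p ∈ T, (p : ℤ) ∣ k := fun h3 => h ((dd_dvd z T hT k).2 h3)
    push Not at h2
    obtain ⟨p, hp, hpk⟩ := h2
    have h3 : ∏ p ∈ T, (if (p : ℤ) ∣ k then 1 / (p : ℝ) else 0) = 0 :=
      Finset.prod_eq_zero hp (if_neg hpk)
    rw [h3, zero_mul, mul_zero]

lemma Sz_zero (z : ℕ) : Sz z 0 = (Vz z)⁻¹ := by
  unfold Sz
  have h1 : ∏ p ∈ pz z, (1 - (if (p : ℤ) ∣ 0 then 1 else 2) / (p : ℝ)) = Vz z := by
    unfold Vz
    refine Finset.prod_congr rfl fun p _ => ?_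
    rw [if_pos (dvd_zero _)]
  rw [h1, sq]
  have := (Vz_pos z).ne'
  field_simp

lemma Wt_le (z : ℕ) (T : Finset ℕ) (hT : T ⊆ pz z) : Wt z T ≤ ∏ p ∈ T, 4 / (p : ℝ) := by
  classical
  have hV : ((Vz z)⁻¹) ^ 2 = (∏ p ∈ pz z \ T, ((1 - 1 / (p : ℝ))⁻¹) ^ 2) * ∏ p ∈ T, ((1 - 1 / (p : ℝ))⁻¹) ^ 2 := by
    rw [Finset.prod_sdiff hT]
    unfold Vz
    rw [← Finset.prod_inv_distrib, ← Finset.prod_pow]
  have e1 : Wt z T = (∏ p ∈ T, (((1 - 1 / (p : ℝ))⁻¹) ^ 2 * (1 / (p : ℝ)))) *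
      ∏ p ∈ pz z \ T, (((1 - 1 / (p : ℝ))⁻¹) ^ 2 * (1 - 2 / (p : ℝ))) := by
    unfold Wt
    rw [hV, Finset.prod_mul_distrib, Finset.prod_mul_distrib]
    ring
  rw [e1]
  have hq : ∀ p ∈ pz z, 2 ≤ (p : ℝ) := fun p hp => by exact_mod_cast (mem_pz.1 hp).2.two_le
  have h1 : ∏ p ∈ pz z \ T, (((1 - 1 / (p : ℝ))⁻¹) ^ 2 * (1 - 2 / (p : ℝ))) ≤ 1 := by
    apply Finset.prod_le_one
    · intro p hp
      have h2 := hq p (mem_sdiff.1 hp).1
      apply mul_nonneg (sq_nonneg _)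
      have h3 : 2 / (p : ℝ) ≤ 1 := by rw [div_le_one (by linarith)]; exact h2
      linarith
    · intro p hp
      have h2 := hq p (mem_sdiff.1 hp).1
      have h3 : 0 < 1 - 1 / (p : ℝ) := by
        have : 1 / (p : ℝ) ≤ 1 / 2 := one_div_le_one_div_of_le (by norm_num) h2
        linarith
      rw [inv_pow, inv_mul_le_iff₀ (by positivity), mul_one]
      have h4 : (1 - 1 / (p : ℝ)) ^ 2 = 1 - 2 / p + (1 / p) ^ 2 := by ring
      rw [h4]
      have : 0 ≤ (1 / (p : ℝ)) ^ 2 := sq_nonneg _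
      linarith
  have h2 : ∏ p ∈ T, (((1 - 1 / (p : ℝ))⁻¹) ^ 2 * (1 / (p : ℝ))) ≤ ∏ p ∈ T, 4 / (p : ℝ) := by
    apply Finset.prod_le_prod
    · intro p hp
      positivity
    · intro p hp
      have h2 := hq p (hT hp)
      have h3 : 1 / 2 ≤ 1 - 1 / (p : ℝ) := by
        have : 1 / (p : ℝ) ≤ 1 / 2 := one_div_le_one_div_of_le (by norm_num) h2
        linarith
      have h4 : (1 - 1 / (p : ℝ))⁻¹ ≤ 2 := by
        rw [inv_le_comm₀ (by linarith) (by norm_num)]
        have h8 : (2 : ℝ)⁻¹ = 1 / 2 := by norm_num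
        rw [h8]
        exact h3
      have h5 : 0 ≤ (1 - 1 / (p : ℝ))⁻¹ := inv_nonneg.2 (by linarith)
      have h6 : ((1 - 1 / (p : ℝ))⁻¹) ^ 2 ≤ 4 := by nlinarith
      calc ((1 - 1 / (p : ℝ))⁻¹) ^ 2 * (1 / (p : ℝ)) ≤ 4 * (1 / (p : ℝ)) :=
            mul_le_mul_of_nonneg_right h6 (by positivity)
        _ = 4 / (p : ℝ) := by ring
  have h3 : 0 ≤ ∏ p ∈ T, 4 / (p : ℝ) := Finset.prod_nonneg fun p _ => by positivity
  have h4 : 0 ≤ ∏ p ∈ pz z \ T, (((1 - 1 / (p : ℝ))⁻¹) ^ 2 * (1 - 2 / (p : ℝ))) := by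
    apply Finset.prod_nonneg
    intro p hp
    have h2 := hq p (mem_sdiff.1 hp).1
    apply mul_nonneg (sq_nonneg _)
    have h3 : 2 / (p : ℝ) ≤ 1 := by rw [div_le_one (by linarith)]; exact h2
    linarith
  calc _ ≤ (∏ p ∈ T, 4 / (p : ℝ)) * 1 := mul_le_mul h2 h1 h4 h3
    _ = _ := mul_one _

lemma dd_pos (z : ℕ) (T : Finset ℕ) (hT : T ⊆ pz z) : 0 < dd T := by
  unfold dd
  exact Finset.prod_pos fun p hp => (mem_pz.1 (hT hp)).2.pos

/-- bound for small products -/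
lemma Wt_le_small (z : ℕ) (T : Finset ℕ) (hT : T ⊆ pz z) : Wt z T * (dd T : ℝ) ≤ (dd T : ℝ) ^ 2 := by
  refine (mul_le_mul_of_nonneg_right (Wt_le z T hT) (Nat.cast_nonneg _)).trans ?_
  unfold dd
  push_cast
  rw [← Finset.prod_mul_distrib, ← Finset.prod_pow]
  apply Finset.prod_le_prod
  · intro p _
    positivity
  · intro p hp
    have h2 : (2 : ℝ) ≤ p := by exact_mod_cast (mem_pz.1 (hT hp)).2.two_le
    rw [div_mul_cancel₀ _ (by linarith : (p : ℝ) ≠ 0)]
    nlinarith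

/-- bound for large products -/
lemma Wt_le_large (z : ℕ) (T : Finset ℕ) (hT : T ⊆ pz z) : Wt z T ≤ 3 ^ 16 / √(dd T : ℝ) := by
  classical
  have hq : ∀ p ∈ T, 2 ≤ (p : ℝ) := fun p hp => by exact_mod_cast (mem_pz.1 (hT hp)).2.two_le
  have hd : (0 : ℝ) < dd T := by exact_mod_cast dd_pos z T hT
  rw [le_div_iff₀ (Real.sqrt_pos.2 hd)]
  have e1 : √(dd T : ℝ) = ∏ p ∈ T, √(p : ℝ) := by
    unfold dd
    push_cast
    induction T using Finset.induction_on with
    | empty => simp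
    | insert q T' hq' ih =>
      rw [Finset.prod_insert hq', Finset.prod_insert hq', Real.sqrt_mul (Nat.cast_nonneg _)]
      rw [ih (fun x hx => hT (Finset.mem_insert_of_mem hx)) (fun p hp => hq p (Finset.mem_insert_of_mem hp)) ?_]
      exact_mod_cast dd_pos z T' (fun x hx => hT (Finset.mem_insert_of_mem hx))
  rw [e1]
  have h1 : Wt z T * ∏ p ∈ T, √(p : ℝ) ≤ (∏ p ∈ T, 4 / (p : ℝ)) * ∏ p ∈ T, √(p : ℝ) :=
    mul_le_mul_of_nonneg_right (Wt_le z T hT) (Finset.prod_nonneg fun _ _ => Real.sqrt_nonneg _)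
  refine h1.trans ?_
  rw [← Finset.prod_mul_distrib]
  have h2 : ∀ p ∈ T, 4 / (p : ℝ) * √(p : ℝ) ≤ if p < 16 then 3 else 1 := by
    intro p hp
    have h3 := hq p hp
    have hs0 : 0 < √(p : ℝ) := Real.sqrt_pos.2 (by linarith)
    have h4 : 4 / (p : ℝ) * √(p : ℝ) = 4 / √(p : ℝ) := by
      have h5 : √(p : ℝ) * √(p : ℝ) = p := Real.mul_self_sqrt (by linarith)
      rw [div_mul_eq_mul_div, div_eq_div_iff (by linarith) hs0.ne', mul_assoc, h5]
    rw [h4]
    split_ifs with h6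
    · rw [div_le_iff₀ hs0]
      have h7 : (4 / 3 : ℝ) ≤ √(p : ℝ) := by
        apply Real.le_sqrt_of_sq_le
        norm_num
        linarith
      linarith
    · rw [div_le_one hs0]
      apply Real.le_sqrt_of_sq_le
      have : (16 : ℝ) ≤ p := by exact_mod_cast (by omega : 16 ≤ p)
      norm_num
      linarith
  refine (Finset.prod_le_prod (fun p _ => by positivity) h2).trans ?_
  rw [Finset.prod_ite, Finset.prod_const, Finset.prod_const_one, mul_one]
  apply pow_le_pow_right₀ (by norm_num)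
  have h3 : T.filter (fun p => p < 16) ⊆ range 16 := by
    intro p hp
    rw [mem_filter] at hp
    rw [mem_range]
    exact hp.2
  refine (card_le_card h3).trans ?_
  rw [card_range]

/-- the tail of the expansion -/
theorem tail (z : ℕ) (k : ℤ) (hk : k ≠ 0) (D : ℕ) (hD : 1 ≤ D) :
    ∑ T ∈ (pz z).powerset.filter (fun T => D < dd T), Wt z T * (if ((dd T : ℕ) : ℤ) ∣ k then 1 else 0) ≤
      3 ^ 16 / √(D : ℝ) * tau k.natAbs := by
  classical
  have hD0 : (0 : ℝ) < D := by exact_mod_cast hD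
  have h1 : ∑ T ∈ (pz z).powerset.filter (fun T => D < dd T), Wt z T * (if ((dd T : ℕ) : ℤ) ∣ k then 1 else 0) =
      ∑ T ∈ ((pz z).powerset.filter (fun T => D < dd T)).filter (fun T => ((dd T : ℕ) : ℤ) ∣ k), Wt z T := by
    rw [Finset.sum_filter (p := fun T => ((dd T : ℕ) : ℤ) ∣ k)]
    refine Finset.sum_congr rfl fun T _ => ?_
    split_ifs
    · rw [mul_one]
    · rw [mul_zero]
  rw [h1]
  have h2 : ∀ T ∈ ((pz z).powerset.filter (fun T => D < dd T)).filter (fun T => ((dd T : ℕ) : ℤ) ∣ k),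
      Wt z T ≤ 3 ^ 16 / √(D : ℝ) := by
    intro T hT
    rw [mem_filter, mem_filter, mem_powerset] at hT
    refine (Wt_le_large z T hT.1.1).trans ?_
    apply div_le_div_of_nonneg_left (by norm_num) (Real.sqrt_pos.2 hD0)
    apply Real.sqrt_le_sqrt
    exact_mod_cast hT.1.2.le
  refine (Finset.sum_le_card_nsmul _ _ _ h2).trans ?_
  rw [nsmul_eq_mul, mul_comm]
  apply mul_le_mul_of_nonneg_left _ (by positivity)
  unfold tau
  have h3 : (((pz z).powerset.filter (fun T => D < dd T)).filter (fun T => ((dd T : ℕ) : ℤ) ∣ k)).card ≤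
      k.natAbs.divisors.card := by
    apply Finset.card_le_card_of_injOn dd
    · intro T hT
      rw [Finset.mem_coe, mem_filter] at hT
      rw [Finset.mem_coe, Nat.mem_divisors]
      exact ⟨Int.natCast_dvd.1 hT.2, by omega⟩
    · intro T hT T' hT' he
      rw [Finset.mem_coe, mem_filter, mem_filter, mem_powerset] at hT hT'
      have key : ∀ T : Finset ℕ, T ⊆ pz z → (dd T).primeFactors = T := by
        intro T hT
        unfold dd
        exact Nat.primeFactors_prod fun p hp => (mem_pz.1 (hT hp)).2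
      rw [← key T hT.1.1, ← key T' hT'.1.1, he]
  exact_mod_cast h3

end Pool.Agent.H79.W.Sg
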