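import Pool.Agent.H79.Q.One

/-!
The constants of the reduced polynomials.
-/

set_option autoImplicit false

namespace Pool.Agent.H79.W.Adm

open Finset Polynomial Filter Topology
open Pool.Agent.helper24_UT
open Pool.Agent.Results.MP_a1177c_nt.AllTriples (Admissible eps gcdProd partialC)
open Pool.Agent.H79.Q.Fac (qF sg_eq)
open Pool.Agent.H79.Q.One (c0 disc)

lemma b_eq (a b : ℤ) : b = b % (2 * a) + 2 * a * (b / (2 * a)) := (Int.emod_add_mul_ediv b (2 * a)).symm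

lemma c_eq (a b c : ℤ) : c = c0 a b c + a * (b / (2 * a)) ^ 2 + (b % (2 * a)) * (b / (2 * a)) := by
  unfold c0
  ring

lemma adm_red (a b c : ℤ) (h : Admissible a b c) : Admissible a (b % (2 * a)) (c0 a b c) := by
  obtain ⟨h1, h2, h3, h4⟩ := h
  have hb := b_eq a b
  have hc := c_eq a b c
  obtain ⟨k, hk⟩ : ∃ k : ℤ, k = b / (2 * a) := ⟨_, rfl⟩
  obtain ⟨r, hr⟩ : ∃ r : ℤ, r = b % (2 * a) := ⟨_, rfl⟩
  obtain ⟨s, hs⟩ : ∃ s : ℤ, s = c0 a b c := ⟨_, rfl⟩
  rw [← hk, ← hr] at hb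
  rw [← hk, ← hr, ← hs] at hc
  have hd := disc a b c
  rw [← hr, ← hs] at hd
  rw [← hr, ← hs]
  refine ⟨h1, ?_, ?_, ?_⟩
  · intro d hda hdr hds
    apply h2 d hda
    · rw [hb]
      exact dvd_add hdr (Dvd.dvd.mul_right (Dvd.dvd.mul_left hda 2) k)
    · rw [hc]
      exact dvd_add (dvd_add hds (Dvd.dvd.mul_right hda _)) (Dvd.dvd.mul_right hdr _)
  · rintro ⟨h5, h6⟩
    apply h3
    constructor
    · rw [hb]
      have : a + (r + 2 * a * k) = (a + r) + 2 * (a * k) := by ring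
      rw [this]
      exact dvd_add h5 (dvd_mul_right 2 _)
    · rw [hc]
      have e1 : s + a * k ^ 2 + r * k = s + (a + r) * k + a * (k * (k - 1)) := by ring
      rw [e1]
      have h7 : (2 : ℤ) ∣ k * (k - 1) := by
        have := Int.even_mul_pred_self k
        exact this.two_dvd
      exact dvd_add (dvd_add h6 (Dvd.dvd.mul_right h5 _)) (Dvd.dvd.mul_left h7 _)
  · rw [hd]
    exact h4

lemma adm_neg (a b c : ℤ) (h : Admissible a b c) : Admissible a (-b) c := by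
  obtain ⟨h1, h2, h3, h4⟩ := h
  refine ⟨h1, ?_, ?_, ?_⟩
  · intro d hda hdb hdc
    exact h2 d hda ((dvd_neg).1 hdb) hdc
  · rintro ⟨h5, h6⟩
    apply h3
    refine ⟨?_, h6⟩
    have : a + b = (a + -b) + 2 * b := by ring
    rw [this]
    exact dvd_add h5 (dvd_mul_right 2 _)
  · rw [neg_sq]
    exact h4

lemma eps_red (a b : ℤ) : eps a (b % (2 * a)) = eps a b := by
  unfold eps
  have hb := b_eq a b
  obtain ⟨k, hk⟩ : ∃ k : ℤ, k = b / (2 * a) := ⟨_, rfl⟩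
  obtain ⟨r, hr⟩ : ∃ r : ℤ, r = b % (2 * a) := ⟨_, rfl⟩
  rw [← hk, ← hr] at hb
  rw [← hr]
  have h1 : (2 : ℤ) ∣ a + r ↔ (2 : ℤ) ∣ a + b := by
    rw [hb]
    have : a + (r + 2 * a * k) = (a + r) + 2 * (a * k) := by ring
    rw [this]
    exact (Int.dvd_add_left (dvd_mul_right 2 _)).symm
  simp only [h1]

lemma eps_neg (a b : ℤ) : eps a (-b) = eps a b := by
  unfold eps
  have h1 : (2 : ℤ) ∣ a + -b ↔ (2 : ℤ) ∣ a + b := by
    constructor <;> intro h <;> omega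
  simp only [h1]

lemma gcd_red (a b : ℤ) : gcdProd a (b % (2 * a)) = gcdProd a b := by
  unfold gcdProd
  have h1 : Int.gcd a (b % (2 * a)) = Int.gcd a b := by
    have hb := b_eq a b
    obtain ⟨k, hk⟩ : ∃ k : ℤ, k = b / (2 * a) := ⟨_, rfl⟩
    obtain ⟨r, hr⟩ : ∃ r : ℤ, r = b % (2 * a) := ⟨_, rfl⟩
    rw [← hk, ← hr] at hb
    rw [← hr]
    apply Nat.dvd_antisymm
    · apply Int.dvd_gcd
      · exact Int.gcd_dvd_left a r
      · rw [hb]
        exact dvd_add (Int.gcd_dvd_right a r) (Dvd.dvd.mul_right (Dvd.dvd.mul_left (Int.gcd_dvd_left a r) 2) k)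
    · apply Int.dvd_gcd
      · exact Int.gcd_dvd_left a b
      · have : r = b - 2 * a * k := by rw [hb]; ring
        rw [this]
        exact dvd_sub (Int.gcd_dvd_right a b) (Dvd.dvd.mul_right (Dvd.dvd.mul_left (Int.gcd_dvd_left a b) 2) k)
  rw [h1]

lemma gcd_neg (a b : ℤ) : gcdProd a (-b) = gcdProd a b := by
  unfold gcdProd
  rw [Int.gcd_neg]

lemma part_eq (a b c b' c' : ℤ) (h : b' ^ 2 - 4 * a * c' = b ^ 2 - 4 * a * c) (z : ℕ) :
    partialC a b' c' z = partialC a b c z := by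
  unfold partialC
  rw [h]

theorem sg_red (a b c : ℤ) (h : Admissible a b c) (z : ℕ) (hz : 2 ≤ z) (haz : a ≤ z) :
    sg z (qF a (b % (2 * a)) (c0 a b c)) = sg z (qF a b c) := by
  rw [sg_eq _ _ _ (adm_red a b c h) z hz haz, sg_eq _ _ _ h z hz haz, eps_red, gcd_red,
    part_eq a b c _ _ (disc a b c)]

theorem sg_red_neg (a b c : ℤ) (h : Admissible a b c) (z : ℕ) (hz : 2 ≤ z) (haz : a ≤ z) :
    sg z (qF a (-(b % (2 * a))) (c0 a b c)) = sg z (qF a b c) := by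
  rw [sg_eq _ _ _ (adm_neg _ _ _ (adm_red a b c h)) z hz haz, sg_eq _ _ _ h z hz haz, eps_neg, eps_red, gcd_neg, gcd_red,
    part_eq a b c _ _ (by rw [neg_sq]; exact disc a b c)]

end Pool.Agent.H79.W.Adm
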