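import Pool.Agent.H79.Q.En
import Pool.Graph.R_seed8.H398R2.BV1

/-!
Pairs of arguments in windows `(u, u + h]`.
-/

set_option autoImplicit false

namespace Pool.Agent.H79.W.Pr

open Finset
open Pool.Agent.H79.Q.En (qv tau tau_nonneg tau_mul sum_tau)

/-- sums over all windows -/
lemma win_le (φ : ℕ → ℝ) (h0 : ∀ v, 0 ≤ φ v) (Y h : ℕ) :
    ∑ u ∈ Icc 1 Y, ∑ t ∈ Icc 1 h, φ (u + t) ≤ h * ∑ v ∈ Icc 1 (Y + h), φ v := by
  rw [Finset.sum_comm]
  have h1 : ∀ t ∈ Icc 1 h, ∑ u ∈ Icc 1 Y, φ (u + t) ≤ ∑ v ∈ Icc 1 (Y + h), φ v := by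
    intro t ht
    rw [mem_Icc] at ht
    have h2 : ∑ u ∈ Icc 1 Y, φ (u + t) = ∑ v ∈ (Icc 1 Y).image (fun u => u + t), φ v := by
      rw [Finset.sum_image (fun x _ y _ hxy => by simpa using hxy)]
    rw [h2]
    apply Finset.sum_le_sum_of_subset_of_nonneg
    · intro v hv
      rw [mem_image] at hv
      obtain ⟨u, hu, rfl⟩ := hv
      rw [mem_Icc] at hu ⊢
      omega
    · intro v _ _
      exact h0 v
  refine (Finset.sum_le_sum h1).trans ?_
  rw [Finset.sum_const, Nat.card_Icc, Nat.add_sub_cancel, nsmul_eq_mul]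

lemma upper_le (φ : ℕ → ℝ) (h0 : ∀ v, 0 ≤ φ v) (h t u : ℕ) :
    ∑ t' ∈ (Icc 1 h).filter (fun t' => t < t'), φ (u + t') ≤ ∑ d ∈ Icc 1 h, φ (u + t + d) := by
  have h2 : ∑ t' ∈ (Icc 1 h).filter (fun t' => t < t'), φ (u + t') =
      ∑ d ∈ ((Icc 1 h).filter (fun t' => t < t')).image (fun t' => t' - t), φ (u + t + d) := by
    rw [Finset.sum_image]
    · refine Finset.sum_congr rfl fun t' ht' => ?_
      rw [mem_filter] at ht'
      congr 1
      omega
    · intro x hx y hy hxy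
      rw [Finset.mem_coe, mem_filter] at hx hy
      dsimp only at hxy
      omega
  rw [h2]
  apply Finset.sum_le_sum_of_subset_of_nonneg
  · intro v hv
    rw [mem_image] at hv
    obtain ⟨t', ht', rfl⟩ := hv
    rw [mem_filter, mem_Icc] at ht'
    rw [mem_Icc]
    omega
  · intro v _ _
    exact h0 _

/-- pairs of arguments in the same window -/
lemma pairs_le (g : ℕ → ℕ → ℝ) (h0 : ∀ x y, 0 ≤ g x y) (hs : ∀ x y, g x y = g y x) (Y h : ℕ) :
    ∑ u ∈ Icc 1 Y, ∑ t ∈ Icc 1 h, ∑ t' ∈ Icc 1 h, g (u + t) (u + t') ≤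
      ∑ u ∈ Icc 1 Y, ∑ t ∈ Icc 1 h, g (u + t) (u + t) +
        2 * h * ∑ d ∈ Icc 1 h, ∑ v ∈ Icc 1 (Y + h), g v (v + d) := by
  have h1 : ∀ u : ℕ, ∑ t ∈ Icc 1 h, ∑ t' ∈ Icc 1 h, g (u + t) (u + t') ≤
      ∑ t ∈ Icc 1 h, g (u + t) (u + t) + 2 * ∑ t ∈ Icc 1 h, ∑ d ∈ Icc 1 h, g (u + t) (u + t + d) := by
    intro u
    have e1 : ∑ t ∈ Icc 1 h, ∑ t' ∈ Icc 1 h, g (u + t) (u + t') =
        ∑ t ∈ Icc 1 h, g (u + t) (u + t) + (∑ t ∈ Icc 1 h, ∑ t' ∈ (Icc 1 h).filter (fun t' => t < t'), g (u + t) (u + t') +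
          ∑ t ∈ Icc 1 h, ∑ t' ∈ (Icc 1 h).filter (fun t' => t' < t), g (u + t) (u + t')) := by
      rw [← Finset.sum_add_distrib, ← Finset.sum_add_distrib]
      refine Finset.sum_congr rfl fun t ht => ?_
      have e2 : ∀ t' ∈ Icc 1 h, g (u + t) (u + t') = (if t = t' then g (u + t) (u + t) else 0) +
          ((if t < t' then g (u + t) (u + t') else 0) + (if t' < t then g (u + t) (u + t') else 0)) := by
        intro t' _
        rcases lt_trichotomy t t' with h | h | h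
        · rw [if_neg (by omega), if_pos h, if_neg (by omega)]; ring
        · subst h; simp
        · rw [if_neg (by omega), if_neg (by omega), if_pos h]; ring
      rw [Finset.sum_congr rfl e2, Finset.sum_add_distrib, Finset.sum_add_distrib, Finset.sum_ite_eq, if_pos ht,
        Finset.sum_filter, Finset.sum_filter]
    have e3 : ∑ t ∈ Icc 1 h, ∑ t' ∈ (Icc 1 h).filter (fun t' => t' < t), g (u + t) (u + t') =
        ∑ t ∈ Icc 1 h, ∑ t' ∈ (Icc 1 h).filter (fun t' => t < t'), g (u + t) (u + t') := by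
      simp only [Finset.sum_filter]
      rw [Finset.sum_comm]
      refine Finset.sum_congr rfl fun t _ => Finset.sum_congr rfl fun t' _ => ?_
      rw [hs]
    have e4 : ∑ t ∈ Icc 1 h, ∑ t' ∈ (Icc 1 h).filter (fun t' => t < t'), g (u + t) (u + t') ≤
        ∑ t ∈ Icc 1 h, ∑ d ∈ Icc 1 h, g (u + t) (u + t + d) :=
      Finset.sum_le_sum fun t _ => upper_le (fun v => g (u + t) v) (fun v => h0 _ _) h t u
    rw [e1, e3]
    linarith
  refine (Finset.sum_le_sum fun u _ => h1 u).trans ?_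
  rw [Finset.sum_add_distrib, ← Finset.mul_sum]
  have h2 := win_le (fun v => ∑ d ∈ Icc 1 h, g v (v + d)) (fun v => Finset.sum_nonneg fun _ _ => h0 _ _) Y h
  rw [Finset.sum_comm (s := Icc 1 (Y + h))] at h2
  linarith

/-- the difference of two values -/
lemma qv_sub (a b : ℤ) (v d : ℕ) : qv a b (v + d) - qv a b v = (d : ℤ) * (a * (2 * v + d) + b) := by
  unfold qv
  push_cast
  ring

lemma fac_pos (a b : ℤ) (ha : 1 ≤ a) (hb : |b| ≤ 2 * a) (v d : ℕ) (hv : 1 ≤ v) (hd : 1 ≤ d) :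
    0 < a * (2 * (v : ℤ) + d) + b := by
  have hb' := abs_le.1 hb
  have h1 : (1 : ℤ) ≤ v := by exact_mod_cast hv
  have h2 : (1 : ℤ) ≤ d := by exact_mod_cast hd
  have h3 : a * 3 ≤ a * (2 * (v : ℤ) + d) := mul_le_mul_of_nonneg_left (by omega) (by omega)
  linarith

lemma fac_le (a b : ℤ) (ha : 1 ≤ a) (hb : |b| ≤ 2 * a) (v d V h : ℕ) (hv : v ≤ V) (hd : d ≤ h) :
    a * (2 * (v : ℤ) + d) + b ≤ a * (2 * V + h + 2) := by
  have hb' := abs_le.1 hb
  have h1 : (v : ℤ) ≤ V := by exact_mod_cast hv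
  have h2 : (d : ℤ) ≤ h := by exact_mod_cast hd
  have h3 : a * (2 * (v : ℤ) + d) ≤ a * (2 * V + h) := mul_le_mul_of_nonneg_left (by omega) (by omega)
  linarith

/-- Cauchy's inequality on the differences -/
lemma cs (a b : ℤ) (ha : 1 ≤ a) (hb : |b| ≤ 2 * a) (C : ℤ → ℝ) (V h K0 : ℕ)
    (hK : (h : ℤ) * (a * (2 * V + h + 2)) ≤ K0) (S : ℝ) (hS : ∑ k ∈ Icc 1 K0, C (k : ℤ) ^ 2 ≤ S) :
    ∑ d ∈ Icc 1 h, ∑ v ∈ Icc 1 V, |C (qv a b (v + d) - qv a b v)| ≤ √(K0 * (1 + Real.log K0) ^ 3 * S) := by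
  classical
  set kk : ℕ × ℕ → ℤ := fun p => (p.1 : ℤ) * (a * (2 * p.2 + p.1) + b) with hkk
  have hpos : ∀ p ∈ Icc 1 h ×ˢ Icc 1 V, 0 < kk p ∧ kk p ≤ K0 := by
    intro p hp
    rw [mem_product, mem_Icc, mem_Icc] at hp
    have h1 := fac_pos a b ha hb p.2 p.1 hp.2.1 hp.1.1
    have h2 := fac_le a b ha hb p.2 p.1 V h hp.2.2 hp.1.2
    have h3 : (1 : ℤ) ≤ p.1 := by exact_mod_cast hp.1.1
    have h4 : (p.1 : ℤ) ≤ h := by exact_mod_cast hp.1.2
    constructor
    · exact mul_pos (by omega) h1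
    · refine le_trans ?_ hK
      exact mul_le_mul h4 h2 h1.le (by omega)
  have e1 : ∑ d ∈ Icc 1 h, ∑ v ∈ Icc 1 V, |C (qv a b (v + d) - qv a b v)| =
      ∑ p ∈ Icc 1 h ×ˢ Icc 1 V, |C (kk p)| := by
    rw [Finset.sum_product]
    refine Finset.sum_congr rfl fun d _ => Finset.sum_congr rfl fun v _ => ?_
    rw [qv_sub]
  have hmap : ∀ p ∈ Icc 1 h ×ˢ Icc 1 V, (kk p).toNat ∈ Icc 1 K0 := by
    intro p hp
    have := hpos p hp
    rw [mem_Icc]
    omega
  rw [e1, ← Finset.sum_fiberwise_of_maps_to hmap]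
  have h2 : ∀ k ∈ Icc 1 K0, ∑ p ∈ (Icc 1 h ×ˢ Icc 1 V).filter (fun p => (kk p).toNat = k), |C (kk p)| ≤
      (k.divisors.card : ℝ) * |C (k : ℤ)| := by
    intro k hk
    rw [mem_Icc] at hk
    have e2 : ∀ p ∈ (Icc 1 h ×ˢ Icc 1 V).filter (fun p => (kk p).toNat = k), |C (kk p)| = |C (k : ℤ)| := by
      intro p hp
      rw [mem_filter] at hp
      have := hpos p hp.1
      congr 2
      omega
    rw [Finset.sum_congr rfl e2, Finset.sum_const, nsmul_eq_mul]
    apply mul_le_mul_of_nonneg_right _ (abs_nonneg _)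
    have h3 : ((Icc 1 h ×ˢ Icc 1 V).filter (fun p => (kk p).toNat = k)).card ≤ k.divisors.card := by
      apply Finset.card_le_card_of_injOn (fun p => p.1)
      · intro p hp
        rw [Finset.mem_coe, mem_filter] at hp
        have h4 := hpos p hp.1
        have h5 : kk p = (k : ℤ) := by omega
        rw [Finset.mem_coe, Nat.mem_divisors]
        refine ⟨?_, by omega⟩
        have h6 : (p.1 : ℤ) ∣ (k : ℤ) := ⟨_, by rw [← h5]⟩
        exact_mod_cast h6
      · intro p hp r hr he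
        rw [Finset.mem_coe, mem_filter] at hp hr
        dsimp only at he
        have h4 := hpos p hp.1
        have h4' := hpos r hr.1
        have h5 : kk p = kk r := by omega
        rw [hkk] at h5
        dsimp only at h5
        rw [he] at h5
        rw [mem_product, mem_Icc, mem_Icc] at hp hr
        have h6 : ((r.1 : ℕ) : ℤ) ≠ 0 := by
          have := hr.1.1.1
          omega
        have h7 := mul_left_cancel₀ h6 h5
        have h8 : a * (2 * (p.2 : ℤ) + r.1) = a * (2 * (r.2 : ℤ) + r.1) := by linarith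
        have h9 := mul_left_cancel₀ (by omega : a ≠ 0) h8
        apply Prod.ext
        · exact he
        · omega
    exact_mod_cast h3
  refine (Finset.sum_le_sum h2).trans ?_
  apply Real.le_sqrt_of_sq_le
  refine (Finset.sum_mul_sq_le_sq_mul_sq _ _ _).trans ?_
  have h3 := Pool.Agent.H398R2.BV.sum_card_div_sq K0
  have h4 : ∑ k ∈ Icc 1 K0, |C (k : ℤ)| ^ 2 ≤ S := by
    refine le_trans (le_of_eq ?_) hS
    refine Finset.sum_congr rfl fun k _ => ?_
    rw [sq_abs]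
  have h5 : 0 ≤ ∑ k ∈ Icc 1 K0, |C (k : ℤ)| ^ 2 := Finset.sum_nonneg fun _ _ => sq_nonneg _
  have hl : 0 ≤ Real.log K0 := Real.log_natCast_nonneg _
  exact mul_le_mul h3 h4 h5 (by positivity)

/-- the divisor function at the differences -/
lemma tau_pairs (a b : ℤ) (ha : 1 ≤ a) (hb : |b| ≤ 2 * a) (V h W0 : ℕ) (hW : a * (2 * V + h + 2) ≤ W0) :
    ∑ d ∈ Icc 1 h, ∑ v ∈ Icc 1 V, tau (qv a b (v + d) - qv a b v).natAbs ≤
      (h * (1 + Real.log h)) * (W0 * (1 + Real.log W0)) := by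
  have h1 : ∀ d ∈ Icc 1 h, ∑ v ∈ Icc 1 V, tau (qv a b (v + d) - qv a b v).natAbs ≤
      tau d * (W0 * (1 + Real.log W0)) := by
    intro d hd
    rw [mem_Icc] at hd
    have h2 : ∀ v ∈ Icc 1 V, tau (qv a b (v + d) - qv a b v).natAbs ≤ tau d * tau (a * (2 * (v : ℤ) + d) + b).toNat := by
      intro v hv
      rw [mem_Icc] at hv
      have h3 := fac_pos a b ha hb v d hv.1 hd.1
      have h4 : (qv a b (v + d) - qv a b v).natAbs = d * (a * (2 * (v : ℤ) + d) + b).toNat := by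
        rw [qv_sub, Int.natAbs_mul, Int.natAbs_natCast]
        congr 1
        omega
      rw [h4]
      exact tau_mul _ _
    refine (Finset.sum_le_sum h2).trans ?_
    rw [← Finset.mul_sum]
    apply mul_le_mul_of_nonneg_left _ (tau_nonneg _)
    refine le_trans ?_ (sum_tau W0)
    have h5 : ∑ v ∈ Icc 1 V, tau (a * (2 * (v : ℤ) + d) + b).toNat =
        ∑ w ∈ (Icc 1 V).image (fun v : ℕ => (a * (2 * (v : ℤ) + d) + b).toNat), tau w := by
      rw [Finset.sum_image]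
      intro x hx y hy hxy
      rw [Finset.mem_coe, mem_Icc] at hx hy
      dsimp only at hxy
      have h6 := fac_pos a b ha hb x d hx.1 hd.1
      have h7 := fac_pos a b ha hb y d hy.1 hd.1
      have h8 : a * (2 * (x : ℤ) + d) = a * (2 * (y : ℤ) + d) := by omega
      have h9 := mul_left_cancel₀ (by omega : a ≠ 0) h8
      omega
    rw [h5]
    apply Finset.sum_le_sum_of_subset_of_nonneg
    · intro w hw
      rw [mem_image] at hw
      obtain ⟨v, hv, rfl⟩ := hw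
      rw [mem_Icc] at hv ⊢
      have h6 := fac_pos a b ha hb v d hv.1 hd.1
      have h7 := fac_le a b ha hb v d V h hv.2 hd.2
      omega
    · intro w _ _
      exact tau_nonneg _
  refine (Finset.sum_le_sum h1).trans ?_
  rw [← Finset.sum_mul]
  apply mul_le_mul_of_nonneg_right (sum_tau h)
  have hl : 0 ≤ Real.log W0 := Real.log_natCast_nonneg _
  positivity

end Pool.Agent.H79.W.Pr
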