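import Pool.Agent.H79.Q.Sh
import Pool.Agent.H79.W.Pr

/-!
Window sums on the integers: longer windows, shifts, and negative arguments.
-/

set_option autoImplicit false

namespace Pool.Agent.H79.W.Avg

open Finset
open Pool.Agent.H79.Q.Sh (Ph sum_Ph)

/-- the sum over a window -/
noncomputable def Ws (F : ℤ → ℝ) (h : ℕ) (x : ℤ) : ℝ := ∑ t ∈ Icc 1 h, F ((t : ℤ) + x)

lemma Ws_eq (F : ℤ → ℝ) (h : ℕ) (x : ℤ) : Ws F h x = Ph F (x + h) - Ph F x := sum_Ph F x h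

lemma Ws_bd (F : ℤ → ℝ) (P : ℝ) (h : ℕ) (x : ℤ) (hP : ∀ t ∈ Icc 1 h, |F ((t : ℤ) + x)| ≤ P) : |Ws F h x| ≤ h * P := by
  unfold Ws
  refine (Finset.abs_sum_le_sum_abs _ _).trans ((Finset.sum_le_sum hP).trans ?_)
  rw [Finset.sum_const, Nat.card_Icc, Nat.add_sub_cancel, nsmul_eq_mul]

lemma double (F : ℤ → ℝ) (P : ℝ) (hP0 : 0 ≤ P) (h h0 : ℕ) (x : ℤ) (T : ℤ) (hx : |x| + h + h0 ≤ T)
    (hP : ∀ v, |v| ≤ T → |F v| ≤ P) :
    |h0 * Ws F h x - ∑ t ∈ Icc 1 h, Ws F h0 ((t : ℤ) + x)| ≤ 2 * h0 ^ 2 * P := by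
  have hx' := abs_le.1 (le_refl |x|)
  have e1 : ∑ t ∈ Icc 1 h, Ws F h0 ((t : ℤ) + x) = ∑ s ∈ Icc 1 h0, Ws F h ((s : ℤ) + x) := by
    unfold Ws
    rw [Finset.sum_comm]
    refine Finset.sum_congr rfl fun s _ => Finset.sum_congr rfl fun t _ => ?_
    congr 1
    ring
  have e2 : (h0 : ℝ) * Ws F h x = ∑ s ∈ Icc 1 h0, Ws F h x := by
    rw [Finset.sum_const, Nat.card_Icc, Nat.add_sub_cancel, nsmul_eq_mul]
  rw [e1, e2, ← Finset.sum_sub_distrib]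
  have h1 : ∀ s ∈ Icc 1 h0, |Ws F h x - Ws F h ((s : ℤ) + x)| ≤ 2 * h0 * P := by
    intro s hs
    rw [mem_Icc] at hs
    have e3 : Ws F h x - Ws F h ((s : ℤ) + x) = Ws F s x - Ws F s (x + h) := by
      rw [Ws_eq, Ws_eq, Ws_eq, Ws_eq]
      have e4 : (s : ℤ) + x + h = x + h + s := by ring
      have e5 : (s : ℤ) + x = x + s := by ring
      rw [e4, e5]
      ring
    rw [e3]
    have h2 := Ws_bd F P s x (fun t ht => by
      rw [mem_Icc] at ht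
      apply hP
      rw [abs_le]
      constructor <;> omega)
    have h3 := Ws_bd F P s (x + h) (fun t ht => by
      rw [mem_Icc] at ht
      apply hP
      rw [abs_le]
      constructor <;> omega)
    have hs0 : (s : ℝ) ≤ h0 := by exact_mod_cast hs.2
    have h4 : (s : ℝ) * P ≤ h0 * P := mul_le_mul_of_nonneg_right hs0 hP0
    have h5 := abs_sub (Ws F s x) (Ws F s (x + h))
    linarith
  refine (Finset.abs_sum_le_sum_abs _ _).trans ((Finset.sum_le_sum h1).trans ?_)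
  rw [Finset.sum_const, Nat.card_Icc, Nat.add_sub_cancel, nsmul_eq_mul]
  apply le_of_eq
  ring

lemma avg (F : ℤ → ℝ) (P : ℝ) (hP0 : 0 ≤ P) (h h0 y : ℕ) (κ : ℤ) (T : ℤ) (hx : |κ| + y + h + h0 ≤ T)
    (hP : ∀ v, |v| ≤ T → |F v| ≤ P) :
    h0 * ∑ u ∈ Icc 1 y, |Ws F h ((u : ℤ) + κ)| ≤
      h * ∑ v ∈ Icc 1 (y + h), |Ws F h0 ((v : ℤ) + κ)| + y * (2 * h0 ^ 2 * P) := by
  have h1 : ∀ u ∈ Icc 1 y, (h0 : ℝ) * |Ws F h ((u : ℤ) + κ)| ≤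
      ∑ t ∈ Icc 1 h, |Ws F h0 (((u + t : ℕ) : ℤ) + κ)| + 2 * h0 ^ 2 * P := by
    intro u hu
    rw [mem_Icc] at hu
    have hκ := abs_le.1 (le_refl |κ|)
    have h2 := double F P hP0 h h0 ((u : ℤ) + κ) T (by
      have : |(u : ℤ) + κ| ≤ |κ| + y := by
        rw [abs_le]
        constructor <;> omega
      linarith) hP
    have h3 : |∑ t ∈ Icc 1 h, Ws F h0 ((t : ℤ) + ((u : ℤ) + κ))| ≤ ∑ t ∈ Icc 1 h, |Ws F h0 (((u + t : ℕ) : ℤ) + κ)| := by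
      refine (Finset.abs_sum_le_sum_abs _ _).trans (le_of_eq ?_)
      refine Finset.sum_congr rfl fun t _ => ?_
      congr 2
      push_cast
      ring
    have h4 : (h0 : ℝ) * |Ws F h ((u : ℤ) + κ)| = |(h0 : ℝ) * Ws F h ((u : ℤ) + κ)| := by
      rw [abs_mul, Nat.abs_cast]
    rw [h4]
    have h5 := abs_add_le (h0 * Ws F h ((u : ℤ) + κ) - ∑ t ∈ Icc 1 h, Ws F h0 ((t : ℤ) + ((u : ℤ) + κ)))
      (∑ t ∈ Icc 1 h, Ws F h0 ((t : ℤ) + ((u : ℤ) + κ)))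
    rw [sub_add_cancel] at h5
    linarith
  rw [Finset.mul_sum]
  refine (Finset.sum_le_sum h1).trans ?_
  rw [Finset.sum_add_distrib, Finset.sum_const, Nat.card_Icc, Nat.add_sub_cancel, nsmul_eq_mul]
  have h2 := Pr.win_le (fun v => |Ws F h0 ((v : ℤ) + κ)|) (fun _ => abs_nonneg _) y h
  linarith

lemma neg_win (F : ℤ → ℝ) (h0 : ℕ) (u : ℤ) : Ws (fun v => F (-v)) h0 u = Ws F h0 (-u - h0 - 1) := by
  unfold Ws
  refine Finset.sum_nbij' (fun t => h0 + 1 - t) (fun t => h0 + 1 - t) ?_ ?_ ?_ ?_ ?_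
  · intro t ht; rw [mem_Icc] at ht ⊢; omega
  · intro t ht; rw [mem_Icc] at ht ⊢; omega
  · intro t ht; rw [mem_Icc] at ht; omega
  · intro t ht; rw [mem_Icc] at ht; omega
  · intro t ht
    rw [mem_Icc] at ht
    have e : -((t : ℤ) + u) = ((h0 + 1 - t : ℕ) : ℤ) + (-u - h0 - 1) := by omega
    change F (-((t : ℤ) + u)) = _
    rw [e]

lemma sym (F : ℤ → ℝ) (P : ℝ) (h0 Y : ℕ) (T : ℤ) (hT : (2 * h0 : ℤ) + 1 ≤ T)
    (hP : ∀ v, |v| ≤ T → |F v| ≤ P) :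
    ∑ x ∈ Icc (-(Y : ℤ)) Y, |Ws F h0 x| ≤ ∑ u ∈ Icc 1 Y, |Ws F h0 (u : ℤ)| +
      ∑ u ∈ Icc 1 Y, |Ws (fun v => F (-v)) h0 (u : ℤ)| + (h0 + 2) * (h0 * P) := by
  have hsub : Icc (-(Y : ℤ)) Y ⊆ ((Icc 1 Y).image (fun u : ℕ => (u : ℤ)) ∪
      (Icc 1 Y).image (fun u : ℕ => -(u : ℤ) - h0 - 1)) ∪ Icc (-(h0 : ℤ) - 1) 0 := by
    intro x hx
    rw [mem_Icc] at hx
    rw [mem_union, mem_union, mem_image, mem_image, mem_Icc]
    by_cases h1 : 1 ≤ x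
    · left; left
      exact ⟨x.toNat, by rw [mem_Icc]; omega, by omega⟩
    · by_cases h2 : x ≤ -h0 - 2
      · left; right
        exact ⟨(-x - h0 - 1).toNat, by rw [mem_Icc]; omega, by omega⟩
      · right
        omega
  have hun : ∀ (S T : Finset ℤ), ∑ v ∈ S ∪ T, |Ws F h0 v| ≤ ∑ v ∈ S, |Ws F h0 v| + ∑ v ∈ T, |Ws F h0 v| := by
    intro S T
    have := Finset.sum_union_inter (s₁ := S) (s₂ := T) (f := fun v : ℤ => |Ws F h0 v|)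
    have h3 : 0 ≤ ∑ v ∈ S ∩ T, |Ws F h0 v| := Finset.sum_nonneg fun _ _ => abs_nonneg _
    linarith
  refine (Finset.sum_le_sum_of_subset_of_nonneg hsub (fun _ _ _ => abs_nonneg _)).trans ?_
  refine (hun _ _).trans ?_
  have h1 := hun ((Icc 1 Y).image (fun u : ℕ => (u : ℤ))) ((Icc 1 Y).image (fun u : ℕ => -(u : ℤ) - h0 - 1))
  have e1 : ∑ v ∈ (Icc 1 Y).image (fun u : ℕ => (u : ℤ)), |Ws F h0 v| = ∑ u ∈ Icc 1 Y, |Ws F h0 (u : ℤ)| := by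
    rw [Finset.sum_image (fun x _ y _ hxy => by exact_mod_cast hxy)]
  have e2 : ∑ v ∈ (Icc 1 Y).image (fun u : ℕ => -(u : ℤ) - h0 - 1), |Ws F h0 v| =
      ∑ u ∈ Icc 1 Y, |Ws (fun v => F (-v)) h0 (u : ℤ)| := by
    rw [Finset.sum_image (fun x _ y _ hxy => by omega)]
    refine Finset.sum_congr rfl fun u _ => ?_
    rw [neg_win]
  have h2 : ∑ v ∈ Icc (-(h0 : ℤ) - 1) 0, |Ws F h0 v| ≤ (h0 + 2) * (h0 * P) := by
    have h3 : ∀ v ∈ Icc (-(h0 : ℤ) - 1) 0, |Ws F h0 v| ≤ h0 * P := by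
      intro v hv
      rw [mem_Icc] at hv
      apply Ws_bd
      intro t ht
      rw [mem_Icc] at ht
      apply hP
      rw [abs_le]
      constructor <;> omega
    refine (Finset.sum_le_card_nsmul _ _ _ h3).trans ?_
    rw [Int.card_Icc, nsmul_eq_mul]
    have e3 : ((0 : ℤ) + 1 - (-(h0 : ℤ) - 1)).toNat = h0 + 2 := by omega
    rw [e3]
    push_cast
    exact le_rfl
  rw [e1, e2] at h1
  linarith

theorem all (F : ℤ → ℝ) (P : ℝ) (hP0 : 0 ≤ P) (h h0 y Y : ℕ) (κ : ℤ) (T : ℤ) (hx : (Y : ℤ) + h0 ≤ T)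
    (hκ : |κ| + y + h ≤ Y) (hh : h0 < h) (hP : ∀ v, |v| ≤ T → |F v| ≤ P) (R : ℝ)
    (h1 : ∑ u ∈ Icc 1 Y, |Ws F h0 (u : ℤ)| ≤ R) (h2 : ∑ u ∈ Icc 1 Y, |Ws (fun v => F (-v)) h0 (u : ℤ)| ≤ R) :
    h0 * ∑ u ∈ Icc 1 y, |Ws F h ((u : ℤ) + κ)| ≤ h * (2 * R + (h0 + 2) * (h0 * P)) + y * (2 * h0 ^ 2 * P) := by
  have hκ0 := abs_le.1 (le_refl |κ|)
  have ha := avg F P hP0 h h0 y κ T (by omega) hP
  have hs := sym F P h0 Y T (by
    have := abs_nonneg κ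
    omega) hP
  have h3 : ∑ v ∈ Icc 1 (y + h), |Ws F h0 ((v : ℤ) + κ)| ≤ ∑ x ∈ Icc (-(Y : ℤ)) Y, |Ws F h0 x| := by
    have e1 : ∑ v ∈ Icc 1 (y + h), |Ws F h0 ((v : ℤ) + κ)| =
        ∑ x ∈ (Icc 1 (y + h)).image (fun v : ℕ => (v : ℤ) + κ), |Ws F h0 x| := by
      rw [Finset.sum_image (fun x _ y _ hxy => by omega)]
    rw [e1]
    apply Finset.sum_le_sum_of_subset_of_nonneg
    · intro x hx
      rw [mem_image] at hx
      obtain ⟨v, hv, rfl⟩ := hx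
      rw [mem_Icc] at hv ⊢
      omega
    · intro x _ _
      exact abs_nonneg _
  have hh0 : (0 : ℝ) ≤ h := Nat.cast_nonneg _
  have h4 : (h : ℝ) * ∑ v ∈ Icc 1 (y + h), |Ws F h0 ((v : ℤ) + κ)| ≤ h * (2 * R + (h0 + 2) * (h0 * P)) := by
    apply mul_le_mul_of_nonneg_left _ hh0
    linarith
  linarith

end Pool.Agent.H79.W.Avg
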