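import Pool.Agent.H79.Q.Core

/-!
From window sums with logarithmic weights to the numbers of primes in windows, for one polynomial.
-/

set_option autoImplicit false

namespace Pool.Agent.H79.W.Cn

open Finset
open Pool.Agent.H79.Q.Th (tp)
open Pool.Agent.H79.Q.Core (tp_nonneg)

/-- the number of the `u < m ≤ u + h` for which `|a m² + b m + c|` is prime -/
noncomputable def windowCount (a b c : ℤ) (u h : ℕ) : ℝ :=
  (#((Ioc u (u + h)).filter (fun m : ℕ => (a * (m : ℤ) ^ 2 + b * m + c).natAbs.Prime)) : ℝ)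

/-- the value -/
def fv (a b c : ℤ) (m : ℤ) : ℤ := a * m ^ 2 + b * m + c

lemma wc_eq (a b c : ℤ) (u h : ℕ) :
    windowCount a b c u h = ∑ t ∈ Icc 1 h, if (fv a b c ((u : ℤ) + t)).natAbs.Prime then (1 : ℝ) else 0 := by
  unfold windowCount
  rw [Finset.card_filter]
  push_cast
  symm
  refine Finset.sum_nbij' (fun t => u + t) (fun m => m - u) ?_ ?_ ?_ ?_ ?_
  · intro t ht; rw [mem_Icc] at ht; rw [mem_Ioc]; omega
  · intro m hm; rw [mem_Ioc] at hm; rw [mem_Icc]; omega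
  · intro t _; omega
  · intro m hm; rw [mem_Ioc] at hm; omega
  · intro t _
    unfold fv
    push_cast
    rfl

lemma logs (x y η : ℝ) (hη : η ≤ 1 / 2) (hy : y ≠ 0) (hxy : |x - y| ≤ η * |y|) :
    |Real.log (|x|) - Real.log (|y|)| ≤ 2 * η := by
  have hy0 : 0 < |y| := abs_pos.2 hy
  have hη0 : 0 ≤ η := by
    by_contra h
    push Not at h
    have h1 := abs_nonneg (x - y)
    nlinarith
  have h1 : |(|x| - |y|)| ≤ η * |y| := (abs_abs_sub_abs_le x y).trans hxy
  have h2 := abs_le.1 h1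
  have hx0 : 0 < |x| := by nlinarith [h2.1]
  rw [← Real.log_div hx0.ne' hy0.ne']
  obtain ⟨q, hq⟩ : ∃ q : ℝ, q = |x| / |y| := ⟨_, rfl⟩
  rw [← hq]
  have hq1 : q ≤ 1 + η := by
    rw [hq, div_le_iff₀ hy0]
    linarith [h2.2]
  have hq2 : 1 - η ≤ q := by
    rw [hq, le_div_iff₀ hy0]
    linarith [h2.1]
  have hq0 : 0 < q := by linarith
  have h3 := Real.log_le_sub_one_of_pos hq0
  have h4 := Real.one_sub_inv_le_log_of_pos hq0
  rw [abs_le]
  constructor
  · have h5 : q⁻¹ ≤ 1 + 2 * η := by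
      rw [inv_le_comm₀ hq0 (by linarith)]
      refine le_trans ?_ hq2
      rw [inv_le_iff_one_le_mul₀ (by linarith)]
      nlinarith
    linarith
  · linarith

lemma tp_eq (v : ℤ) : tp v = (if v.natAbs.Prime then (1 : ℝ) else 0) * Real.log |(v : ℝ)| := by
  unfold tp
  have h3 : |(v : ℝ)| = ((v.natAbs : ℕ) : ℝ) := by
    rw [Nat.cast_natAbs, Int.cast_abs]
  rw [h3]
  split_ifs
  · rw [one_mul]
  · rw [zero_mul]

/-- one window -/
theorem one_window (a b c : ℤ) (u h : ℕ) (G M W η θ κ : ℝ) (hη0 : 0 ≤ η) (hη : η ≤ 1 / 2) (hG : 0 ≤ G) (hM : 0 ≤ M)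
    (hW : W = ∑ t ∈ Icc 1 h, (tp (fv a b c ((u : ℤ) + t)) - G)) (h8 : 8 ≤ |(fv a b c u : ℝ)|)
    (hf : ∀ t ∈ Icc 1 h, |(fv a b c ((u : ℤ) + t) : ℝ) - fv a b c u| ≤ η * |(fv a b c u : ℝ)|)
    (hθ : |W| ≤ θ * (h * G)) (hθn : 0 ≤ θ) (hθ1 : θ ≤ 1) (hκ : |G - M| ≤ κ * M) (hκ1 : κ ≤ 1) :
    |windowCount a b c u h - M * h / Real.log (|(fv a b c u : ℝ)|)| ≤
      M * h / Real.log (|(fv a b c u : ℝ)|) * (2 * θ + 8 * η + κ) := by
  obtain ⟨ℓ, hℓ⟩ : ∃ ℓ : ℝ, ℓ = Real.log (|(fv a b c u : ℝ)|) := ⟨_, rfl⟩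
  obtain ⟨P, hP⟩ : ∃ P : ℝ, P = windowCount a b c u h := ⟨_, rfl⟩
  rw [← hℓ, ← hP]
  have hP0 : 0 ≤ P := by rw [hP]; exact Nat.cast_nonneg _
  have hne : (fv a b c u : ℝ) ≠ 0 := by
    intro h0
    rw [h0, abs_zero] at h8
    linarith
  have hℓ2 : 2 ≤ ℓ := by
    have h1 : Real.log 8 ≤ ℓ := by rw [hℓ]; exact Real.log_le_log (by norm_num) h8
    have h2 : Real.log 8 = 3 * Real.log 2 := by
      rw [show (8 : ℝ) = 2 ^ 3 by norm_num, Real.log_pow]
      push_cast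
      ring
    have h3 := Real.log_two_gt_d9
    linarith
  have h1 : |P * ℓ - (W + h * G)| ≤ 2 * η * P := by
    have e1 : W + h * G = ∑ t ∈ Icc 1 h, tp (fv a b c ((u : ℤ) + t)) := by
      rw [hW, Finset.sum_sub_distrib, Finset.sum_const, Nat.card_Icc, Nat.add_sub_cancel, nsmul_eq_mul]
      ring
    rw [e1, hP, wc_eq, Finset.sum_mul, ← Finset.sum_sub_distrib, Finset.mul_sum]
    refine (Finset.abs_sum_le_sum_abs _ _).trans (Finset.sum_le_sum fun t ht => ?_)
    rw [tp_eq, ← mul_sub]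
    have h2 := logs _ _ η hη hne (hf t ht)
    rw [← hℓ, abs_sub_comm] at h2
    split_ifs
    · rw [one_mul, mul_one]
      exact h2
    · rw [zero_mul, abs_zero, mul_zero]
  have hh0 : (0 : ℝ) ≤ h := Nat.cast_nonneg _
  have hhG : 0 ≤ (h : ℝ) * G := by positivity
  have hW' := abs_le.1 hθ
  have h1' := abs_le.1 h1
  have hP2 : P ≤ 2 * (h * G) := by
    have h2 : P * ℓ ≤ W + h * G + 2 * η * P := by linarith [h1'.2]
    have h3 : W ≤ h * G := by
      have : θ * (h * G) ≤ 1 * (h * G) := mul_le_mul_of_nonneg_right hθ1 hhG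
      linarith [hW'.2]
    have h4 : 2 * η * P ≤ 1 * P := mul_le_mul_of_nonneg_right (by linarith) hP0
    have h5 : 2 * P ≤ P * ℓ := by nlinarith
    linarith
  have h2 : |P * ℓ - h * G| ≤ θ * (h * G) + 4 * η * (h * G) := by
    have h3 : 2 * η * P ≤ 2 * η * (2 * (h * G)) := mul_le_mul_of_nonneg_left hP2 (by linarith)
    rw [abs_le]
    constructor <;> linarith [h1'.1, h1'.2, hW'.1, hW'.2]
  have hκ' := abs_le.1 hκ
  have hGM : G ≤ 2 * M := by
    have : κ * M ≤ 1 * M := mul_le_mul_of_nonneg_right hκ1 hM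
    linarith [hκ'.2]
  have hhGM : (h : ℝ) * G ≤ 2 * (h * M) := by
    have := mul_le_mul_of_nonneg_left hGM hh0
    linarith
  have h3 : |P * ℓ - M * h| ≤ M * h * (2 * θ + 8 * η + κ) := by
    have h4 : |h * G - M * h| ≤ M * h * κ := by
      have e1 : (h : ℝ) * G - M * h = h * (G - M) := by ring
      rw [e1, abs_mul, abs_of_nonneg hh0]
      calc (h : ℝ) * |G - M| ≤ h * (κ * M) := mul_le_mul_of_nonneg_left hκ hh0
        _ = M * h * κ := by ring
    have h5 : θ * (h * G) + 4 * η * (h * G) ≤ (θ + 4 * η) * (2 * (h * M)) := by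
      have := mul_le_mul_of_nonneg_left hhGM (show 0 ≤ θ + 4 * η by linarith)
      linarith
    have h6 := abs_sub_le (P * ℓ) (h * G) (M * h)
    calc |P * ℓ - M * h| ≤ (θ + 4 * η) * (2 * (h * M)) + M * h * κ := by linarith
      _ = M * h * (2 * θ + 8 * η + κ) := by ring
  have hℓ0 : 0 < ℓ := by linarith
  have e2 : P - M * h / ℓ = (P * ℓ - M * h) / ℓ := by field_simp
  rw [e2, abs_div, abs_of_pos hℓ0, div_mul_eq_mul_div]
  exact div_le_div_of_nonneg_right h3 hℓ0.le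

/-- a set of small diameter -/
lemma card_diam (S : Finset ℕ) (ρ : ℝ) (hρ : 0 ≤ ρ) (h : ∀ x ∈ S, ∀ y ∈ S, (y : ℝ) - x ≤ ρ) : (S.card : ℝ) ≤ ρ + 1 := by
  rcases S.eq_empty_or_nonempty with h0 | h0
  · rw [h0, card_empty, Nat.cast_zero]
    linarith
  · have h1 := h (S.min' h0) (S.min'_mem h0) (S.max' h0) (S.max'_mem h0)
    have h2 : S ⊆ Icc (S.min' h0) (S.max' h0) := by
      intro x hx
      rw [mem_Icc]
      exact ⟨S.min'_le x hx, S.le_max' x hx⟩
    have h3 := card_le_card h2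
    rw [Nat.card_Icc] at h3
    have h4 : S.min' h0 ≤ S.max' h0 := S.min'_le _ (S.max'_mem h0)
    have h5 : ((S.max' h0 + 1 - S.min' h0 : ℕ) : ℝ) = (S.max' h0 : ℝ) + 1 - S.min' h0 := by
      rw [Nat.cast_sub (by omega)]
      push_cast
      ring
    have h6 : (S.card : ℝ) ≤ ((S.max' h0 + 1 - S.min' h0 : ℕ) : ℝ) := by exact_mod_cast h3
    rw [h5] at h6
    linarith

/-- the derivative -/
noncomputable def sv (a b : ℤ) (u : ℕ) : ℝ := 2 * a * u + b

lemma four_fv (a b c : ℤ) (u : ℕ) : 4 * (a : ℝ) * (fv a b c u : ℝ) = sv a b u ^ 2 - ((b ^ 2 - 4 * a * c : ℤ) : ℝ) := by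
  unfold fv sv
  push_cast
  ring

/-- away from the zeros the polynomial is nearly constant on windows -/
theorem away (a b c : ℤ) (ha : 1 ≤ a) (u h : ℕ) (hh : 1 ≤ h) (r η R : ℝ) (hη0 : 0 < η) (hη1 : η ≤ 1) (hr8 : 8 ≤ r)
    (hr : r ^ 2 = |((b ^ 2 - 4 * a * c : ℤ) : ℝ)|) (hR : R = 4 * a * h / η) (hRr : 2 * R ≤ r)
    (hu1 : R ≤ |sv a b u - r|) (hu2 : R ≤ |sv a b u + r|) :
    8 ≤ |(fv a b c u : ℝ)| ∧
      ∀ t ∈ Icc 1 h, |(fv a b c ((u : ℤ) + t) : ℝ) - fv a b c u| ≤ η * |(fv a b c u : ℝ)| := by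
  have haR : (1 : ℝ) ≤ a := by exact_mod_cast ha
  have hhR : (1 : ℝ) ≤ h := by exact_mod_cast hh
  obtain ⟨s, hs⟩ : ∃ s : ℝ, s = sv a b u := ⟨_, rfl⟩
  rw [← hs] at hu1 hu2
  have h4 := four_fv a b c u
  rw [← hs] at h4
  obtain ⟨D, hD⟩ : ∃ D : ℝ, D = ((b ^ 2 - 4 * a * c : ℤ) : ℝ) := ⟨_, rfl⟩
  rw [← hD] at h4 hr
  have hah : (a : ℝ) * h ≤ R * η / 4 := by
    rw [hR]
    field_simp
    exact le_refl _
  have hah2 : (a : ℝ) * h * 4 = R * η := by
    rw [hR]
    field_simp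
  have hR0 : 0 < R := by rw [hR]; positivity
  have hahr : (a : ℝ) * h ≤ r := by
    have : R * η ≤ R * 1 := mul_le_mul_of_nonneg_left hη1 hR0.le
    linarith
  have hs0 := abs_nonneg s
  -- the key inequality
  have key : R * (|s| + r) ≤ |s ^ 2 - D| := by
    rcases le_or_gt 0 D with hD0 | hD0
    · rw [abs_of_nonneg hD0] at hr
      rw [← hr]
      have e1 : s ^ 2 - r ^ 2 = (s - r) * (s + r) := by ring
      rw [e1, abs_mul]
      rcases le_or_gt 0 s with hs1 | hs1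
      · have h5 : |s + r| = |s| + r := by rw [abs_of_nonneg (by linarith), abs_of_nonneg hs1]
        rw [h5]
        exact mul_le_mul_of_nonneg_right hu1 (by linarith)
      · have h5 : |s - r| = |s| + r := by rw [abs_of_neg (by linarith), abs_of_neg hs1]; ring
        rw [h5, mul_comm]
        exact mul_le_mul_of_nonneg_left hu2 (by linarith)
    · rw [abs_of_neg hD0] at hr
      have e1 : s ^ 2 - D = |s| ^ 2 + r ^ 2 := by rw [sq_abs]; linarith
      rw [e1, abs_of_nonneg (by positivity : (0 : ℝ) ≤ |s| ^ 2 + r ^ 2)]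
      have h5 : R * (|s| + r) ≤ r / 2 * (|s| + r) := mul_le_mul_of_nonneg_right (by linarith) (by linarith)
      nlinarith [sq_nonneg (|s| - r / 4)]
  have h5 : 4 * (a : ℝ) * |(fv a b c u : ℝ)| = |s ^ 2 - D| := by
    rw [← h4, abs_mul, abs_of_pos (by linarith : (0 : ℝ) < 4 * a)]
  constructor
  · have h6 : R * r ≤ R * (|s| + r) := mul_le_mul_of_nonneg_left (by linarith) hR0.le
    have h7 : 4 * (a : ℝ) * h ≤ R := by
      rw [hR, le_div_iff₀ hη0]
      have : 0 ≤ 4 * (a : ℝ) * h := by positivity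
      nlinarith
    have h8 : 4 * (a : ℝ) * 8 ≤ 4 * a * |(fv a b c u : ℝ)| := by
      rw [h5]
      refine le_trans ?_ (h6.trans key)
      calc 4 * (a : ℝ) * 8 = 4 * a * 1 * 8 := by ring
        _ ≤ R * r := by
          apply mul_le_mul _ hr8 (by norm_num) hR0.le
          refine le_trans ?_ h7
          apply mul_le_mul_of_nonneg_left hhR (by linarith)
    exact le_of_mul_le_mul_left h8 (by linarith)
  · intro t ht
    rw [mem_Icc] at ht
    have ht1 : (t : ℝ) ≤ h := by exact_mod_cast ht.2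
    have ht0 : (0 : ℝ) ≤ t := Nat.cast_nonneg _
    have e1 : (fv a b c ((u : ℤ) + t) : ℝ) - fv a b c u = t * (s + a * t) := by
      rw [hs]
      unfold fv sv
      push_cast
      ring
    rw [e1, abs_mul, abs_of_nonneg ht0]
    have h6 : |s + a * t| ≤ |s| + a * h := by
      refine (abs_add_le _ _).trans ?_
      rw [abs_of_nonneg (by positivity : (0 : ℝ) ≤ a * t)]
      have := mul_le_mul_of_nonneg_left ht1 (show (0 : ℝ) ≤ a by linarith)
      linarith
    have h7 : 4 * (a : ℝ) * (t * |s + a * t|) ≤ 4 * a * (η * |(fv a b c u : ℝ)|) := by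
      calc 4 * (a : ℝ) * (t * |s + a * t|) ≤ 4 * a * (h * (|s| + a * h)) := by
            apply mul_le_mul_of_nonneg_left _ (by linarith)
            exact mul_le_mul ht1 h6 (abs_nonneg _) (by linarith)
        _ = (a * h * 4) * (|s| + a * h) := by ring
        _ ≤ (R * η) * (|s| + r) := by
            rw [hah2]
            apply mul_le_mul_of_nonneg_left _ (by positivity)
            linarith
        _ = η * (R * (|s| + r)) := by ring
        _ ≤ η * |s ^ 2 - D| := mul_le_mul_of_nonneg_left key hη0.le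
        _ = 4 * a * (η * |(fv a b c u : ℝ)|) := by rw [← h5]; ring
    exact le_of_mul_le_mul_left h7 (by linarith)

/-- few arguments are close to a zero -/
theorem few (a b : ℤ) (ha : 1 ≤ a) (y : ℕ) (ρ R : ℝ) (hR : 0 ≤ R) :
    (((Icc 1 y).filter (fun u : ℕ => |sv a b u - ρ| < R)).card : ℝ) ≤ R / a + 1 := by
  have haR : (1 : ℝ) ≤ a := by exact_mod_cast ha
  apply card_diam _ _ (by positivity)
  intro x hx w hw
  rw [mem_filter] at hx hw
  have h1 := abs_lt.1 hx.2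
  have h2 := abs_lt.1 hw.2
  unfold sv at h1 h2
  rw [le_div_iff₀ (by linarith)]
  nlinarith [h1.1, h1.2, h2.1, h2.2]

end Pool.Agent.H79.W.Cn
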