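import Pool.Agent.H79.Q.En

/-!
Pairs of arguments in two windows with congruent values.
-/

set_option autoImplicit false

namespace Pool.Agent.H79.W.Cnt

open Finset
open Pool.Agent.H79.Q.En (qv)

lemma res_count (u h d r : ℕ) (hd : 1 ≤ d) (hr : r < d) :
    |((((Ioc u (u + h)).filter (fun m => m % d = r)).card : ℕ) : ℝ) - (h : ℝ) / d| ≤ 1 := by
  have h1 := Nat.Ioc_filter_modEq_card u (u + h) (r := d) (by omega) r
  have e1 : (Ioc u (u + h)).filter (fun m => m % d = r) = (Ioc u (u + h)).filter (fun m => m ≡ r [MOD d]) := by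
    apply Finset.filter_congr
    intro m _
    unfold Nat.ModEq
    rw [Nat.mod_eq_of_lt hr]
  rw [e1]
  obtain ⟨n, hn⟩ : ∃ n : ℕ, n = ((Ioc u (u + h)).filter (fun m => m ≡ r [MOD d])).card := ⟨_, rfl⟩
  rw [← hn] at h1 ⊢
  have hdq : (0 : ℚ) < d := by exact_mod_cast hd
  obtain ⟨s, hs⟩ : ∃ s : ℚ, s = (((u + h : ℕ) : ℚ) - r) / d := ⟨_, rfl⟩
  obtain ⟨t, ht⟩ : ∃ t : ℚ, t = ((u : ℚ) - r) / d := ⟨_, rfl⟩
  have e2 : s - t = (h : ℚ) / d := by
    rw [hs, ht]
    push_cast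
    field_simp
    ring
  have h2 : ((n : ℕ) : ℤ) = max (⌊s⌋ - ⌊t⌋) 0 := by
    rw [h1, hs, ht]
  have h3 := Int.floor_le s
  have h4 := Int.lt_floor_add_one s
  have h5 := Int.floor_le t
  have h6 := Int.lt_floor_add_one t
  have h7 : (0 : ℚ) ≤ (h : ℚ) / d := by positivity
  have h8 : 0 ≤ ⌊s⌋ - ⌊t⌋ := by
    have : t ≤ s := by linarith
    have := Int.floor_le_floor this
    omega
  rw [max_eq_left h8] at h2
  have h9 : |((n : ℕ) : ℚ) - (h : ℚ) / d| ≤ 1 := by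
    have h10 : ((n : ℕ) : ℚ) = (⌊s⌋ : ℚ) - ⌊t⌋ := by exact_mod_cast h2
    rw [h10, ← e2, abs_le]
    constructor <;> linarith
  have h10 : ((|((n : ℕ) : ℚ) - (h : ℚ) / d| : ℚ) : ℝ) ≤ ((1 : ℚ) : ℝ) := by exact_mod_cast h9
  push_cast at h10
  exact h10

lemma fib (I : Finset ℕ) (d : ℕ) (hd : 1 ≤ d) (φ : ℕ → ℝ) :
    ∑ m ∈ I, φ (m % d) = ∑ r ∈ range d, ((((I.filter (fun m => m % d = r)).card : ℕ) : ℝ) * φ r) := by
  have hmap : ∀ m ∈ I, m % d ∈ range d := fun m _ => mem_range.2 (Nat.mod_lt _ (by omega))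
  rw [← Finset.sum_fiberwise_of_maps_to hmap]
  refine Finset.sum_congr rfl fun r _ => ?_
  rw [← nsmul_eq_mul, ← Finset.sum_const]
  refine Finset.sum_congr rfl fun m hm => ?_
  rw [(mem_filter.1 hm).2]

/-- the density of the pairs -/
noncomputable def nu (φ : ℕ → ℕ → ℝ) (d : ℕ) : ℝ := (∑ r ∈ range d, ∑ r' ∈ range d, φ r r') / (d : ℝ) ^ 2

theorem pair_count (φ : ℕ → ℕ → ℝ) (d : ℕ) (hd : 1 ≤ d) (h0 : ∀ r r', 0 ≤ φ r r') (h1 : ∀ r r', φ r r' ≤ 1)
    (hper : ∀ m m', φ m m' = φ (m % d) (m' % d)) (u u' h : ℕ) (hdh : d ≤ h) :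
    |∑ m ∈ Ioc u (u + h), ∑ m' ∈ Ioc u' (u' + h), φ m m' - (h : ℝ) ^ 2 * nu φ d| ≤ 3 * h * d := by
  have hd0 : (0 : ℝ) < d := by exact_mod_cast hd
  obtain ⟨n, hn⟩ : ∃ n : ℕ → ℝ, n = fun r => ((((Ioc u (u + h)).filter (fun m => m % d = r)).card : ℕ) : ℝ) := ⟨_, rfl⟩
  obtain ⟨n', hn'⟩ : ∃ n' : ℕ → ℝ, n' = fun r => ((((Ioc u' (u' + h)).filter (fun m => m % d = r)).card : ℕ) : ℝ) := ⟨_, rfl⟩
  have e1 : ∑ m ∈ Ioc u (u + h), ∑ m' ∈ Ioc u' (u' + h), φ m m' =
      ∑ r ∈ range d, ∑ r' ∈ range d, n r * n' r' * φ r r' := by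
    have e2 : ∀ m ∈ Ioc u (u + h), ∑ m' ∈ Ioc u' (u' + h), φ m m' = ∑ r' ∈ range d, n' r' * φ (m % d) r' := by
      intro m _
      rw [hn', ← fib (Ioc u' (u' + h)) d hd (fun r' => φ (m % d) r')]
      exact Finset.sum_congr rfl fun m' _ => hper m m'
    rw [Finset.sum_congr rfl e2, fib (Ioc u (u + h)) d hd (fun r => ∑ r' ∈ range d, n' r' * φ r r')]
    refine Finset.sum_congr rfl fun r _ => ?_
    rw [Finset.mul_sum]
    refine Finset.sum_congr rfl fun r' _ => ?_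
    rw [hn]
    ring
  have e3 : (h : ℝ) ^ 2 * nu φ d = ∑ r ∈ range d, ∑ r' ∈ range d, ((h : ℝ) / d) * (h / d) * φ r r' := by
    unfold nu
    rw [mul_div_assoc', div_eq_iff (by positivity)]
    simp only [← Finset.mul_sum]
    field_simp
  rw [e1, e3, ← Finset.sum_sub_distrib]
  have h2 : ∀ r ∈ range d, |∑ r' ∈ range d, n r * n' r' * φ r r' - ∑ r' ∈ range d, ((h : ℝ) / d) * (h / d) * φ r r'| ≤
      d * (2 * (h / d) + 1) := by
    intro r hr
    rw [← Finset.sum_sub_distrib]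
    have h3 : ∀ r' ∈ range d, |n r * n' r' * φ r r' - ((h : ℝ) / d) * (h / d) * φ r r'| ≤ 2 * (h / d) + 1 := by
      intro r' hr'
      rw [mem_range] at hr hr'
      have h4 := res_count u h d r hd hr
      have h5 := res_count u' h d r' hd hr'
      have h6 : |n r - (h : ℝ) / d| ≤ 1 := by rw [hn]; exact h4
      have h7 : |n' r' - (h : ℝ) / d| ≤ 1 := by rw [hn']; exact h5
      rw [← sub_mul, abs_mul]
      have h8 : |φ r r'| ≤ 1 := by rw [abs_of_nonneg (h0 _ _)]; exact h1 _ _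
      obtain ⟨x, hx⟩ : ∃ x : ℝ, x = n r - (h : ℝ) / d := ⟨_, rfl⟩
      obtain ⟨y, hy⟩ : ∃ y : ℝ, y = n' r' - (h : ℝ) / d := ⟨_, rfl⟩
      have e4 : n r * n' r' - (h : ℝ) / d * (h / d) = x * y + (h / d) * x + (h / d) * y := by
        rw [hx, hy]; ring
      rw [← hx] at h6
      rw [← hy] at h7
      have hhd : (0 : ℝ) ≤ h / d := by positivity
      have h9 : |n r * n' r' - (h : ℝ) / d * (h / d)| ≤ 2 * (h / d) + 1 := by
        rw [e4]
        refine (abs_add_le _ _).trans ?_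
        have h10 := abs_add_le (x * y) ((h : ℝ) / d * x)
        have h11 : |x * y| ≤ 1 := by
          rw [abs_mul]
          exact mul_le_one₀ h6 (abs_nonneg _) h7
        have h12 : |(h : ℝ) / d * x| ≤ h / d := by
          rw [abs_mul, abs_of_nonneg hhd]
          exact mul_le_of_le_one_right hhd h6
        have h13 : |(h : ℝ) / d * y| ≤ h / d := by
          rw [abs_mul, abs_of_nonneg hhd]
          exact mul_le_of_le_one_right hhd h7
        linarith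
      calc |n r * n' r' - (h : ℝ) / d * (h / d)| * |φ r r'| ≤ (2 * (h / d) + 1) * 1 :=
            mul_le_mul h9 h8 (abs_nonneg _) (by positivity)
        _ = 2 * (h / d) + 1 := mul_one _
    refine (Finset.abs_sum_le_sum_abs _ _).trans ((Finset.sum_le_sum h3).trans ?_)
    rw [Finset.sum_const, card_range, nsmul_eq_mul]
  refine (Finset.abs_sum_le_sum_abs _ _).trans ((Finset.sum_le_sum h2).trans ?_)
  rw [Finset.sum_const, card_range, nsmul_eq_mul]
  have hdhR : (d : ℝ) ≤ h := by exact_mod_cast hdh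
  have e5 : (d : ℝ) * (d * (2 * (h / d) + 1)) = 2 * h * d + d * d := by field_simp
  rw [e5]
  nlinarith

/-- the values of the polynomial -/
lemma qv_per (a b : ℤ) (d : ℕ) (m m' : ℕ) :
    (((d : ℤ) ∣ qv a b m - qv a b m') ↔ ((d : ℤ) ∣ qv a b (m % d) - qv a b (m' % d))) := by
  have key : ∀ m : ℕ, (d : ℤ) ∣ qv a b m - qv a b (m % d) := by
    intro m
    have h1 : (d : ℤ) ∣ (m : ℤ) - ((m % d : ℕ) : ℤ) := by
      refine ⟨((m / d : ℕ) : ℤ), ?_⟩
      have := Nat.div_add_mod m d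
      have h2 : (m : ℤ) = d * ((m / d : ℕ) : ℤ) + ((m % d : ℕ) : ℤ) := by exact_mod_cast this.symm
      linarith
    have h2 : qv a b m - qv a b (m % d) = ((m : ℤ) - ((m % d : ℕ) : ℤ)) * (a * (m + ((m % d : ℕ) : ℤ)) + b) := by
      unfold qv
      ring
    rw [h2]
    exact Dvd.dvd.mul_right h1 _
  have h1 := key m
  have h2 := key m'
  constructor
  · intro h
    have e : qv a b (m % d) - qv a b (m' % d) = (qv a b m - qv a b m') - (qv a b m - qv a b (m % d)) +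
        (qv a b m' - qv a b (m' % d)) := by ring
    rw [e]
    exact dvd_add (dvd_sub h h1) h2
  · intro h
    have e : qv a b m - qv a b m' = (qv a b (m % d) - qv a b (m' % d)) + (qv a b m - qv a b (m % d)) -
        (qv a b m' - qv a b (m' % d)) := by ring
    rw [e]
    exact dvd_sub (dvd_add h h1) h2

end Pool.Agent.H79.W.Cnt
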