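import Pool.Agent.H79.Q.Key
import Pool.Agent.H79.W.Pr
import Pool.Graph.R_pool_sql_team_seeded_620a6dc7.helper24_UT_.Gal

/-!
Primes minus the sieve model in windows of arguments, for almost all constant terms.
-/

set_option autoImplicit false

namespace Pool.Agent.H79.W.Corr

open Finset
open Pool.Agent.helper24_UT
open Pool.Agent.H79.Q.En (qv tau tau_nonneg tau_mul)

/-- the autocorrelation -/
noncomputable def AC (f : ℤ → ℝ) (Z : ℕ) (k : ℤ) : ℝ := ∑ t ∈ Icc (-(Z : ℤ)) Z, f t * f (t + k)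

lemma AC_shift (f : ℤ → ℝ) (Z R : ℕ) (hf : ∀ m, f m ≠ 0 → |m| ≤ Z) (x y : ℤ) (hR : |x| + Z ≤ R) :
    ∑ c ∈ Icc (-(R : ℤ)) R, f (c + x) * f (c + y) = AC f Z (y - x) := by
  unfold AC
  have h := Gal.gal_move Z R f hf x hR (fun t => f t * f (t + (y - x))) (fun m hm => by simp [hm])
  rw [← h]
  refine Finset.sum_congr rfl fun c _ => ?_
  congr 2
  ring

lemma AC_neg (f : ℤ → ℝ) (Z : ℕ) (hf : ∀ m, f m ≠ 0 → |m| ≤ Z) (k : ℤ) : AC f Z (-k) = AC f Z k := by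
  have h1 := AC_shift f Z (k.natAbs + Z) hf 0 (-k) (by simp)
  have h2 := AC_shift f Z (k.natAbs + Z) hf (-k) 0 (by rw [abs_neg]; push_cast; rfl)
  have e1 : -k - 0 = -k := by ring
  have e2 : 0 - -k = k := by ring
  rw [e1] at h1
  rw [e2] at h2
  rw [← h1, ← h2]
  exact Finset.sum_congr rfl fun c _ => mul_comm _ _

/-- the mean square over the windows and the constant terms -/
theorem win_sq (f : ℤ → ℝ) (Z : ℕ) (hf : ∀ m, f m ≠ 0 → |m| ≤ Z) (q : ℕ → ℤ) (M Y h : ℕ) :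
    ∑ c ∈ Icc (-(M : ℤ)) M, ∑ u ∈ Icc 1 Y, (∑ t ∈ Icc 1 h, f (c + q (u + t))) ^ 2 ≤
      ∑ u ∈ Icc 1 Y, ∑ t ∈ Icc 1 h, ∑ t' ∈ Icc 1 h, |AC f Z (q (u + t') - q (u + t))| := by
  rw [Finset.sum_comm]
  refine Finset.sum_le_sum fun u _ => ?_
  obtain ⟨R, hR⟩ : ∃ R : ℕ, R = M + Z + ∑ t ∈ Icc 1 h, (q (u + t)).natAbs := ⟨_, rfl⟩
  have h1 : ∀ t ∈ Icc 1 h, |q (u + t)| + Z ≤ R := by
    intro t ht
    have h2 := Finset.single_le_sum (f := fun t => (q (u + t)).natAbs) (fun _ _ => Nat.zero_le _) ht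
    rw [Int.abs_eq_natAbs]
    omega
  have h2 : ∑ c ∈ Icc (-(M : ℤ)) M, (∑ t ∈ Icc 1 h, f (c + q (u + t))) ^ 2 ≤
      ∑ c ∈ Icc (-(R : ℤ)) R, (∑ t ∈ Icc 1 h, f (c + q (u + t))) ^ 2 := by
    apply Finset.sum_le_sum_of_subset_of_nonneg
    · apply Finset.Icc_subset_Icc <;> omega
    · intro c _ _
      exact sq_nonneg _
  refine h2.trans ?_
  have h3 : ∑ c ∈ Icc (-(R : ℤ)) R, (∑ t ∈ Icc 1 h, f (c + q (u + t))) ^ 2 =
      ∑ t ∈ Icc 1 h, ∑ t' ∈ Icc 1 h, ∑ c ∈ Icc (-(R : ℤ)) R, f (c + q (u + t)) * f (c + q (u + t')) := by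
    have e1 : ∀ c : ℤ, (∑ t ∈ Icc 1 h, f (c + q (u + t))) ^ 2 =
        ∑ t ∈ Icc 1 h, ∑ t' ∈ Icc 1 h, f (c + q (u + t)) * f (c + q (u + t')) := by
      intro c
      rw [sq, Finset.sum_mul_sum]
    rw [Finset.sum_congr rfl (fun c _ => e1 c), Finset.sum_comm]
    refine Finset.sum_congr rfl fun t _ => ?_
    rw [Finset.sum_comm]
  rw [h3]
  refine Finset.sum_le_sum fun t ht => Finset.sum_le_sum fun t' _ => ?_
  rw [AC_shift f Z R hf _ _ (h1 t ht)]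
  exact le_abs_self _

theorem wincor (f : ℤ → ℝ) (Z : ℕ) (hf : ∀ m, f m ≠ 0 → |m| ≤ Z) (a b : ℤ) (ha : 1 ≤ a) (hb : |b| ≤ 2 * a)
    (M Y h K0 : ℕ) (hK : (h : ℤ) * (a * (2 * (Y + h : ℕ) + h + 2)) ≤ K0) (S : ℝ)
    (hS : ∑ k ∈ Icc 1 K0, AC f Z (k : ℤ) ^ 2 ≤ S) :
    ∑ c ∈ Icc (-(M : ℤ)) M, ∑ u ∈ Icc 1 Y, (∑ t ∈ Icc 1 h, f (c + qv a b (u + t))) ^ 2 ≤
      Y * h * AC f Z 0 + 2 * h * √(K0 * (1 + Real.log K0) ^ 3 * S) := by
  refine (win_sq f Z hf (qv a b) M Y h).trans ?_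
  have h1 := Pr.pairs_le (fun x y => |AC f Z (qv a b y - qv a b x)|) (fun _ _ => abs_nonneg _) (fun x y => by
    rw [← AC_neg f Z hf, neg_sub]) Y h
  have h2 := Pr.cs a b ha hb (AC f Z) (Y + h) h K0 hK S hS
  have hAC0 : 0 ≤ AC f Z 0 := by
    unfold AC
    refine Finset.sum_nonneg fun t _ => ?_
    rw [add_zero]
    exact mul_self_nonneg _
  have h3 : ∑ u ∈ Icc 1 Y, ∑ t ∈ Icc 1 h, |AC f Z (qv a b (u + t) - qv a b (u + t))| = Y * h * AC f Z 0 := by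
    simp only [sub_self, Finset.sum_const, Nat.card_Icc, Nat.add_sub_cancel, nsmul_eq_mul]
    rw [abs_of_nonneg hAC0]
    ring
  rw [h3] at h1
  have h4 : (0 : ℝ) ≤ 2 * h := by positivity
  have h5 := mul_le_mul_of_nonneg_left h2 h4
  linarith

end Pool.Agent.H79.W.Corr
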