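import Pool.Agent.H79.Q.Core
import Pool.Agent.H79.W.Pr
import Pool.Agent.H79.W.Sg
import Pool.Agent.H79.W.Cnt

/-!
The variance of the sieve model in windows.
-/

set_option autoImplicit false

namespace Pool.Agent.H79.W.Mod

open Finset
open Pool.Agent.helper24_UT
open Pool.Agent.H373R2.T7 (Vz pz mem_pz Vz_pos Vz_inv_small ev_log' ev_L')
open Pool.Agent.H79.Q.En (qv tau tau_nonneg)
open Pool.Agent.H79.Q.Core (lz_bd)
open Pool.Agent.H79.W.Sg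
open Pool.Agent.H79.W.Cnt

/-- the sets with small products -/
def sm (z D : ℕ) : Finset (Finset ℕ) := (pz z).powerset.filter (fun T => ¬ D < dd T)

lemma mem_sm {z D : ℕ} {T : Finset ℕ} : T ∈ sm z D ↔ T ⊆ pz z ∧ dd T ≤ D := by
  unfold sm
  rw [mem_filter, mem_powerset, not_lt]

/-- the indicator of congruent values -/
noncomputable def ind (a b : ℤ) (T : Finset ℕ) (m m' : ℕ) : ℝ := if ((dd T : ℕ) : ℤ) ∣ qv a b m - qv a b m' then 1 else 0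

lemma ind_nonneg (a b : ℤ) (T : Finset ℕ) (m m' : ℕ) : 0 ≤ ind a b T m m' := by
  unfold ind; split_ifs <;> norm_num

lemma ind_le (a b : ℤ) (T : Finset ℕ) (m m' : ℕ) : ind a b T m m' ≤ 1 := by
  unfold ind; split_ifs <;> norm_num

lemma shift_sum (φ : ℕ → ℝ) (u h : ℕ) : ∑ t ∈ Icc 1 h, φ (u + t) = ∑ m ∈ Ioc u (u + h), φ m := by
  refine Finset.sum_nbij' (fun t => u + t) (fun m => m - u) ?_ ?_ ?_ ?_ ?_
  · intro t ht; rw [mem_Icc] at ht; rw [mem_Ioc]; omega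
  · intro m hm; rw [mem_Ioc] at hm; rw [mem_Icc]; omega
  · intro t _; omega
  · intro m hm; rw [mem_Ioc] at hm; omega
  · intro t _; rfl

lemma ind_count (a b : ℤ) (z : ℕ) (T : Finset ℕ) (hT : T ⊆ pz z) (u u' h : ℕ) (hh : dd T ≤ h) :
    |∑ t ∈ Icc 1 h, ∑ t' ∈ Icc 1 h, ind a b T (u + t) (u' + t') - (h : ℝ) ^ 2 * nu (ind a b T) (dd T)| ≤ 3 * h * dd T := by
  have h1 := pair_count (ind a b T) (dd T) (dd_pos z T hT) (ind_nonneg a b T) (ind_le a b T) (fun m m' => by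
    unfold ind
    simp only [qv_per a b (dd T) m m']) u u' h hh
  have h2 : ∑ t ∈ Icc 1 h, ∑ t' ∈ Icc 1 h, ind a b T (u + t) (u' + t') =
      ∑ m ∈ Ioc u (u + h), ∑ m' ∈ Ioc u' (u' + h), ind a b T m m' := by
    rw [← shift_sum (fun m => ∑ m' ∈ Ioc u' (u' + h), ind a b T m m') u h]
    refine Finset.sum_congr rfl fun t _ => ?_
    rw [← shift_sum (fun m' => ind a b T (u + t) m') u' h]
  rw [h2]
  exact h1

lemma small_weight (z D : ℕ) : ∑ T ∈ sm z D, Wt z T * (dd T : ℝ) ≤ (D : ℝ) ^ 3 := by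
  have h1 : ∀ T ∈ sm z D, Wt z T * (dd T : ℝ) ≤ (D : ℝ) ^ 2 := by
    intro T hT
    rw [mem_sm] at hT
    refine (Wt_le_small z T hT.1).trans ?_
    exact pow_le_pow_left₀ (Nat.cast_nonneg _) (by exact_mod_cast hT.2) 2
  refine (Finset.sum_le_card_nsmul _ _ _ h1).trans ?_
  rw [nsmul_eq_mul]
  have h2 : (sm z D).card ≤ (Icc 1 D).card := by
    apply Finset.card_le_card_of_injOn dd
    · intro T hT
      rw [Finset.mem_coe, mem_sm] at hT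
      rw [Finset.mem_coe, mem_Icc]
      exact ⟨dd_pos z T hT.1, hT.2⟩
    · intro T hT T' hT' he
      rw [Finset.mem_coe, mem_sm] at hT hT'
      have key : ∀ T : Finset ℕ, T ⊆ pz z → (dd T).primeFactors = T := by
        intro T hT
        unfold dd
        exact Nat.primeFactors_prod fun p hp => (mem_pz.1 (hT hp)).2
      rw [← key T hT.1, ← key T' hT'.1, he]
  rw [Nat.card_Icc, Nat.add_sub_cancel] at h2
  have h3 : ((sm z D).card : ℝ) ≤ D := by exact_mod_cast h2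
  calc ((sm z D).card : ℝ) * (D : ℝ) ^ 2 ≤ D * (D : ℝ) ^ 2 := mul_le_mul_of_nonneg_right h3 (sq_nonneg _)
    _ = (D : ℝ) ^ 3 := by ring

/-- the main term of both sums -/
noncomputable def mt (a b : ℤ) (z D h : ℕ) : ℝ := ∑ T ∈ sm z D, Wt z T * ((h : ℝ) ^ 2 * nu (ind a b T) (dd T))

lemma small_sum (a b : ℤ) (z D u u' h : ℕ) (hD : D ≤ h) :
    |∑ t ∈ Icc 1 h, ∑ t' ∈ Icc 1 h, ∑ T ∈ sm z D, Wt z T * ind a b T (u + t) (u' + t') - mt a b z D h| ≤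
      3 * h * (D : ℝ) ^ 3 := by
  have e1 : ∑ t ∈ Icc 1 h, ∑ t' ∈ Icc 1 h, ∑ T ∈ sm z D, Wt z T * ind a b T (u + t) (u' + t') =
      ∑ T ∈ sm z D, Wt z T * ∑ t ∈ Icc 1 h, ∑ t' ∈ Icc 1 h, ind a b T (u + t) (u' + t') := by
    simp only [Finset.mul_sum]
    rw [Finset.sum_congr rfl (fun t _ => Finset.sum_comm), Finset.sum_comm]
  rw [e1]
  unfold mt
  rw [← Finset.sum_sub_distrib]
  refine (Finset.abs_sum_le_sum_abs _ _).trans ?_
  have h1 : ∀ T ∈ sm z D, |Wt z T * ∑ t ∈ Icc 1 h, ∑ t' ∈ Icc 1 h, ind a b T (u + t) (u' + t') -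
      Wt z T * ((h : ℝ) ^ 2 * nu (ind a b T) (dd T))| ≤ 3 * h * (Wt z T * dd T) := by
    intro T hT
    rw [mem_sm] at hT
    rw [← mul_sub, abs_mul, abs_of_nonneg (Wt_nonneg z T)]
    have h2 := ind_count a b z T hT.1 u u' h (hT.2.trans hD)
    calc Wt z T * _ ≤ Wt z T * (3 * h * dd T) := mul_le_mul_of_nonneg_left h2 (Wt_nonneg z T)
      _ = 3 * h * (Wt z T * dd T) := by ring
  refine (Finset.sum_le_sum h1).trans ?_
  rw [← Finset.mul_sum]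
  exact mul_le_mul_of_nonneg_left (small_weight z D) (by positivity)

lemma Sz_split (a b : ℤ) (z D m m' : ℕ) : Sz z (qv a b m - qv a b m') =
    ∑ T ∈ (pz z).powerset.filter (fun T => D < dd T), Wt z T * (if ((dd T : ℕ) : ℤ) ∣ qv a b m - qv a b m' then 1 else 0) +
      ∑ T ∈ sm z D, Wt z T * ind a b T m m' := by
  rw [Sz_eq, ← Finset.sum_filter_add_sum_filter_not (pz z).powerset (fun T => D < dd T)]
  rfl

lemma far (a b : ℤ) (z D u u' h : ℕ) (hD : D ≤ h) :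
    mt a b z D h - 3 * h * (D : ℝ) ^ 3 ≤
      ∑ t ∈ Icc 1 h, ∑ t' ∈ Icc 1 h, Sz z (qv a b (u + t) - qv a b (u' + t')) := by
  have h1 := (abs_le.1 (small_sum a b z D u u' h hD)).1
  have h2 : ∑ t ∈ Icc 1 h, ∑ t' ∈ Icc 1 h, ∑ T ∈ sm z D, Wt z T * ind a b T (u + t) (u' + t') ≤
      ∑ t ∈ Icc 1 h, ∑ t' ∈ Icc 1 h, Sz z (qv a b (u + t) - qv a b (u' + t')) := by
    refine Finset.sum_le_sum fun t _ => Finset.sum_le_sum fun t' _ => ?_
    rw [Sz_split a b z D (u + t) (u' + t')]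
    have h3 : 0 ≤ ∑ T ∈ (pz z).powerset.filter (fun T => D < dd T),
        Wt z T * (if ((dd T : ℕ) : ℤ) ∣ qv a b (u + t) - qv a b (u' + t') then (1 : ℝ) else 0) := by
      apply Finset.sum_nonneg
      intro T _
      apply mul_nonneg (Wt_nonneg z T)
      split_ifs <;> norm_num
    linarith
  linarith

/-- the divisor function of the difference of two values, zero on the diagonal -/
noncomputable def gt (a b : ℤ) (x y : ℕ) : ℝ := if x = y then 0 else tau (qv a b x - qv a b y).natAbs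

lemma qv_ne (a b : ℤ) (ha : 1 ≤ a) (hb : |b| ≤ 2 * a) (x y : ℕ) (hx : 1 ≤ x) (hy : 1 ≤ y) (hxy : x ≠ y) :
    qv a b x - qv a b y ≠ 0 := by
  rcases lt_or_gt_of_ne hxy with h | h
  · have h1 := Pr.fac_pos a b ha hb x (y - x) hx (by omega)
    have h2 := Pr.qv_sub a b x (y - x)
    rw [show x + (y - x) = y by omega] at h2
    have h3 : 0 < ((y - x : ℕ) : ℤ) * (a * (2 * x + ((y - x : ℕ) : ℤ)) + b) := mul_pos (by omega) h1
    omega
  · have h1 := Pr.fac_pos a b ha hb y (x - y) hy (by omega)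
    have h2 := Pr.qv_sub a b y (x - y)
    rw [show y + (x - y) = x by omega] at h2
    have h3 : 0 < ((x - y : ℕ) : ℤ) * (a * (2 * y + ((x - y : ℕ) : ℤ)) + b) := mul_pos (by omega) h1
    omega

lemma near_one (a b : ℤ) (ha : 1 ≤ a) (hb : |b| ≤ 2 * a) (z D : ℕ) (hD : 1 ≤ D) (x y : ℕ) (hx : 1 ≤ x) (hy : 1 ≤ y) :
    Sz z (qv a b x - qv a b y) ≤ ∑ T ∈ sm z D, Wt z T * ind a b T x y + (if x = y then (Vz z)⁻¹ else 0) +
      3 ^ 16 / √(D : ℝ) * gt a b x y := by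
  have h0 : 0 ≤ ∑ T ∈ sm z D, Wt z T * ind a b T x y :=
    Finset.sum_nonneg fun T _ => mul_nonneg (Wt_nonneg z T) (ind_nonneg a b T x y)
  by_cases hxy : x = y
  · unfold gt
    rw [if_pos hxy, if_pos hxy, hxy, sub_self, Sz_zero]
    rw [hxy] at h0
    linarith
  · unfold gt
    rw [if_neg hxy, if_neg hxy, Sz_split a b z D x y]
    have h1 := tail z (qv a b x - qv a b y) (qv_ne a b ha hb x y hx hy hxy) D hD
    linarith

theorem near (a b : ℤ) (ha : 1 ≤ a) (hb : |b| ≤ 2 * a) (z D : ℕ) (hD : 1 ≤ D) (Y h W0 : ℕ) (hDh : D ≤ h)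
    (hW : a * (2 * (Y + h : ℕ) + h + 2) ≤ W0) :
    ∑ u ∈ Icc 1 Y, ∑ t ∈ Icc 1 h, ∑ t' ∈ Icc 1 h, Sz z (qv a b (u + t) - qv a b (u + t')) ≤
      Y * (mt a b z D h + 3 * h * (D : ℝ) ^ 3) + Y * h * (Vz z)⁻¹ +
        3 ^ 16 / √(D : ℝ) * (2 * h * ((h * (1 + Real.log h)) * (W0 * (1 + Real.log W0)))) := by
  have h1 : ∑ u ∈ Icc 1 Y, ∑ t ∈ Icc 1 h, ∑ t' ∈ Icc 1 h, Sz z (qv a b (u + t) - qv a b (u + t')) ≤
      ∑ u ∈ Icc 1 Y, ∑ t ∈ Icc 1 h, ∑ t' ∈ Icc 1 h, (∑ T ∈ sm z D, Wt z T * ind a b T (u + t) (u + t') +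
        (if u + t = u + t' then (Vz z)⁻¹ else 0) + 3 ^ 16 / √(D : ℝ) * gt a b (u + t) (u + t')) := by
    refine Finset.sum_le_sum fun u hu => Finset.sum_le_sum fun t _ => Finset.sum_le_sum fun t' _ => ?_
    rw [mem_Icc] at hu
    exact near_one a b ha hb z D hD (u + t) (u + t') (by omega) (by omega)
  refine h1.trans ?_
  simp only [Finset.sum_add_distrib]
  have h2 : ∑ u ∈ Icc 1 Y, ∑ t ∈ Icc 1 h, ∑ t' ∈ Icc 1 h, ∑ T ∈ sm z D, Wt z T * ind a b T (u + t) (u + t') ≤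
      Y * (mt a b z D h + 3 * h * (D : ℝ) ^ 3) := by
    have h3 : ∀ u ∈ Icc 1 Y, ∑ t ∈ Icc 1 h, ∑ t' ∈ Icc 1 h, ∑ T ∈ sm z D, Wt z T * ind a b T (u + t) (u + t') ≤
        mt a b z D h + 3 * h * (D : ℝ) ^ 3 := by
      intro u _
      have := (abs_le.1 (small_sum a b z D u u h hDh)).2
      linarith
    refine (Finset.sum_le_card_nsmul _ _ _ h3).trans ?_
    rw [Nat.card_Icc, Nat.add_sub_cancel, nsmul_eq_mul]
  have h3 : ∑ u ∈ Icc 1 Y, ∑ t ∈ Icc 1 h, ∑ t' ∈ Icc 1 h, (if u + t = u + t' then (Vz z)⁻¹ else 0) =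
      Y * h * (Vz z)⁻¹ := by
    have h4 : ∀ u ∈ Icc 1 Y, ∑ t ∈ Icc 1 h, ∑ t' ∈ Icc 1 h, (if u + t = u + t' then (Vz z)⁻¹ else 0) = h * (Vz z)⁻¹ := by
      intro u _
      have h5 : ∀ t ∈ Icc 1 h, ∑ t' ∈ Icc 1 h, (if u + t = u + t' then (Vz z)⁻¹ else 0) = (Vz z)⁻¹ := by
        intro t ht
        simp only [Nat.add_left_cancel_iff]
        rw [Finset.sum_ite_eq, if_pos ht]
      rw [Finset.sum_congr rfl h5, Finset.sum_const, Nat.card_Icc, Nat.add_sub_cancel, nsmul_eq_mul]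
    rw [Finset.sum_congr rfl h4, Finset.sum_const, Nat.card_Icc, Nat.add_sub_cancel, nsmul_eq_mul]
    ring
  have h4 : ∑ u ∈ Icc 1 Y, ∑ t ∈ Icc 1 h, ∑ t' ∈ Icc 1 h, 3 ^ 16 / √(D : ℝ) * gt a b (u + t) (u + t') ≤
      3 ^ 16 / √(D : ℝ) * (2 * h * ((h * (1 + Real.log h)) * (W0 * (1 + Real.log W0)))) := by
    simp only [← Finset.mul_sum]
    apply mul_le_mul_of_nonneg_left _ (by positivity)
    have hg0 : ∀ x y, 0 ≤ gt a b x y := by
      intro x y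
      unfold gt
      split_ifs
      · exact le_rfl
      · exact tau_nonneg _
    have hgs : ∀ x y, gt a b x y = gt a b y x := by
      intro x y
      unfold gt
      by_cases hxy : x = y
      · rw [if_pos hxy, if_pos hxy.symm]
      · rw [if_neg hxy, if_neg (fun h => hxy h.symm)]
        congr 1
        omega
    have h5 := Pr.pairs_le (gt a b) hg0 hgs Y h
    have h6 : ∑ u ∈ Icc 1 Y, ∑ t ∈ Icc 1 h, gt a b (u + t) (u + t) = 0 := by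
      refine Finset.sum_eq_zero fun u _ => Finset.sum_eq_zero fun t _ => ?_
      unfold gt
      rw [if_pos rfl]
    have h7 := Pr.tau_pairs a b ha hb (Y + h) h W0 hW
    have h8 : ∑ d ∈ Icc 1 h, ∑ v ∈ Icc 1 (Y + h), gt a b v (v + d) ≤
        ∑ d ∈ Icc 1 h, ∑ v ∈ Icc 1 (Y + h), tau (qv a b (v + d) - qv a b v).natAbs := by
      refine Finset.sum_le_sum fun d hd => Finset.sum_le_sum fun v _ => ?_
      rw [mem_Icc] at hd
      unfold gt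
      rw [if_neg (by omega)]
      apply le_of_eq
      congr 1
      omega
    have h9 : (0 : ℝ) ≤ 2 * h := by positivity
    have h10 := mul_le_mul_of_nonneg_left (h8.trans h7) h9
    linarith
  linarith

/-- the sum over a window -/
noncomputable def Fw (z : ℕ) (a b : ℤ) (h : ℕ) (c : ℤ) (u : ℕ) : ℝ := ∑ t ∈ Icc 1 h, lz z (qv a b (u + t) + c)

lemma Fw_pair (z : ℕ) (a b : ℤ) (h M : ℕ) (Er : ℝ)
    (hp : ∀ x y : ℤ, |∑ c ∈ Icc (-(M : ℤ)) M, lz z (c + x) * lz z (c + y) - (2 * M + 1 : ℕ) * Sz z (x - y)| ≤ Er)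
    (u u' : ℕ) :
    |∑ c ∈ Icc (-(M : ℤ)) M, Fw z a b h c u * Fw z a b h c u' -
      (2 * M + 1 : ℕ) * ∑ t ∈ Icc 1 h, ∑ t' ∈ Icc 1 h, Sz z (qv a b (u + t) - qv a b (u' + t'))| ≤ h ^ 2 * Er := by
  have e1 : ∑ c ∈ Icc (-(M : ℤ)) M, Fw z a b h c u * Fw z a b h c u' =
      ∑ t ∈ Icc 1 h, ∑ t' ∈ Icc 1 h, ∑ c ∈ Icc (-(M : ℤ)) M, lz z (c + qv a b (u + t)) * lz z (c + qv a b (u' + t')) := by
    have e2 : ∀ c : ℤ, Fw z a b h c u * Fw z a b h c u' =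
        ∑ t ∈ Icc 1 h, ∑ t' ∈ Icc 1 h, lz z (c + qv a b (u + t)) * lz z (c + qv a b (u' + t')) := by
      intro c
      unfold Fw
      rw [Finset.sum_mul_sum]
      refine Finset.sum_congr rfl fun t _ => Finset.sum_congr rfl fun t' _ => ?_
      rw [add_comm c, add_comm c]
    rw [Finset.sum_congr rfl (fun c _ => e2 c), Finset.sum_comm]
    refine Finset.sum_congr rfl fun t _ => ?_
    rw [Finset.sum_comm]
  rw [e1, Finset.mul_sum, ← Finset.sum_sub_distrib]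
  refine (Finset.abs_sum_le_sum_abs _ _).trans ?_
  have h1 : ∀ t ∈ Icc 1 h, |∑ t' ∈ Icc 1 h, ∑ c ∈ Icc (-(M : ℤ)) M, lz z (c + qv a b (u + t)) * lz z (c + qv a b (u' + t')) -
      (2 * M + 1 : ℕ) * ∑ t' ∈ Icc 1 h, Sz z (qv a b (u + t) - qv a b (u' + t'))| ≤ h * Er := by
    intro t _
    rw [Finset.mul_sum, ← Finset.sum_sub_distrib]
    refine (Finset.abs_sum_le_sum_abs _ _).trans ?_
    refine (Finset.sum_le_sum (fun t' _ => hp (qv a b (u + t)) (qv a b (u' + t')))).trans ?_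
    rw [Finset.sum_const, Nat.card_Icc, Nat.add_sub_cancel, nsmul_eq_mul]
  refine (Finset.sum_le_sum h1).trans ?_
  rw [Finset.sum_const, Nat.card_Icc, Nat.add_sub_cancel, nsmul_eq_mul]
  apply le_of_eq
  ring

/-- the variance -/
theorem var (z : ℕ) (a b : ℤ) (ha : 1 ≤ a) (hb : |b| ≤ 2 * a) (h M Y D W0 : ℕ) (Er : ℝ) (hY : 1 ≤ Y) (hD : 1 ≤ D) (hDh : D ≤ h)
    (hW : a * (2 * (Y + h : ℕ) + h + 2) ≤ W0)
    (hp : ∀ x y : ℤ, |∑ c ∈ Icc (-(M : ℤ)) M, lz z (c + x) * lz z (c + y) - (2 * M + 1 : ℕ) * Sz z (x - y)| ≤ Er) :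
    ∑ c ∈ Icc (-(M : ℤ)) M, (∑ u ∈ Icc 1 Y, Fw z a b h c u ^ 2 - (∑ u ∈ Icc 1 Y, Fw z a b h c u) ^ 2 / Y) ≤
      (2 * M + 1 : ℕ) * (6 * Y * h * (D : ℝ) ^ 3 + Y * h * (Vz z)⁻¹ +
        3 ^ 16 / √(D : ℝ) * (2 * h * ((h * (1 + Real.log h)) * (W0 * (1 + Real.log W0))))) + 2 * Y * h ^ 2 * Er := by
  have hY0 : (0 : ℝ) < Y := by exact_mod_cast hY
  have hM0 : (0 : ℝ) ≤ (2 * M + 1 : ℕ) := Nat.cast_nonneg _
  have hpair := Fw_pair z a b h M Er hp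
  -- the diagonal
  have h1 : ∑ c ∈ Icc (-(M : ℤ)) M, ∑ u ∈ Icc 1 Y, Fw z a b h c u ^ 2 ≤
      (2 * M + 1 : ℕ) * ∑ u ∈ Icc 1 Y, ∑ t ∈ Icc 1 h, ∑ t' ∈ Icc 1 h, Sz z (qv a b (u + t) - qv a b (u + t')) +
        Y * (h ^ 2 * Er) := by
    rw [Finset.sum_comm]
    have h2 : ∀ u ∈ Icc 1 Y, ∑ c ∈ Icc (-(M : ℤ)) M, Fw z a b h c u ^ 2 ≤
        (2 * M + 1 : ℕ) * ∑ t ∈ Icc 1 h, ∑ t' ∈ Icc 1 h, Sz z (qv a b (u + t) - qv a b (u + t')) + h ^ 2 * Er := by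
      intro u _
      have h3 := (abs_le.1 (hpair u u)).2
      have h4 : ∑ c ∈ Icc (-(M : ℤ)) M, Fw z a b h c u ^ 2 = ∑ c ∈ Icc (-(M : ℤ)) M, Fw z a b h c u * Fw z a b h c u :=
        Finset.sum_congr rfl fun c _ => sq _
      rw [h4]
      linarith
    refine (Finset.sum_le_sum h2).trans ?_
    rw [Finset.sum_add_distrib, ← Finset.mul_sum, Finset.sum_const, Nat.card_Icc, Nat.add_sub_cancel, nsmul_eq_mul]
  -- all pairs
  have h2 : (Y : ℝ) ^ 2 * ((2 * M + 1 : ℕ) * (mt a b z D h - 3 * h * (D : ℝ) ^ 3) - h ^ 2 * Er) ≤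
      ∑ c ∈ Icc (-(M : ℤ)) M, (∑ u ∈ Icc 1 Y, Fw z a b h c u) ^ 2 := by
    have e1 : ∑ c ∈ Icc (-(M : ℤ)) M, (∑ u ∈ Icc 1 Y, Fw z a b h c u) ^ 2 =
        ∑ u ∈ Icc 1 Y, ∑ u' ∈ Icc 1 Y, ∑ c ∈ Icc (-(M : ℤ)) M, Fw z a b h c u * Fw z a b h c u' := by
      have e2 : ∀ c : ℤ, (∑ u ∈ Icc 1 Y, Fw z a b h c u) ^ 2 =
          ∑ u ∈ Icc 1 Y, ∑ u' ∈ Icc 1 Y, Fw z a b h c u * Fw z a b h c u' := by
        intro c
        rw [sq, Finset.sum_mul_sum]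
      rw [Finset.sum_congr rfl (fun c _ => e2 c), Finset.sum_comm]
      refine Finset.sum_congr rfl fun u _ => ?_
      rw [Finset.sum_comm]
    rw [e1]
    have h3 : ∀ u ∈ Icc 1 Y, ∀ u' ∈ Icc 1 Y, (2 * M + 1 : ℕ) * (mt a b z D h - 3 * h * (D : ℝ) ^ 3) - h ^ 2 * Er ≤
        ∑ c ∈ Icc (-(M : ℤ)) M, Fw z a b h c u * Fw z a b h c u' := by
      intro u _ u' _
      have h4 := (abs_le.1 (hpair u u')).1
      have h5 := mul_le_mul_of_nonneg_left (far a b z D u u' h hDh) hM0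
      linarith
    have h4 : ∀ u ∈ Icc 1 Y, (Y : ℝ) * ((2 * M + 1 : ℕ) * (mt a b z D h - 3 * h * (D : ℝ) ^ 3) - h ^ 2 * Er) ≤
        ∑ u' ∈ Icc 1 Y, ∑ c ∈ Icc (-(M : ℤ)) M, Fw z a b h c u * Fw z a b h c u' := by
      intro u hu
      have h5 := Finset.card_nsmul_le_sum (Icc 1 Y) _ _ (h3 u hu)
      rwa [Nat.card_Icc, Nat.add_sub_cancel, nsmul_eq_mul] at h5
    have h5 := Finset.card_nsmul_le_sum (Icc 1 Y) _ _ h4
    rw [Nat.card_Icc, Nat.add_sub_cancel, nsmul_eq_mul] at h5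
    refine le_trans (le_of_eq ?_) h5
    ring
  have h3 := near a b ha hb z D hD Y h W0 hDh hW
  have h4 := mul_le_mul_of_nonneg_left h3 hM0
  rw [Finset.sum_sub_distrib, ← Finset.sum_div]
  have h5 : (Y : ℝ) * ((2 * M + 1 : ℕ) * (mt a b z D h - 3 * h * (D : ℝ) ^ 3) - h ^ 2 * Er) ≤
      (∑ c ∈ Icc (-(M : ℤ)) M, (∑ u ∈ Icc 1 Y, Fw z a b h c u) ^ 2) / Y := by
    rw [le_div_iff₀ hY0]
    refine le_trans (le_of_eq ?_) h2
    ring
  refine (sub_le_sub h1 h5).trans ?_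
  have h6 := add_le_add h4 (le_refl ((Y : ℝ) * (h ^ 2 * Er) - (Y : ℝ) * ((2 * M + 1 : ℕ) * (mt a b z D h - 3 * h * (D : ℝ) ^ 3) - h ^ 2 * Er)))
  refine le_trans (le_of_eq ?_) (h6.trans (le_of_eq ?_))
  · ring
  · ring

end Pool.Agent.H79.W.Mod
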