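import Pool.Agent.H79.W.Prm

/-!
Primes with logarithmic weights minus the sieve model at the values of `a m² + b m + c` in windows: absolute values.
-/

set_option autoImplicit false

namespace Pool.Agent.H79.W.Prl

open Finset
open Pool.Agent.helper24_UT
open Pool.Agent.H373R2.T7 (lamI lamzI lamz Vz pz mem_pz ev_log' ev_L' Vz_pos Vz_inv_small)
open Pool.Agent.helper24_UT.Thq (RR RR_nonneg)
open Pool.Agent.H79.Q.En (qv)
open Pool.Agent.H79.Q.Key (qv_bd)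
open Pool.Agent.H79.Q.Th (df df_eq sum_RR_c)
open Pool.Agent.H79.W.Prm (sq_sign)

/-- from the mean square to the mean -/
lemma cs2 (C : Finset ℤ) (U : Finset ℕ) (x : ℤ → ℕ → ℝ) (N Y h R : ℝ) (hN : 0 ≤ N) (hY : 0 ≤ Y) (hh : 0 ≤ h) (hR : 0 ≤ R)
    (hC : (C.card : ℝ) ≤ N) (hU : (U.card : ℝ) ≤ Y) (hx : ∑ c ∈ C, ∑ u ∈ U, x c u ^ 2 ≤ N * Y * h ^ 2 * R ^ 2) :
    ∑ c ∈ C, ∑ u ∈ U, |x c u| ≤ N * Y * h * R := by
  apply abs_le_of_sq_le_sq' _ (by positivity) |>.2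
  rw [← Finset.sum_product'] at hx ⊢
  refine (sq_sum_le_card_mul_sum_sq).trans ?_
  rw [Finset.card_product]
  push_cast
  have h1 : ∑ p ∈ C ×ˢ U, |x p.1 p.2| ^ 2 ≤ N * Y * h ^ 2 * R ^ 2 := by
    refine le_trans (le_of_eq ?_) hx
    refine Finset.sum_congr rfl fun p _ => ?_
    rw [sq_abs]
  calc (C.card : ℝ) * U.card * ∑ p ∈ C ×ˢ U, |x p.1 p.2| ^ 2 ≤ N * Y * (N * Y * h ^ 2 * R ^ 2) := by
        gcongr
    _ = (N * Y * h * R) ^ 2 := by ring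

theorem prm (hMKT : S_MKT (1 / 3)) (e A B : ℕ) (he : 1 ≤ e) : ∃ E₀ : ℕ, ∀ E₁ : ℕ, ∃ N₀ : ℕ, ∀ N : ℕ, N₀ ≤ N →
    ∀ z : ℕ, (Real.log N) ^ E₀ ≤ z → (z : ℝ) ≤ (Real.log N) ^ E₁ →
    ∀ a b : ℤ, 1 ≤ a → (a : ℝ) ≤ (Real.log N) ^ B → |b| ≤ 2 * a → ∀ M Y h : ℕ,
    (Real.log N) ^ (2 * A + 6) ≤ h → 7 * h ≤ Y →
    (N : ℝ) ^ (1 / 3 + 1 / e : ℝ) ≤ Y → 36 * a * (Y : ℤ) ^ 2 + 3 * M ≤ N →
    ∑ c ∈ Icc (-(M : ℤ)) M, ∑ u ∈ Icc 1 Y, |∑ t ∈ Icc 1 h, df z (qv a b (u + t) + c)| ≤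
      N * Y * h / (Real.log N) ^ A := by
  obtain ⟨E₀, hE₀⟩ := sq_sign hMKT e (2 * A + 4) B he
  refine ⟨E₀ + 1, fun E₁ => ?_⟩
  obtain ⟨N₁, hN₁⟩ := hE₀ E₁
  obtain ⟨N₃, hN₃⟩ := ev_L' 100
  obtain ⟨N₄, hN₄⟩ := ev_log' (A + 2) 4
  refine ⟨N₁ + N₃ + N₄ + 8, ?_⟩
  intro N hN z hz1 hz2 a b ha haL hb M Y h hh hY hYN hN2
  have hN0 : (8 : ℝ) ≤ N := by exact_mod_cast (by omega : 8 ≤ N)
  have hLL := hN₃ N (by omega)
  have hsm := hN₄ N (by omega)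
  have hsq := hN₁ N (by omega) z
  obtain ⟨L, hL⟩ : ∃ L : ℝ, L = Real.log N := ⟨_, rfl⟩
  rw [← hL] at hLL hsq hz1 hz2 haL hsm hh ⊢
  have hL1 : 1 ≤ L := by linarith
  have hL0 : 0 < L := by linarith
  have hz0 : L ^ E₀ ≤ z := (pow_le_pow_right₀ hL1 (by omega)).trans hz1
  have hz2' : (2 : ℕ) ≤ z := by
    have : (2 : ℝ) ≤ z := by
      calc (2 : ℝ) ≤ L := by linarith
        _ = L ^ 1 := (pow_one _).symm
        _ ≤ L ^ (E₀ + 1) := pow_le_pow_right₀ hL1 (by omega)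
        _ ≤ z := hz1
    exact_mod_cast this
  have hhR : (1 : ℝ) ≤ h := (one_le_pow₀ hL1).trans hh
  have hh1 : 1 ≤ h := by exact_mod_cast hhR
  have hs := hsq hz0 hz2 a b ha haL hb M Y h hh1 hY hYN hN2
  have haY0 : (0 : ℤ) ≤ a * (Y : ℤ) ^ 2 := by positivity
  have hM3 : 3 * (M : ℤ) ≤ N := by linarith
  have hMc : (((Icc (-(M : ℤ)) M).card : ℕ) : ℝ) ≤ N := by
    rw [Int.card_Icc]
    have e1 : ((M : ℤ) + 1 - -(M : ℤ)).toNat ≤ N := by omega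
    exact_mod_cast e1
  have hUc : (((Icc 1 Y).card : ℕ) : ℝ) ≤ Y := by
    rw [Nat.card_Icc, Nat.add_sub_cancel]
  have hLA : 0 < L ^ A := by positivity
  have hY0 : (0 : ℝ) ≤ Y := Nat.cast_nonneg _
  have hR2 : 4 * L ^ 2 / h + 1 / L ^ (2 * A + 4) ≤ (1 / L ^ (A + 1)) ^ 2 := by
    have h1 : 4 * L ^ 2 / h ≤ 4 / L ^ (2 * A + 4) := by
      rw [div_le_div_iff₀ (by linarith) (by positivity)]
      calc 4 * L ^ 2 * L ^ (2 * A + 4) = 4 * L ^ (2 * A + 6) := by ring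
        _ ≤ 4 * h := by linarith
    have h2 : (1 / L ^ (A + 1)) ^ 2 = L ^ 2 / L ^ (2 * A + 4) := by
      rw [div_pow, one_pow, ← pow_mul]
      rw [div_eq_div_iff (by positivity) (by positivity)]
      ring
    rw [h2]
    refine (add_le_add h1 le_rfl).trans ?_
    rw [← add_div]
    apply div_le_div_of_nonneg_right _ (by positivity)
    nlinarith
  have hpart : ∀ σ : ℤ, (σ = 1 ∨ σ = -1) →
      ∑ c ∈ Icc (-(M : ℤ)) M, ∑ u ∈ Icc 1 Y, |∑ t ∈ Icc 1 h, Ed z (σ * (c + qv a b (u + t)))| ≤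
        N * Y * h * (1 / L ^ (A + 1)) := by
    intro σ hσ
    have h1 := hs σ hσ
    refine cs2 _ _ _ N Y h (1 / L ^ (A + 1)) (by linarith) hY0 (by linarith) (by positivity) hMc hUc ?_
    refine h1.trans ?_
    exact mul_le_mul_of_nonneg_left hR2 (by positivity)
  -- the prime powers
  obtain ⟨Z, hZ⟩ : ∃ Z : ℕ, Z = 12 * a.toNat * Y ^ 2 + M := ⟨_, rfl⟩
  have hZZ : (Z : ℤ) = 12 * a * (Y : ℤ) ^ 2 + M := by
    rw [hZ]; push_cast; rw [Int.toNat_of_nonneg (show (0 : ℤ) ≤ a by omega)]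
  have hZN : 2 * Z ≤ N := by
    have : 2 * (Z : ℤ) ≤ N := by rw [hZZ]; linarith
    exact_mod_cast this
  have hhY : (1 : ℤ) ≤ Y := by
    have : 1 ≤ Y := by omega
    exact_mod_cast this
  have hZ1 : 1 ≤ Z := by
    have h2 : (1 : ℤ) ≤ (Y : ℤ) ^ 2 := by nlinarith
    have h3 : (1 : ℤ) ≤ a * (Y : ℤ) ^ 2 := by nlinarith
    have h4 : (0 : ℤ) ≤ M := Int.natCast_nonneg _
    have : (1 : ℤ) ≤ Z := by rw [hZZ]; linarith
    exact_mod_cast this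
  have hRR : ∑ c ∈ Icc (-(M : ℤ)) M, ∑ u ∈ Icc 1 Y, ∑ t ∈ Icc 1 h, RR (qv a b (u + t) + c).natAbs ≤
      N * Y * h * (1 / L ^ (A + 1)) := by
    rw [Finset.sum_comm]
    have h1 : ∀ u ∈ Icc 1 Y, ∑ c ∈ Icc (-(M : ℤ)) M, ∑ t ∈ Icc 1 h, RR (qv a b (u + t) + c).natAbs ≤
        h * (4 * √N * L) := by
      intro u hu
      rw [mem_Icc] at hu
      rw [Finset.sum_comm]
      have h2 : ∀ t ∈ Icc 1 h, ∑ c ∈ Icc (-(M : ℤ)) M, RR (qv a b (u + t) + c).natAbs ≤ 4 * √N * L := by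
        intro t ht
        rw [mem_Icc] at ht
        have h3 : ∑ c ∈ Icc (-(M : ℤ)) M, RR (qv a b (u + t) + c).natAbs ≤
            ∑ c ∈ Icc (-(Z : ℤ)) Z, RR (qv a b (u + t) + c).natAbs := by
          apply Finset.sum_le_sum_of_subset_of_nonneg
          · apply Finset.Icc_subset_Icc <;> omega
          · intro c _ _
            exact RR_nonneg _
        have h4 := qv_bd a b ha hb (2 * Y) (u + t) (by rw [mem_Icc]; omega)
        have h5 : 3 * a * ((2 * Y : ℕ) : ℤ) ^ 2 = 12 * a * (Y : ℤ) ^ 2 := by push_cast; ring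
        rw [h5] at h4
        have h6 := sum_RR_c Z (qv a b (u + t)) hZ1 (by
          rw [hZZ]
          have : (0 : ℤ) ≤ M := Int.natCast_nonneg _
          linarith)
        refine (h3.trans h6).trans ?_
        have h7 : ((2 * Z : ℕ) : ℝ) ≤ N := by exact_mod_cast hZN
        have h8 : Real.log ((2 * Z : ℕ) : ℝ) ≤ L := by
          rw [hL]
          apply Real.log_le_log _ h7
          exact_mod_cast (by omega : 0 < 2 * Z)
        have h9 : 0 ≤ Real.log ((2 * Z : ℕ) : ℝ) := Real.log_natCast_nonneg _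
        gcongr
      refine (Finset.sum_le_sum h2).trans ?_
      rw [Finset.sum_const, Nat.card_Icc, Nat.add_sub_cancel, nsmul_eq_mul]
    refine (Finset.sum_le_sum h1).trans ?_
    rw [Finset.sum_const, Nat.card_Icc, Nat.add_sub_cancel, nsmul_eq_mul]
    have h2 : 4 * √(N : ℝ) * L ≤ N * (1 / L ^ (A + 1)) := by
      rw [mul_one_div, le_div_iff₀ (by positivity)]
      calc 4 * √(N : ℝ) * L * L ^ (A + 1) = √N * (4 * L ^ (A + 2)) := by ring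
        _ ≤ √N * √N := mul_le_mul_of_nonneg_left hsm (Real.sqrt_nonneg _)
        _ = N := Real.mul_self_sqrt (by linarith)
    calc (Y : ℝ) * (h * (4 * √N * L)) = Y * h * (4 * √N * L) := by ring
      _ ≤ Y * h * (N * (1 / L ^ (A + 1))) := mul_le_mul_of_nonneg_left h2 (by positivity)
      _ = N * Y * h * (1 / L ^ (A + 1)) := by ring
  have hp1 := hpart 1 (Or.inl rfl)
  have hp2 := hpart (-1) (Or.inr rfl)
  have hall : ∑ c ∈ Icc (-(M : ℤ)) M, ∑ u ∈ Icc 1 Y, |∑ t ∈ Icc 1 h, df z (qv a b (u + t) + c)| ≤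
      3 * (N * Y * h * (1 / L ^ (A + 1))) := by
    have h1 : ∀ (c : ℤ) (u : ℕ), |∑ t ∈ Icc 1 h, df z (qv a b (u + t) + c)| ≤
        |∑ t ∈ Icc 1 h, Ed z (1 * (c + qv a b (u + t)))| + |∑ t ∈ Icc 1 h, Ed z (-1 * (c + qv a b (u + t)))| +
          ∑ t ∈ Icc 1 h, RR (qv a b (u + t) + c).natAbs := by
      intro c u
      have h2 : ∑ t ∈ Icc 1 h, df z (qv a b (u + t) + c) = ∑ t ∈ Icc 1 h, Ed z (1 * (c + qv a b (u + t))) +
          ∑ t ∈ Icc 1 h, Ed z (-1 * (c + qv a b (u + t))) - ∑ t ∈ Icc 1 h, RR (qv a b (u + t) + c).natAbs := by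
        rw [← sum_add_distrib, ← sum_sub_distrib]
        refine Finset.sum_congr rfl fun t _ => ?_
        rw [df_eq z hz2', one_mul, neg_one_mul, add_comm c]
      have h3 : 0 ≤ ∑ t ∈ Icc 1 h, RR (qv a b (u + t) + c).natAbs := sum_nonneg fun _ _ => RR_nonneg _
      rw [h2]
      have h4 := abs_sub (∑ t ∈ Icc 1 h, Ed z (1 * (c + qv a b (u + t))) +
          ∑ t ∈ Icc 1 h, Ed z (-1 * (c + qv a b (u + t)))) (∑ t ∈ Icc 1 h, RR (qv a b (u + t) + c).natAbs)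
      have h5 := abs_add_le (∑ t ∈ Icc 1 h, Ed z (1 * (c + qv a b (u + t))))
          (∑ t ∈ Icc 1 h, Ed z (-1 * (c + qv a b (u + t))))
      rw [abs_of_nonneg h3] at h4
      linarith
    refine (Finset.sum_le_sum fun c _ => Finset.sum_le_sum fun u _ => h1 c u).trans ?_
    simp only [Finset.sum_add_distrib]
    linarith
  refine hall.trans ?_
  have e1 : L ^ (A + 1) = L ^ A * L := pow_succ _ _
  rw [e1]
  calc 3 * ((N : ℝ) * Y * h * (1 / (L ^ A * L))) = N * Y * h / L ^ A * (3 / L) := by field_simp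
    _ ≤ N * Y * h / L ^ A * 1 := by
        apply mul_le_mul_of_nonneg_left _ (by positivity)
        rw [div_le_one hL0]
        linarith
    _ = N * Y * h / L ^ A := mul_one _

end Pool.Agent.H79.W.Prl
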