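import Pool.Agent.H79.Q.Cst
import Pool.Agent.H79.W.Mod
import Pool.Agent.H79.W.Prl

/-!
The sieve model in windows: the mean, and the mean absolute deviation.
-/

set_option autoImplicit false

namespace Pool.Agent.H79.W.Mean

open Finset Polynomial
open Pool.Agent.helper24_UT
open Pool.Agent.H373R2.T7 (Vz pz mem_pz Vz_pos Vz_inv_small ev_log' ev_L')
open Pool.Agent.H79.Q.En (qv tau tau_nonneg)
open Pool.Agent.H79.Q.Core (lz_bd sg_le)
open Pool.Agent.H79.Q.Fac (qF qF_eval qF_deg)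
open Pool.Agent.H79.W.Sg
open Pool.Agent.H79.W.Mod (Fw var)
open Pool.Agent.H79.W.Prl (cs2)

lemma sg_nonneg (z : ℕ) (F : Fin 1 → ℤ[X]) : 0 ≤ sg z F := by
  unfold sg
  apply Finset.prod_nonneg
  intro p hp
  have hp2 : (2 : ℝ) ≤ p := by exact_mod_cast (mem_pz.1 hp).2.two_le
  have h1 : ((om F p : ℕ) : ℝ) ≤ p := by
    have : om F p ≤ p := by
      unfold om
      refine (card_filter_le _ _).trans ?_
      rw [card_range]
    exact_mod_cast this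
  have h2 : ((om F p : ℕ) : ℝ) / p ≤ 1 := by
    rw [div_le_one (by linarith)]
    exact h1
  have h3 : 1 / (p : ℝ) ≤ 1 := by
    rw [div_le_one (by linarith)]
    linarith
  apply div_nonneg (by linarith)
  rw [pow_one]
  linarith

theorem modvar (E A B : ℕ) : ∃ N₀ : ℕ, ∀ N : ℕ, N₀ ≤ N → ∀ z : ℕ, 1 ≤ z → (z : ℝ) ≤ (Real.log N) ^ E →
    ∀ a b : ℤ, 1 ≤ a → (a : ℝ) ≤ (Real.log N) ^ B → |b| ≤ 2 * a → ∀ M Y h : ℕ, 2 * M + 1 ≤ N →
    (Real.log N) ^ (14 * A + 6 * B + 33) ≤ h → h ≤ Y → 36 * a * (Y : ℤ) ^ 2 ≤ N →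
    ∑ c ∈ Icc (-(M : ℤ)) M, (∑ u ∈ Icc 1 Y, Fw z a b h c u ^ 2 - (∑ u ∈ Icc 1 Y, Fw z a b h c u) ^ 2 / Y) ≤
      N * Y * h ^ 2 * (1 / (Real.log N) ^ (A + 1)) ^ 2 := by
  obtain ⟨N₁, hN₁⟩ := pair_sum E (2 * A + 3)
  obtain ⟨N₂, hN₂⟩ := Vz_inv_small E
  obtain ⟨N₃, hN₃⟩ := ev_L' (224 * 3 ^ 16)
  refine ⟨N₁ + N₂ + N₃ + 1, ?_⟩
  intro N hN z hz1 hz2 a b ha haL hb M Y h hM hh hhY hN36
  have hp := hN₁ N (by omega) z hz1 hz2
  have hV := hN₂ N (by omega) z hz1 hz2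
  have hL := hN₃ N (by omega)
  have hN0 : (1 : ℝ) ≤ N := by exact_mod_cast (by omega : 1 ≤ N)
  obtain ⟨L, hLd⟩ : ∃ L : ℝ, L = Real.log N := ⟨_, rfl⟩
  rw [← hLd] at hp hV hL haL hh ⊢
  have hL1 : 1 ≤ L := by linarith
  have hL0 : 0 < L := by linarith
  have haR : (1 : ℝ) ≤ a := by exact_mod_cast ha
  obtain ⟨d, hd⟩ : ∃ d : ℕ, d = 2 * A + B + 5 := ⟨_, rfl⟩
  obtain ⟨D, hD⟩ : ∃ D : ℕ, D = ⌈L ^ (2 * d)⌉₊ := ⟨_, rfl⟩
  have hLd1 : 1 ≤ L ^ (2 * d) := one_le_pow₀ hL1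
  have hD1 : L ^ (2 * d) ≤ D := by rw [hD]; exact Nat.le_ceil _
  have hD2 : (D : ℝ) ≤ 2 * L ^ (2 * d) := by
    have : (D : ℝ) < L ^ (2 * d) + 1 := by rw [hD]; exact Nat.ceil_lt_add_one (by linarith)
    linarith
  have hD1R : (1 : ℝ) ≤ D := hLd1.trans hD1
  have hD0 : 1 ≤ D := by exact_mod_cast hD1R
  have hDs : L ^ d ≤ √(D : ℝ) := by
    apply Real.le_sqrt_of_sq_le
    rw [← pow_mul, mul_comm]
    exact hD1
  have hLds : 0 < L ^ d := by positivity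
  have hhR : (1 : ℝ) ≤ h := (one_le_pow₀ hL1).trans hh
  have hh1 : 1 ≤ h := by exact_mod_cast hhR
  have hD3 : (D : ℝ) ^ 3 ≤ 8 * L ^ (6 * d) := by
    calc (D : ℝ) ^ 3 ≤ (2 * L ^ (2 * d)) ^ 3 := pow_le_pow_left₀ (by linarith) hD2 3
      _ = 8 * L ^ (6 * d) := by rw [mul_pow, ← pow_mul]; ring
  have hh6 : 192 * L ^ (6 * d) * L ^ (2 * A + 2) ≤ h := by
    refine le_trans ?_ hh
    have e1 : L ^ (14 * A + 6 * B + 33) = L * (L ^ (6 * d) * L ^ (2 * A + 2)) := by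
      rw [← pow_add, ← pow_succ', hd]
      congr 1
      ring
    rw [e1, mul_assoc]
    apply mul_le_mul_of_nonneg_right _ (by positivity)
    linarith
  have hDh : D ≤ h := by
    have h1 : (D : ℝ) ≤ h := by
      refine le_trans ?_ hh6
      have h2 : L ^ (2 * d) ≤ L ^ (6 * d) := pow_le_pow_right₀ hL1 (by omega)
      have h3 : 1 ≤ L ^ (2 * A + 2) := one_le_pow₀ hL1
      have h4 : 1 ≤ L ^ (6 * d) := one_le_pow₀ hL1
      calc (D : ℝ) ≤ 2 * L ^ (6 * d) := by linarith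
        _ ≤ 192 * L ^ (6 * d) * 1 := by linarith
        _ ≤ 192 * L ^ (6 * d) * L ^ (2 * A + 2) := mul_le_mul_of_nonneg_left h3 (by positivity)
    exact_mod_cast h1
  have hY1 : 1 ≤ Y := by omega
  have hY0 : (1 : ℝ) ≤ Y := by exact_mod_cast hY1
  have hhYR : (h : ℝ) ≤ Y := by exact_mod_cast hhY
  obtain ⟨W0, hW0⟩ : ∃ W0 : ℕ, W0 = a.toNat * (2 * (Y + h) + h + 2) := ⟨_, rfl⟩
  have hW0Z : (W0 : ℤ) = a * (2 * (Y + h : ℕ) + h + 2) := by
    rw [hW0]; push_cast; rw [Int.toNat_of_nonneg (show (0 : ℤ) ≤ a by omega)]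
  have hW0R : (W0 : ℝ) = a * (2 * (Y + h) + h + 2) := by
    have : (W0 : ℤ) = a * (2 * (Y + h) + h + 2) := by rw [hW0Z]; push_cast; ring
    exact_mod_cast this
  have hW7 : (W0 : ℝ) ≤ 7 * a * Y := by
    rw [hW0R]
    have h1 : 2 * ((Y : ℝ) + h) + h + 2 ≤ 7 * Y := by linarith
    calc (a : ℝ) * (2 * (Y + h) + h + 2) ≤ a * (7 * Y) := by gcongr
      _ = 7 * a * Y := by ring
  have hW1 : (1 : ℝ) ≤ W0 := by
    rw [hW0R]
    have h1 : (1 : ℝ) ≤ 2 * ((Y : ℝ) + h) + h + 2 := by linarith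
    calc (1 : ℝ) = 1 * 1 := by ring
      _ ≤ a * (2 * (Y + h) + h + 2) := by gcongr
  have hN36R : 36 * (a : ℝ) * (Y : ℝ) ^ 2 ≤ N := by exact_mod_cast hN36
  have hWN : (W0 : ℝ) ≤ N := by
    refine hW7.trans (le_trans ?_ hN36R)
    have h1 : (a : ℝ) * Y ≤ a * (Y : ℝ) ^ 2 := by
      apply mul_le_mul_of_nonneg_left _ (by linarith)
      nlinarith
    have h2 : 0 ≤ (a : ℝ) * (Y : ℝ) ^ 2 := by positivity
    linarith
  have hhN : (h : ℝ) ≤ N := by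
    refine hhYR.trans (le_trans ?_ hWN)
    rw [hW0R]
    calc (Y : ℝ) = 1 * Y := by ring
      _ ≤ a * (2 * (Y + h) + h + 2) := by gcongr; linarith
  have hlW : Real.log W0 ≤ L := by rw [hLd]; exact Real.log_le_log (by linarith) hWN
  have hlh : Real.log h ≤ L := by rw [hLd]; exact Real.log_le_log (by linarith) hhN
  have hlW0 : 0 ≤ Real.log W0 := Real.log_natCast_nonneg _
  have hlh0 : 0 ≤ Real.log h := Real.log_natCast_nonneg _
  have hv := var z a b ha hb h M Y D W0 (2 * N / L ^ (2 * A + 3)) hY1 hD0 hDh (le_of_eq hW0Z.symm)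
    (fun x y => hp x y M hM)
  refine hv.trans ?_
  have hMN : ((2 * M + 1 : ℕ) : ℝ) ≤ N := by exact_mod_cast hM
  obtain ⟨P, hP⟩ : ∃ P : ℝ, P = Y * h ^ 2 * (1 / (4 * L ^ (2 * A + 2))) := ⟨_, rfl⟩
  have hLA2 : 0 < L ^ (2 * A + 2) := by positivity
  have hP0 : 0 ≤ P := by rw [hP]; positivity
  -- the parts
  have k1 : 6 * Y * h * (D : ℝ) ^ 3 ≤ P := by
    have h1 : 6 * (Y : ℝ) * h * (D : ℝ) ^ 3 ≤ 6 * Y * h * (8 * L ^ (6 * d)) := mul_le_mul_of_nonneg_left hD3 (by positivity)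
    refine h1.trans ?_
    rw [hP, mul_one_div, le_div_iff₀ (by positivity)]
    calc 6 * (Y : ℝ) * h * (8 * L ^ (6 * d)) * (4 * L ^ (2 * A + 2)) = Y * h * (192 * L ^ (6 * d) * L ^ (2 * A + 2)) := by ring
      _ ≤ Y * h * h := mul_le_mul_of_nonneg_left hh6 (by positivity)
      _ = Y * h ^ 2 := by ring
  have k2 : Y * h * (Vz z)⁻¹ ≤ P := by
    have h1 : (Y : ℝ) * h * (Vz z)⁻¹ ≤ Y * h * L := mul_le_mul_of_nonneg_left hV (by positivity)
    refine h1.trans ?_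
    rw [hP, mul_one_div, le_div_iff₀ (by positivity)]
    have h2 : L * (4 * L ^ (2 * A + 2)) ≤ h := by
      refine le_trans ?_ hh6
      have h3 : L ≤ L ^ (6 * d) := by
        calc L = L ^ 1 := (pow_one L).symm
          _ ≤ L ^ (6 * d) := pow_le_pow_right₀ hL1 (by omega)
      calc L * (4 * L ^ (2 * A + 2)) = 4 * L * L ^ (2 * A + 2) := by ring
        _ ≤ 192 * L ^ (6 * d) * L ^ (2 * A + 2) := by
            apply mul_le_mul_of_nonneg_right _ hLA2.le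
            linarith
    calc (Y : ℝ) * h * L * (4 * L ^ (2 * A + 2)) = Y * h * (L * (4 * L ^ (2 * A + 2))) := by ring
      _ ≤ Y * h * h := mul_le_mul_of_nonneg_left h2 (by positivity)
      _ = Y * h ^ 2 := by ring
  have k3 : 3 ^ 16 / √(D : ℝ) * (2 * h * ((h * (1 + Real.log h)) * (W0 * (1 + Real.log W0)))) ≤ P := by
    have h1 : 2 * (h : ℝ) * ((h * (1 + Real.log h)) * (W0 * (1 + Real.log W0))) ≤
        2 * h * ((h * (2 * L)) * ((7 * L ^ B * Y) * (2 * L))) := by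
      gcongr
      · linarith
      · exact hW7.trans (by gcongr)
      · linarith
    have h2 : 3 ^ 16 / √(D : ℝ) ≤ 3 ^ 16 / L ^ d := div_le_div_of_nonneg_left (by norm_num) hLds hDs
    calc 3 ^ 16 / √(D : ℝ) * (2 * h * ((h * (1 + Real.log h)) * (W0 * (1 + Real.log W0))))
        ≤ 3 ^ 16 / L ^ d * (2 * h * ((h * (2 * L)) * ((7 * L ^ B * Y) * (2 * L)))) := by
          apply mul_le_mul h2 h1 (by positivity) (by positivity)
      _ = Y * h ^ 2 * (56 * 3 ^ 16 * L ^ (B + 2) / L ^ d) := by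
          rw [pow_add L B 2]
          field_simp
          ring
      _ ≤ Y * h ^ 2 * (1 / (4 * L ^ (2 * A + 2))) := by
          apply mul_le_mul_of_nonneg_left _ (by positivity)
          rw [div_le_div_iff₀ hLds (by positivity), one_mul]
          have e1 : L ^ d = L * (L ^ (B + 2) * L ^ (2 * A + 2)) := by
            rw [← pow_add, ← pow_succ', hd]
            congr 1
            ring
          rw [e1]
          calc 56 * 3 ^ 16 * L ^ (B + 2) * (4 * L ^ (2 * A + 2)) = (224 * 3 ^ 16) * (L ^ (B + 2) * L ^ (2 * A + 2)) := by ring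
            _ ≤ L * (L ^ (B + 2) * L ^ (2 * A + 2)) := mul_le_mul_of_nonneg_right hL (by positivity)
      _ = P := hP.symm
  have k4 : 2 * Y * h ^ 2 * (2 * N / L ^ (2 * A + 3)) ≤ N * P := by
    rw [hP]
    have e1 : L ^ (2 * A + 3) = L ^ (2 * A + 2) * L := pow_succ _ _
    rw [e1]
    calc 2 * (Y : ℝ) * h ^ 2 * (2 * N / (L ^ (2 * A + 2) * L)) = N * (Y * h ^ 2 * (1 / (4 * L ^ (2 * A + 2)))) * (16 / L) := by
          field_simp
          ring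
      _ ≤ N * (Y * h ^ 2 * (1 / (4 * L ^ (2 * A + 2)))) * 1 := by
          apply mul_le_mul_of_nonneg_left _ (by positivity)
          rw [div_le_one hL0]
          linarith
      _ = _ := mul_one _
  have hsum : 6 * Y * h * (D : ℝ) ^ 3 + Y * h * (Vz z)⁻¹ +
        3 ^ 16 / √(D : ℝ) * (2 * h * ((h * (1 + Real.log h)) * (W0 * (1 + Real.log W0)))) ≤ 3 * P := by linarith
  have hM0 : (0 : ℝ) ≤ ((2 * M + 1 : ℕ) : ℝ) := Nat.cast_nonneg _
  have h5 : ((2 * M + 1 : ℕ) : ℝ) * (6 * Y * h * (D : ℝ) ^ 3 + Y * h * (Vz z)⁻¹ +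
        3 ^ 16 / √(D : ℝ) * (2 * h * ((h * (1 + Real.log h)) * (W0 * (1 + Real.log W0))))) ≤ N * (3 * P) :=
    (mul_le_mul_of_nonneg_left hsum hM0).trans (mul_le_mul_of_nonneg_right hMN (by linarith))
  have h6 : N * (4 * P) = N * Y * h ^ 2 * (1 / L ^ (A + 1)) ^ 2 := by
    rw [hP, div_pow, one_pow, ← pow_mul, show (A + 1) * 2 = 2 * A + 2 by ring]
    field_simp
  rw [← h6]
  linarith

/-- the mean over the windows -/
theorem mean (z : ℕ) (a b c : ℤ) (h Y : ℕ) (L R : ℝ) (hV : (Vz z)⁻¹ ≤ L) (hY : 1 ≤ Y)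
    (hMT : ∀ y : ℕ, Y ≤ y → |∑ n ∈ Icc 1 y, ∏ i, lz z ((qF a b c i).eval (n : ℤ)) - y * sg z (qF a b c)| ≤ y * R)
    (hR : 0 ≤ R) :
    |(∑ u ∈ Icc 1 Y, Fw z a b h c u) - Y * (h * sg z (qF a b c))| ≤ h * ((Y + h) * R + 2 * h * L) := by
  obtain ⟨G, hG⟩ : ∃ G : ℝ, G = sg z (qF a b c) := ⟨_, rfl⟩
  have hG0 : 0 ≤ G := by rw [hG]; exact sg_nonneg z _
  have hGL : G ≤ L := by rw [hG]; exact (sg_le z (qF a b c) rfl).trans hV
  have hL0 : 0 ≤ L := hG0.trans hGL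
  rw [← hG] at hMT ⊢
  obtain ⟨φ, hφ⟩ : ∃ φ : ℕ → ℝ, φ = fun m => lz z (qv a b m + c) := ⟨_, rfl⟩
  have hφ0 : ∀ m, 0 ≤ φ m ∧ φ m ≤ L := by
    intro m
    rw [hφ]
    exact ⟨(lz_bd z _).1, (lz_bd z _).2.trans hV⟩
  have e1 : ∀ y : ℕ, ∑ n ∈ Icc 1 y, ∏ i, lz z ((qF a b c i).eval (n : ℤ)) = ∑ n ∈ Icc 1 y, φ n := by
    intro y
    refine Finset.sum_congr rfl fun n _ => ?_
    rw [Fin.prod_univ_one, qF_eval, hφ]
    rfl
  have e2 : ∑ u ∈ Icc 1 Y, Fw z a b h c u = ∑ t ∈ Icc 1 h, ∑ u ∈ Icc 1 Y, φ (u + t) := by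
    rw [Finset.sum_comm]
    rw [hφ]
    rfl
  have h1 : ∀ t ∈ Icc 1 h, |∑ u ∈ Icc 1 Y, φ (u + t) - Y * G| ≤ (Y + h) * R + 2 * h * L := by
    intro t ht
    rw [mem_Icc] at ht
    have htR : (t : ℝ) ≤ h := by exact_mod_cast ht.2
    have ht0 : (0 : ℝ) ≤ t := Nat.cast_nonneg _
    have e3 : ∑ n ∈ Icc 1 (Y + t), φ n = ∑ n ∈ Icc 1 t, φ n + ∑ u ∈ Icc 1 Y, φ (u + t) := by
      have h2 : ∑ u ∈ Icc 1 Y, φ (u + t) = ∑ m ∈ Ioc t (Y + t), φ m := by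
        refine Finset.sum_nbij' (fun u => u + t) (fun m => m - t) ?_ ?_ ?_ ?_ ?_
        · intro u hu; rw [mem_Icc] at hu; rw [mem_Ioc]; omega
        · intro m hm; rw [mem_Ioc] at hm; rw [mem_Icc]; omega
        · intro u _; omega
        · intro m hm; rw [mem_Ioc] at hm; omega
        · intro u _; rfl
      have h3 : Icc 1 (Y + t) = Icc 1 t ∪ Ioc t (Y + t) := by
        ext m
        simp only [Finset.mem_union, Finset.mem_Icc, Finset.mem_Ioc]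
        omega
      have h4 : Disjoint (Icc 1 t) (Ioc t (Y + t)) := by
        rw [Finset.disjoint_left]
        intro m hm hm2
        rw [Finset.mem_Icc] at hm
        rw [Finset.mem_Ioc] at hm2
        omega
      rw [h3, Finset.sum_union h4, h2]
    have h2 := hMT (Y + t) (by omega)
    rw [e1] at h2
    have h3 : 0 ≤ ∑ n ∈ Icc 1 t, φ n := Finset.sum_nonneg fun n _ => (hφ0 n).1
    have h4 : ∑ n ∈ Icc 1 t, φ n ≤ t * L := by
      refine (Finset.sum_le_sum fun n _ => (hφ0 n).2).trans ?_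
      rw [Finset.sum_const, Nat.card_Icc, Nat.add_sub_cancel, nsmul_eq_mul]
    have h5 : (t : ℝ) * G ≤ h * L := mul_le_mul htR hGL hG0 (by linarith)
    have h5' : 0 ≤ (t : ℝ) * G := by positivity
    have h6 : (t : ℝ) * L ≤ h * L := mul_le_mul_of_nonneg_right htR hL0
    have h7 : (((Y + t : ℕ) : ℕ) : ℝ) * R ≤ (Y + h) * R := by
      push_cast
      apply mul_le_mul_of_nonneg_right _ hR
      linarith
    have e4 : ∑ u ∈ Icc 1 Y, φ (u + t) - Y * G = (∑ n ∈ Icc 1 (Y + t), φ n - ((Y + t : ℕ) : ℝ) * G) - ∑ n ∈ Icc 1 t, φ n + t * G := by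
      rw [e3]
      push_cast
      ring
    rw [e4]
    rw [abs_le] at h2 ⊢
    constructor <;> linarith [h2.1, h2.2]
  rw [e2]
  have e5 : ∑ t ∈ Icc 1 h, ∑ u ∈ Icc 1 Y, φ (u + t) - Y * (h * G) = ∑ t ∈ Icc 1 h, (∑ u ∈ Icc 1 Y, φ (u + t) - Y * G) := by
    rw [Finset.sum_sub_distrib, Finset.sum_const, Nat.card_Icc, Nat.add_sub_cancel, nsmul_eq_mul]
    ring
  rw [e5]
  refine (Finset.abs_sum_le_sum_abs _ _).trans ((Finset.sum_le_sum h1).trans ?_)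
  rw [Finset.sum_const, Nat.card_Icc, Nat.add_sub_cancel, nsmul_eq_mul]

end Pool.Agent.H79.W.Mean
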