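import Pool.Agent.H79.Q.Th
import Pool.Agent.H79.W.Corr

/-!
Primes with logarithmic weights minus the sieve model at the values of `a m² + b m + c` in windows, for almost all `c`.
-/

set_option autoImplicit false

namespace Pool.Agent.H79.W.Prm

open Finset
open Pool.Agent.helper24_UT
open Pool.Agent.H373R2.T7 (lamI lamzI lamz Vz pz mem_pz ev_log' ev_L' Vz_pos Vz_inv_small)
open Pool.Agent.helper24_UT.Thq (RR RR_nonneg)
open Pool.Agent.helper24_UT.Dp (Ed_bd)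
open Pool.Agent.H79.Q.En (qv tau tau_nonneg tau_mul)
open Pool.Agent.H79.Q.Key (qv_bd)
open Pool.Agent.H79.Q.Th (df df_eq sum_RR_c)
open Pool.Agent.H79.W.Corr (AC AC_shift AC_neg wincor)

/-- primes minus model, cut off -/
noncomputable def ff (z Z : ℕ) (m : ℤ) : ℝ := if (0 : ℤ) < m ∧ m ≤ (Z : ℤ) then Ed z m else 0

lemma Ed_neg (z : ℕ) (m : ℤ) (hm : m ≤ 0) : Ed z m = 0 := by
  unfold Ed lamI lamzI
  rw [if_neg (by omega), if_neg (by omega), sub_zero]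

lemma ff_supp (z Z : ℕ) (m : ℤ) (h : ff z Z m ≠ 0) : |m| ≤ Z := by
  unfold ff at h
  split_ifs at h with h1
  · rw [abs_of_pos h1.1]; exact h1.2
  · exact absurd rfl h

lemma ff_eq (z Z : ℕ) (m : ℤ) (h : m ≤ Z) : ff z Z m = Ed z m := by
  unfold ff
  by_cases h1 : 0 < m
  · rw [if_pos ⟨h1, h⟩]
  · rw [if_neg (by omega), Ed_neg z m (by omega)]

lemma ff_bd (z Z N : ℕ) (hN : 1 ≤ N) (hZ : Z ≤ N) (hV : (Vz z)⁻¹ ≤ Real.log N) (m : ℤ) : |ff z Z m| ≤ 2 * Real.log N := by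
  have hL : 0 ≤ Real.log N := Real.log_natCast_nonneg _
  unfold ff
  split_ifs with h
  · apply Ed_bd z N m hN _ hV
    have h1 : (1 : ℤ) ≤ N := by exact_mod_cast hN
    have h2 : (Z : ℤ) ≤ N := by exact_mod_cast hZ
    nlinarith [h.2]
  · rw [abs_zero]
    linarith

lemma sum_sq (f : ℤ → ℝ) (Z : ℕ) (P : ℝ) (hf : ∀ m, |f m| ≤ P) : ∑ t ∈ Icc (-(Z : ℤ)) Z, f t ^ 2 ≤ (2 * Z + 1) * P ^ 2 := by
  have h1 : ∀ t ∈ Icc (-(Z : ℤ)) Z, f t ^ 2 ≤ P ^ 2 := by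
    intro t _
    rw [← sq_abs]
    exact pow_le_pow_left₀ (abs_nonneg _) (hf t) 2
  refine (Finset.sum_le_sum h1).trans ?_
  rw [Finset.sum_const, Int.card_Icc, nsmul_eq_mul]
  have e : ((Z : ℤ) + 1 - -(Z : ℤ)).toNat = 2 * Z + 1 := by omega
  rw [e]
  push_cast
  exact le_rfl

/-- correlations of the primes minus the model -/
theorem acsum (hMKT : S_MKT (1 / 3)) (e A : ℕ) (he : 1 ≤ e) : ∃ E₀ : ℕ, ∀ E₁ : ℕ, ∃ N₀ : ℕ, ∀ N : ℕ, N₀ ≤ N → ∀ z : ℕ,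
    (Real.log N) ^ E₀ ≤ z → (z : ℝ) ≤ (Real.log N) ^ E₁ → ∀ Z K : ℕ, 3 * Z ≤ N → 6 * K ≤ N → 1 ≤ Z →
    (N : ℝ) ^ (1 / 3 + 1 / e : ℝ) ≤ K →
    AC (ff z Z) Z 0 ≤ 4 * N * Real.log N ^ 2 ∧
    ∑ k ∈ Icc 1 K, AC (ff z Z) Z (k : ℤ) ^ 2 ≤ 16 * N ^ 2 * K * Real.log N ^ 2 / Real.log N ^ A := by
  obtain ⟨E₀, hE₀⟩ := hMKT e A he
  refine ⟨E₀, fun E₁ => ?_⟩
  obtain ⟨N₁, hN₁⟩ := hE₀ E₁
  obtain ⟨N₂, hN₂⟩ := Vz_inv_small E₁
  obtain ⟨N₃, hN₃⟩ := ev_L' 1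
  refine ⟨N₁ + N₂ + N₃ + 1, ?_⟩
  intro N hN z hz1 hz2 Z K hZ hK hZ1 hKN
  have hN0 : (1 : ℝ) ≤ N := by exact_mod_cast (by omega : 1 ≤ N)
  have hL1 := hN₃ N (by omega)
  have hz0 : 1 ≤ z := by
    have h1 : (1 : ℝ) ≤ z := (one_le_pow₀ hL1).trans hz1
    exact_mod_cast h1
  have hV := hN₂ N (by omega) z hz0 hz2
  obtain ⟨L, hL⟩ : ∃ L : ℝ, L = Real.log N := ⟨_, rfl⟩
  have hbd := ff_bd z Z N (by omega) (by omega) hV
  rw [← hL] at hL1 hbd ⊢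
  have hss := sum_sq (ff z Z) Z (2 * L) hbd
  have hZR : 2 * (Z : ℝ) + 1 ≤ N := by exact_mod_cast (by omega : 2 * Z + 1 ≤ N)
  have hss2 : ∑ t ∈ Icc (-(Z : ℤ)) Z, ff z Z t ^ 2 ≤ 4 * N * L ^ 2 := by
    refine hss.trans ?_
    calc (2 * (Z : ℝ) + 1) * (2 * L) ^ 2 ≤ N * (2 * L) ^ 2 := mul_le_mul_of_nonneg_right hZR (by positivity)
      _ = 4 * N * L ^ 2 := by ring
  have hK0 : (0 : ℝ) < K := lt_of_lt_of_le (Real.rpow_pos_of_pos (by linarith) _) hKN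
  have hK1 : 1 ≤ K := by
    have : 0 < K := by exact_mod_cast hK0
    omega
  constructor
  · unfold AC
    refine le_trans (le_of_eq ?_) hss2
    refine Finset.sum_congr rfl fun t _ => ?_
    rw [add_zero, sq]
  · have hM := hN₁ N (by omega) z hz1 hz2 (2 * K) (by push_cast; linarith) (by omega) 0 (Z : ℤ)
    rw [← hL] at hM
    have hG := Gal.main (ff z Z) (ff z Z) Z (2 * K) _ (by omega) (ff_supp z Z) (ff_supp z Z) (fun α => by
      refine le_trans ?_ (hM α)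
      apply Finset.sum_le_sum_of_subset_of_nonneg
      · apply Finset.Icc_subset_Icc
        · push_cast; omega
        · omega
      · intro x _ _
        exact sq_nonneg _)
    have h1 : ∑ k ∈ Icc 1 K, (K : ℝ) * AC (ff z Z) Z (k : ℤ) ^ 2 ≤
        ∑ m ∈ Ioo (-((2 * K : ℕ) : ℤ)) (2 * K : ℕ), (((2 * K : ℕ) : ℝ) - |(m : ℝ)|) *
          (∑ t ∈ Icc (-(Z : ℤ)) Z, ff z Z t * ff z Z (t + m)) ^ 2 := by
      have h2 : ∑ k ∈ Icc 1 K, (K : ℝ) * AC (ff z Z) Z (k : ℤ) ^ 2 =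
          ∑ m ∈ (Icc 1 K).image (fun k : ℕ => (k : ℤ)), (K : ℝ) * AC (ff z Z) Z m ^ 2 := by
        rw [Finset.sum_image (fun x _ y _ hxy => by exact_mod_cast hxy)]
      rw [h2]
      refine (Finset.sum_le_sum (g := fun m : ℤ => (((2 * K : ℕ) : ℝ) - |(m : ℝ)|) *
          (∑ t ∈ Icc (-(Z : ℤ)) Z, ff z Z t * ff z Z (t + m)) ^ 2) ?_).trans
        (Finset.sum_le_sum_of_subset_of_nonneg ?_ ?_)
      · intro m hm
        rw [mem_image] at hm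
        obtain ⟨k, hk, rfl⟩ := hm
        rw [mem_Icc] at hk
        unfold AC
        apply mul_le_mul_of_nonneg_right _ (sq_nonneg _)
        have h3 : |(((k : ℕ) : ℤ) : ℝ)| = (k : ℝ) := by
          rw [Int.cast_natCast, abs_of_nonneg (Nat.cast_nonneg k)]
        rw [h3]
        have h4 : (k : ℝ) ≤ K := by exact_mod_cast hk.2
        push_cast
        linarith
      · intro m hm
        rw [mem_image] at hm
        obtain ⟨k, hk, rfl⟩ := hm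
        rw [mem_Icc] at hk
        rw [mem_Ioo]
        omega
      · intro m hm _
        rw [mem_Ioo] at hm
        apply mul_nonneg _ (sq_nonneg _)
        have h3 : |(m : ℝ)| ≤ ((2 * K : ℕ) : ℝ) := by
          have h4 : |m| ≤ ((2 * K : ℕ) : ℤ) := by
            rw [abs_le]; omega
          exact_mod_cast h4
        linarith
    rw [← Finset.mul_sum] at h1
    have h2 := h1.trans hG
    have hLA : 0 < L ^ A := by positivity
    have h3 : (N : ℝ) * ((2 * K : ℕ) : ℝ) ^ 2 / L ^ A * ∑ t ∈ Icc (-(Z : ℤ)) Z, ff z Z t ^ 2 ≤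
        (N : ℝ) * ((2 * K : ℕ) : ℝ) ^ 2 / L ^ A * (4 * N * L ^ 2) :=
      mul_le_mul_of_nonneg_left hss2 (by positivity)
    have h4 : (K : ℝ) * ∑ k ∈ Icc 1 K, AC (ff z Z) Z (k : ℤ) ^ 2 ≤ K * (16 * N ^ 2 * K * L ^ 2 / L ^ A) := by
      refine (h2.trans h3).trans (le_of_eq ?_)
      push_cast
      field_simp
      ring
    exact le_of_mul_le_mul_left h4 hK0

lemma refl_AC (f : ℤ → ℝ) (Z : ℕ) (k : ℤ) : AC (fun m => f (-m)) Z k = AC f Z (-k) := by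
  unfold AC
  refine Finset.sum_nbij' (fun t => -t) (fun t => -t) ?_ ?_ ?_ ?_ ?_
  · intro t ht; simp only [mem_Icc] at ht ⊢; omega
  · intro t ht; simp only [mem_Icc] at ht ⊢; omega
  · intro t _; ring
  · intro t _; ring
  · intro t _
    congr 2
    ring

/-- primes minus model with a sign, mean square -/
theorem sq_sign (hMKT : S_MKT (1 / 3)) (e A B : ℕ) (he : 1 ≤ e) : ∃ E₀ : ℕ, ∀ E₁ : ℕ, ∃ N₀ : ℕ, ∀ N : ℕ, N₀ ≤ N →
    ∀ z : ℕ, (Real.log N) ^ E₀ ≤ z → (z : ℝ) ≤ (Real.log N) ^ E₁ →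
    ∀ a b : ℤ, 1 ≤ a → (a : ℝ) ≤ (Real.log N) ^ B → |b| ≤ 2 * a → ∀ M Y h : ℕ, 1 ≤ h → 7 * h ≤ Y →
    (N : ℝ) ^ (1 / 3 + 1 / e : ℝ) ≤ Y → 36 * a * (Y : ℤ) ^ 2 + 3 * M ≤ N → ∀ σ : ℤ, (σ = 1 ∨ σ = -1) →
    ∑ c ∈ Icc (-(M : ℤ)) M, ∑ u ∈ Icc 1 Y, (∑ t ∈ Icc 1 h, Ed z (σ * (c + qv a b (u + t)))) ^ 2 ≤
      N * Y * h ^ 2 * (4 * Real.log N ^ 2 / h + 1 / Real.log N ^ A) := by
  obtain ⟨A', hA'⟩ : ∃ A' : ℕ, A' = 2 * A + 2 * B + 7 := ⟨_, rfl⟩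
  obtain ⟨E₀, hE₀⟩ := acsum hMKT e A' he
  refine ⟨E₀, fun E₁ => ?_⟩
  obtain ⟨N₁, hN₁⟩ := hE₀ E₁
  obtain ⟨N₂, hN₂⟩ := ev_L' 200
  refine ⟨N₁ + N₂ + 1, ?_⟩
  intro N hN z hz1 hz2 a b ha haL hb M Y h hh hY hYN hN2 σ hσ
  have hN0 : (1 : ℝ) ≤ N := by exact_mod_cast (by omega : 1 ≤ N)
  have hLL := hN₂ N (by omega)
  have hac := hN₁ N (by omega) z hz1 hz2
  obtain ⟨L, hL⟩ : ∃ L : ℝ, L = Real.log N := ⟨_, rfl⟩
  rw [← hL] at hLL hac haL ⊢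
  have hL1 : 1 ≤ L := by linarith
  have hL0 : 0 < L := by linarith
  have hYZ : (7 : ℤ) * h ≤ Y := by exact_mod_cast hY
  have hhZ : (1 : ℤ) ≤ h := by exact_mod_cast hh
  have haR : (1 : ℝ) ≤ a := by exact_mod_cast ha
  obtain ⟨Z, hZ⟩ : ∃ Z : ℕ, Z = 12 * a.toNat * Y ^ 2 + M := ⟨_, rfl⟩
  have haZ : ((a.toNat : ℕ) : ℤ) = a := Int.toNat_of_nonneg (by omega)
  have hZZ : (Z : ℤ) = 12 * a * (Y : ℤ) ^ 2 + M := by
    rw [hZ]; push_cast; rw [Int.toNat_of_nonneg (show (0 : ℤ) ≤ a by omega)]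
  obtain ⟨K, hK⟩ : ∃ K : ℕ, K = h * (a.toNat * (2 * (Y + h) + h + 2)) := ⟨_, rfl⟩
  have hKZ : (K : ℤ) = h * (a * (2 * (Y + h) + h + 2)) := by
    rw [hK]; push_cast; rw [Int.toNat_of_nonneg (show (0 : ℤ) ≤ a by omega)]
  have hKR : (K : ℝ) = h * (a * (2 * (Y + h) + h + 2)) := by exact_mod_cast hKZ
  have hYR : (7 : ℝ) * h ≤ Y := by exact_mod_cast hY
  have hhR : (1 : ℝ) ≤ h := by exact_mod_cast hh
  have hK7 : (K : ℝ) ≤ 3 * a * h * Y := by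
    rw [hKR]
    have h1 : 2 * ((Y : ℝ) + h) + h + 2 ≤ 3 * Y := by linarith
    calc (h : ℝ) * (a * (2 * (Y + h) + h + 2)) ≤ h * (a * (3 * Y)) := by gcongr
      _ = 3 * a * h * Y := by ring
  have hKY : (Y : ℝ) ≤ K := by
    rw [hKR]
    have h1 : (Y : ℝ) ≤ 2 * ((Y : ℝ) + h) + h + 2 := by linarith
    calc (Y : ℝ) = 1 * (1 * Y) := by ring
      _ ≤ h * (a * (2 * (Y + h) + h + 2)) := by gcongr
  have hK6 : 6 * K ≤ N := by
    have h1 : 6 * (K : ℝ) ≤ 36 * a * (Y : ℝ) ^ 2 := by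
      calc 6 * (K : ℝ) ≤ 6 * (3 * a * h * Y) := by linarith
        _ = (18 / 7) * a * (7 * h) * Y := by ring
        _ ≤ (18 / 7) * a * Y * Y := by gcongr
        _ ≤ 36 * a * (Y : ℝ) ^ 2 := by
          have : 0 ≤ a * (Y : ℝ) ^ 2 := by positivity
          nlinarith
    have h2 : 36 * (a : ℝ) * (Y : ℝ) ^ 2 + 3 * M ≤ N := by exact_mod_cast hN2
    have h3 : (0 : ℝ) ≤ M := Nat.cast_nonneg _
    have h4 : 6 * (K : ℝ) ≤ N := by linarith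
    exact_mod_cast h4
  have hY1 : (1 : ℤ) ≤ Y := by omega
  have haY : (1 : ℤ) ≤ a * (Y : ℤ) ^ 2 := by
    have : (1 : ℤ) ≤ (Y : ℤ) ^ 2 := by nlinarith
    nlinarith
  obtain ⟨hac0, hacS⟩ := hac Z K (by
    have : (3 : ℤ) * Z ≤ N := by rw [hZZ]; linarith
    exact_mod_cast this) hK6 (by
    have : (1 : ℤ) ≤ Z := by rw [hZZ]; have : (0 : ℤ) ≤ M := Int.natCast_nonneg _; linarith
    exact_mod_cast this) (hYN.trans hKY)
  -- the function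
  set f : ℤ → ℝ := fun m => ff z Z (σ * m) with hf
  have hfs : ∀ m, f m ≠ 0 → |m| ≤ Z := by
    intro m hm
    have h1 := ff_supp z Z _ hm
    rcases hσ with h2 | h2 <;> rw [h2] at h1
    · rwa [one_mul] at h1
    · rwa [neg_one_mul, abs_neg] at h1
  have hfAC : ∀ k, AC f Z k = AC (ff z Z) Z k := by
    intro k
    rcases hσ with h2 | h2
    · rw [hf, h2]
      simp only [one_mul]
    · have h3 := refl_AC (ff z Z) Z k
      rw [AC_neg (ff z Z) Z (ff_supp z Z)] at h3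
      rw [hf, h2]
      simp only [neg_one_mul]
      exact h3
  have hw := wincor f Z hfs a b ha hb M Y h K (by
    rw [hKZ]
    push_cast
    exact le_rfl) (16 * N ^ 2 * K * L ^ 2 / L ^ A') (by
    refine le_trans (le_of_eq ?_) hacS
    refine Finset.sum_congr rfl fun k _ => ?_
    rw [hfAC])
  rw [hfAC] at hw
  have hval : ∀ c ∈ Icc (-(M : ℤ)) M, ∀ u ∈ Icc 1 Y, ∀ t ∈ Icc 1 h,
      Ed z (σ * (c + qv a b (u + t))) = f (c + qv a b (u + t)) := by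
    intro c hc u hu t ht
    rw [mem_Icc] at hc hu ht
    rw [hf]
    dsimp only
    rw [ff_eq]
    have h1 := qv_bd a b ha hb (2 * Y) (u + t) (by rw [mem_Icc]; omega)
    have h2 : 3 * a * ((2 * Y : ℕ) : ℤ) ^ 2 = 12 * a * (Y : ℤ) ^ 2 := by push_cast; ring
    rw [h2] at h1
    have h3 := abs_le.1 h1
    rw [hZZ]
    rcases hσ with h4 | h4 <;> rw [h4]
    · linarith [h3.2]
    · linarith [h3.1]
  have hsum : ∑ c ∈ Icc (-(M : ℤ)) M, ∑ u ∈ Icc 1 Y, (∑ t ∈ Icc 1 h, Ed z (σ * (c + qv a b (u + t)))) ^ 2 =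
      ∑ c ∈ Icc (-(M : ℤ)) M, ∑ u ∈ Icc 1 Y, (∑ t ∈ Icc 1 h, f (c + qv a b (u + t))) ^ 2 := by
    refine Finset.sum_congr rfl fun c hc => Finset.sum_congr rfl fun u hu => ?_
    rw [Finset.sum_congr rfl (fun t ht => hval c hc u hu t ht)]
  rw [hsum]
  refine hw.trans ?_
  have hKN : (K : ℝ) ≤ N := by exact_mod_cast (by omega : K ≤ N)
  have hlK : Real.log K ≤ L := by
    rw [hL]
    exact Real.log_le_log (by linarith) hKN
  have hlK0 : 0 ≤ Real.log K := Real.log_natCast_nonneg _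
  have hr : √(K * (1 + Real.log K) ^ 3 * (16 * N ^ 2 * K * L ^ 2 / L ^ A')) ≤ 12 * K * N / L ^ (A + B + 1) := by
    apply Real.sqrt_le_iff.2
    refine ⟨by positivity, ?_⟩
    have h1 : (1 + Real.log K) ^ 3 ≤ (2 * L) ^ 3 := pow_le_pow_left₀ (by linarith) (by linarith) 3
    have e1 : L ^ A' = L ^ (A + B + 1) * L ^ (A + B + 1) * L ^ 5 := by
      rw [← pow_add, ← pow_add, hA']
      congr 1
      ring
    calc (K : ℝ) * (1 + Real.log K) ^ 3 * (16 * N ^ 2 * K * L ^ 2 / L ^ A')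
        ≤ (K : ℝ) * (2 * L) ^ 3 * (16 * N ^ 2 * K * L ^ 2 / L ^ A') := by gcongr
      _ = 128 * K ^ 2 * N ^ 2 / (L ^ (A + B + 1) * L ^ (A + B + 1)) := by
          rw [e1]
          field_simp
          ring
      _ ≤ 144 * K ^ 2 * N ^ 2 / (L ^ (A + B + 1) * L ^ (A + B + 1)) := by
          apply div_le_div_of_nonneg_right _ (by positivity)
          have : (0 : ℝ) ≤ K ^ 2 * N ^ 2 := by positivity
          nlinarith
      _ = (12 * K * N / L ^ (A + B + 1)) ^ 2 := by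
          field_simp
          ring
  have hY0 : (0 : ℝ) ≤ Y := Nat.cast_nonneg _
  calc (Y : ℝ) * h * AC (ff z Z) Z 0 + 2 * h * √(K * (1 + Real.log K) ^ 3 * (16 * N ^ 2 * K * L ^ 2 / L ^ A'))
      ≤ (Y : ℝ) * h * (4 * N * L ^ 2) + 2 * h * (12 * K * N / L ^ (A + B + 1)) := by gcongr
    _ ≤ (Y : ℝ) * h * (4 * N * L ^ 2) + 2 * h * (12 * (3 * L ^ B * h * Y) * N / L ^ (A + B + 1)) := by
        gcongr
        exact hK7.trans (by gcongr)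
    _ = N * Y * h ^ 2 * (4 * L ^ 2 / h + 72 / (L * L ^ A)) := by
        have e1 : L ^ (A + B + 1) = L ^ A * L ^ B * L := by rw [pow_succ, pow_add]
        rw [e1]
        field_simp
        ring
    _ ≤ N * Y * h ^ 2 * (4 * L ^ 2 / h + 1 / L ^ A) := by
        apply mul_le_mul_of_nonneg_left _ (by positivity)
        apply add_le_add le_rfl
        rw [div_le_div_iff₀ (by positivity) (by positivity)]
        have : 0 < L ^ A := by positivity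
        nlinarith

end Pool.Agent.H79.W.Prm
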