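import Pool.Agent.H79.W.Mean

/-!
Primes with logarithmic weights at the values of `a m² + b m + c` in windows, for almost all `c`.
-/

set_option autoImplicit false

namespace Pool.Agent.H79.W.Tot

open Finset Polynomial
open Pool.Agent.helper24_UT
open Pool.Agent.H373R2.T7 (Vz pz mem_pz Vz_pos Vz_inv_small ev_log' ev_L')
open Pool.Agent.H79.Q.En (qv tau tau_nonneg)
open Pool.Agent.H79.Q.Core (lz_bd sg_le)
open Pool.Agent.H79.Q.Fac (qF qF_eval qF_deg)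
open Pool.Agent.H79.Q.Th (df tp)
open Pool.Agent.H79.W.Mod (Fw var)
open Pool.Agent.H79.W.Prl (cs2 prm)
open Pool.Agent.H79.W.Mean (sg_nonneg modvar mean)

theorem modl (E A B : ℕ) : ∃ N₀ : ℕ, ∀ N : ℕ, N₀ ≤ N → ∀ z : ℕ, 1 ≤ z → (z : ℝ) ≤ (Real.log N) ^ E →
    ∀ a b : ℤ, 1 ≤ a → (a : ℝ) ≤ (Real.log N) ^ B → |b| ≤ 2 * a → ∀ M Y h : ℕ, 2 * M + 1 ≤ N →
    (Real.log N) ^ (14 * A + 6 * B + 47) ≤ h → h * (Real.log N) ^ (A + 3) ≤ Y → 36 * a * (Y : ℤ) ^ 2 ≤ N →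
    Real.exp (Real.sqrt (Real.log N)) ≤ Y →
    ∑ c ∈ Icc (-(M : ℤ)) M, ∑ u ∈ Icc 1 Y, |Fw z a b h c u - h * sg z (qF a b c)| ≤ N * Y * h / (Real.log N) ^ A := by
  obtain ⟨N₁, hN₁⟩ := modvar E (A + 1) B
  obtain ⟨N₂, hN₂⟩ := Vz_inv_small E
  obtain ⟨N₃, hN₃⟩ := ev_L' 10
  obtain ⟨N₄, hN₄⟩ := Mtl.main 1 2 E (A + 2)
  refine ⟨N₁ + N₂ + N₃ + N₄ + 1, ?_⟩
  intro N hN z hz1 hz2 a b ha haL hb M Y h hM hh hhY hN36 hYe
  have hV := hN₂ N (by omega) z hz1 hz2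
  have hL := hN₃ N (by omega)
  have hmt := hN₄ N (by omega) z hz1 hz2
  have hmv := hN₁ N (by omega) z hz1 hz2 a b ha haL hb M Y h hM
  have hN0 : (1 : ℝ) ≤ N := by exact_mod_cast (by omega : 1 ≤ N)
  obtain ⟨L, hLd⟩ : ∃ L : ℝ, L = Real.log N := ⟨_, rfl⟩
  rw [← hLd] at hmv hV hL haL hh hmt hhY hYe ⊢
  have hL1 : 1 ≤ L := by linarith
  have hL0 : 0 < L := by linarith
  have hhR : (1 : ℝ) ≤ h := (one_le_pow₀ hL1).trans hh
  have hLA3 : 1 ≤ L ^ (A + 3) := one_le_pow₀ hL1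
  have hhYR : (h : ℝ) ≤ Y := by
    refine le_trans ?_ hhY
    nlinarith
  have hhYN : h ≤ Y := by exact_mod_cast hhYR
  have hY0 : (1 : ℝ) ≤ Y := hhR.trans hhYR
  have hY1 : 1 ≤ Y := by exact_mod_cast hY0
  have hv := hmv (by
    refine le_trans (le_of_eq ?_) hh
    congr 1
    ring) hhYN hN36
  have hMc : (((Icc (-(M : ℤ)) M).card : ℕ) : ℝ) ≤ N := by
    rw [Int.card_Icc]
    have e1 : ((M : ℤ) + 1 - -(M : ℤ)).toNat ≤ N := by omega
    exact_mod_cast e1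
  have hUc : (((Icc 1 Y).card : ℕ) : ℝ) ≤ Y := by
    rw [Nat.card_Icc, Nat.add_sub_cancel]
  obtain ⟨m, hm⟩ : ∃ m : ℤ → ℝ, m = fun c => (∑ u ∈ Icc 1 Y, Fw z a b h c u) / Y := ⟨_, rfl⟩
  have h1 : ∑ c ∈ Icc (-(M : ℤ)) M, ∑ u ∈ Icc 1 Y, |Fw z a b h c u - m c| ≤ N * Y * h * (1 / L ^ (A + 2)) := by
    refine cs2 _ _ _ N Y h (1 / L ^ (A + 2)) (by linarith) (by linarith) (by linarith) (by positivity) hMc hUc ?_
    refine le_trans (le_of_eq ?_) hv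
    refine Finset.sum_congr rfl fun c _ => ?_
    have e1 : ∀ u ∈ Icc 1 Y, (Fw z a b h c u - m c) ^ 2 = Fw z a b h c u ^ 2 - 2 * m c * Fw z a b h c u + m c ^ 2 := by
      intro u _
      ring
    rw [Finset.sum_congr rfl e1, Finset.sum_add_distrib, Finset.sum_sub_distrib, ← Finset.mul_sum, Finset.sum_const,
      Nat.card_Icc, Nat.add_sub_cancel, nsmul_eq_mul, hm]
    field_simp
    ring
  have h2 : ∀ c ∈ Icc (-(M : ℤ)) M, |m c - h * sg z (qF a b c)| ≤ 4 * h / L ^ (A + 2) := by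
    intro c _
    have h3 := mean z a b c h Y L (1 / L ^ (A + 2)) hV hY1 (fun y hy => by
      have h4 := hmt (qF a b c) (qF_deg a b c) y (hYe.trans (by exact_mod_cast hy))
      refine h4.trans (le_of_eq ?_)
      ring) (by positivity)
    have h5 : m c - h * sg z (qF a b c) = ((∑ u ∈ Icc 1 Y, Fw z a b h c u) - Y * (h * sg z (qF a b c))) / Y := by
      rw [hm]
      field_simp
    rw [h5, abs_div, abs_of_pos (by linarith : (0 : ℝ) < Y), div_le_iff₀ (by linarith)]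
    refine h3.trans ?_
    have h6 : 2 * h * L ≤ 2 * (Y / L ^ (A + 2)) := by
      have : (h : ℝ) * L ≤ Y / L ^ (A + 2) := by
        rw [le_div_iff₀ (by positivity)]
        refine le_trans (le_of_eq ?_) hhY
        ring
      linarith
    have h7 : (Y + h) * (1 / L ^ (A + 2)) ≤ 2 * (Y / L ^ (A + 2)) := by
      rw [mul_one_div, ← mul_div_assoc]
      apply div_le_div_of_nonneg_right _ (by positivity)
      linarith
    calc (h : ℝ) * ((Y + h) * (1 / L ^ (A + 2)) + 2 * h * L) ≤ h * (2 * (Y / L ^ (A + 2)) + 2 * (Y / L ^ (A + 2))) :=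
          mul_le_mul_of_nonneg_left (add_le_add h7 h6) (by linarith)
      _ = 4 * h / L ^ (A + 2) * Y := by ring
  have h3 : ∑ c ∈ Icc (-(M : ℤ)) M, ∑ u ∈ Icc 1 Y, |Fw z a b h c u - h * sg z (qF a b c)| ≤
      ∑ c ∈ Icc (-(M : ℤ)) M, ∑ u ∈ Icc 1 Y, |Fw z a b h c u - m c| + ((Icc (-(M : ℤ)) M).card : ℝ) * (Y * (4 * h / L ^ (A + 2))) := by
    rw [← nsmul_eq_mul, ← Finset.sum_const, ← Finset.sum_add_distrib]
    refine Finset.sum_le_sum fun c hc => ?_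
    have h4 : (Y : ℝ) * (4 * h / L ^ (A + 2)) = ∑ _u ∈ Icc 1 Y, 4 * h / L ^ (A + 2) := by
      rw [Finset.sum_const, Nat.card_Icc, Nat.add_sub_cancel, nsmul_eq_mul]
    rw [h4, ← Finset.sum_add_distrib]
    refine Finset.sum_le_sum fun u _ => ?_
    have h5 := h2 c hc
    have h6 : Fw z a b h c u - h * sg z (qF a b c) = (Fw z a b h c u - m c) + (m c - h * sg z (qF a b c)) := by ring
    rw [h6]
    refine (abs_add_le _ _).trans ?_
    linarith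
  have h4 : ((Icc (-(M : ℤ)) M).card : ℝ) * (Y * (4 * h / L ^ (A + 2))) ≤ N * (Y * (4 * h / L ^ (A + 2))) :=
    mul_le_mul_of_nonneg_right hMc (by positivity)
  have h5 : N * Y * h * (1 / L ^ (A + 2)) + N * (Y * (4 * h / L ^ (A + 2))) ≤ N * Y * h / L ^ A := by
    have e1 : L ^ (A + 2) = L ^ A * L ^ 2 := pow_add _ _ _
    have e2 : N * Y * h * (1 / L ^ (A + 2)) + N * (Y * (4 * h / L ^ (A + 2))) = N * Y * h / L ^ A * (5 / L ^ 2) := by
      rw [e1]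
      field_simp
      ring
    rw [e2]
    refine mul_le_of_le_one_right (by positivity) ?_
    rw [div_le_one (by positivity)]
    nlinarith
  linarith

/-- **The total.** -/
theorem tot (hMKT : S_MKT (1 / 3)) (e A B : ℕ) (he : 1 ≤ e) : ∃ E₀ : ℕ, ∀ E₁ : ℕ, ∃ N₀ : ℕ, ∀ N : ℕ, N₀ ≤ N →
    ∀ z : ℕ, (Real.log N) ^ E₀ ≤ z → (z : ℝ) ≤ (Real.log N) ^ E₁ →
    ∀ a b : ℤ, 1 ≤ a → (a : ℝ) ≤ (Real.log N) ^ B → |b| ≤ 2 * a → ∀ M Y h : ℕ,
    (Real.log N) ^ (14 * A + 6 * B + 61) ≤ h → h * (Real.log N) ^ (A + 4) ≤ Y →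
    (N : ℝ) ^ (1 / 3 + 1 / e : ℝ) ≤ Y → 36 * a * (Y : ℤ) ^ 2 + 3 * M ≤ N →
    ∑ c ∈ Icc (-(M : ℤ)) M, ∑ u ∈ Icc 1 Y, |∑ t ∈ Icc 1 h, tp (qv a b (u + t) + c) - h * sg z (qF a b c)| ≤
      N * Y * h / (Real.log N) ^ A := by
  obtain ⟨E₀, hE₀⟩ := prm hMKT e (A + 1) B he
  refine ⟨E₀, fun E₁ => ?_⟩
  obtain ⟨N₁, hN₁⟩ := hE₀ E₁
  obtain ⟨N₂, hN₂⟩ := modl E₁ (A + 1) B
  obtain ⟨N₃, hN₃⟩ := ev_L' 10
  refine ⟨N₁ + N₂ + N₃ + 8, ?_⟩
  intro N hN z hz1 hz2 a b ha haL hb M Y h hh hhY hYN hN36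
  have hL := hN₃ N (by omega)
  have hp := hN₁ N (by omega) z hz1 hz2 a b ha haL hb M Y h
  have hm := hN₂ N (by omega) z
  have hN0 : (1 : ℝ) ≤ N := by exact_mod_cast (by omega : 1 ≤ N)
  obtain ⟨L, hLd⟩ : ∃ L : ℝ, L = Real.log N := ⟨_, rfl⟩
  rw [← hLd] at hp hm hL haL hh hhY hz1 hz2 ⊢
  have hL1 : 1 ≤ L := by linarith
  have hL0 : 0 < L := by linarith
  have hz0 : 1 ≤ z := by
    have h1 : (1 : ℝ) ≤ z := (one_le_pow₀ hL1).trans hz1
    exact_mod_cast h1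
  have haY0 : (0 : ℤ) ≤ a * (Y : ℤ) ^ 2 := by positivity
  have hM3 : 3 * (M : ℤ) ≤ N := by linarith
  have hhR : (1 : ℝ) ≤ h := (one_le_pow₀ hL1).trans hh
  have hp1 := hp ((pow_le_pow_right₀ hL1 (by omega)).trans hh) (by
    have h1 : (7 : ℝ) * h ≤ Y := by
      refine le_trans ?_ hhY
      have h2 : (7 : ℝ) ≤ L ^ (A + 4) := by
        calc (7 : ℝ) ≤ L := by linarith
          _ = L ^ 1 := (pow_one L).symm
          _ ≤ L ^ (A + 4) := pow_le_pow_right₀ hL1 (by omega)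
      nlinarith
    exact_mod_cast h1) hYN hN36
  have hm1 := hm hz0 hz2 a b ha haL hb M Y h (by omega) (by
      refine le_trans (le_of_eq ?_) hh
      congr 1
      ring) hhY (by
      have : (0 : ℤ) ≤ M := Int.natCast_nonneg _
      linarith) (by
      refine le_trans ?_ hYN
      rw [Real.rpow_def_of_pos (by linarith), ← hLd]
      apply Real.exp_le_exp.2
      have h1 : √L ≤ L / 3 := by
        rw [Real.sqrt_le_left (by positivity)]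
        nlinarith
      have h2 : (0 : ℝ) ≤ 1 / e := by positivity
      nlinarith)
  have h1 : ∑ c ∈ Icc (-(M : ℤ)) M, ∑ u ∈ Icc 1 Y, |∑ t ∈ Icc 1 h, tp (qv a b (u + t) + c) - h * sg z (qF a b c)| ≤
      ∑ c ∈ Icc (-(M : ℤ)) M, ∑ u ∈ Icc 1 Y, |∑ t ∈ Icc 1 h, df z (qv a b (u + t) + c)| +
        ∑ c ∈ Icc (-(M : ℤ)) M, ∑ u ∈ Icc 1 Y, |Fw z a b h c u - h * sg z (qF a b c)| := by
    rw [← Finset.sum_add_distrib]
    refine Finset.sum_le_sum fun c _ => ?_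
    rw [← Finset.sum_add_distrib]
    refine Finset.sum_le_sum fun u _ => ?_
    have h2 : ∑ t ∈ Icc 1 h, tp (qv a b (u + t) + c) - h * sg z (qF a b c) =
        ∑ t ∈ Icc 1 h, df z (qv a b (u + t) + c) + (Fw z a b h c u - h * sg z (qF a b c)) := by
      unfold df Fw
      rw [Finset.sum_sub_distrib]
      ring
    rw [h2]
    exact abs_add_le _ _
  refine h1.trans ((add_le_add hp1 hm1).trans ?_)
  have e1 : L ^ (A + 1) = L ^ A * L := pow_succ _ _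
  have e2 : (N : ℝ) * Y * h / L ^ (A + 1) + N * Y * h / L ^ (A + 1) = N * Y * h / L ^ A * (2 / L) := by
    rw [e1]
    field_simp
    ring
  rw [e2]
  refine mul_le_of_le_one_right (by positivity) ?_
  rw [div_le_one hL0]
  linarith

end Pool.Agent.H79.W.Tot
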