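import Pool.Agent.H79.W.Wone
import Pool.Agent.H79.W.Tot
import Pool.Agent.H79.Q.Asm

/-!
Primes in windows for all polynomials of discriminant `D`, for almost all `D`.
-/

set_option autoImplicit false

namespace Pool.Agent.H79.W.WFin

open Finset Polynomial Filter Topology
open Pool.Agent.helper24_UT
open Pool.Agent.H373R2.T7 (pz mem_pz Vz Vz_pos Vz_inv_small ev_L')
open Pool.Agent.Results.MP_a1177c_nt.AllTriples (Admissible eps gcdProd partialC)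
open Pool.Agent.H79.Q (t_LE t_MKT)
open Pool.Agent.H79.Q.Fac (qF)
open Pool.Agent.H79.Q.Th (tp)
open Pool.Agent.H79.Q.En (qv)
open Pool.Agent.H79.Q.Cst (GC)
open Pool.Agent.H79.Q.One (c0 c0_bd res_bd disc)
open Pool.Agent.H79.W.Cn (fv windowCount)
open Pool.Agent.H79.W.Wone (GoodWin)

lemma n1 (x t : ℝ) (hx : 1 ≤ x) (ht : 0 ≤ t) : 2 * t ≤ 8 * (t * x) := by nlinarith

lemma n2 (x L : ℝ) (hx : 5000 ≤ x) (h : L ≤ 2 * x) : L ≤ x ^ 2 := by nlinarith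

lemma n3 (x : ℝ) (hx : 5000 ≤ x) : 1400 ≤ x ^ 2 := by nlinarith

lemma n4 (t L z : ℝ) (ht : 1 ≤ t) (hL : 2 ≤ L) (hz : z < t + 1) : z ≤ t * L := by nlinarith

lemma n5 (m t : ℝ) (hm : 0 ≤ m) (hmt : m ≤ t) (ht : 1 ≤ t) : m * (4 * m + 1) ≤ 5 * t ^ 2 := by nlinarith

lemma n6 (a Y X N : ℤ) (ha : 1 ≤ a) (hY : 1 ≤ Y) (hX : 0 ≤ X) (h : 36 * a * Y ^ 2 + 6 * X ≤ N) : Y ≤ N := by
  have h4 : Y ≤ Y ^ 2 := by nlinarith
  have h5 : Y ^ 2 ≤ a * Y ^ 2 := by nlinarith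
  nlinarith

lemma n7 (i L l : ℝ) (hi : 0 ≤ i) (hl : 1 / 2 ≤ l) (h : i * l ≤ L) : i ≤ 2 * L := by nlinarith

lemma n8 (s t u : ℝ) (hs : 128 ≤ s) (ht : 0 ≤ t * u) : 32 * t * (4 * u) ≤ 1 * (s * t * u) := by nlinarith

lemma n9 (s t : ℝ) (hs : 1 ≤ s) (ht : 5000 ≤ t) : 8 ≤ s * t ^ 2 := by nlinarith

open Classical in
/-- the conclusion for the discriminant `D` -/
def HoldsW (e A B B' X : ℕ) (D : ℤ) : Prop :=
  ∀ a b c : ℤ, Admissible a b c → b ^ 2 - 4 * a * c = D → (a : ℝ) ≤ Real.log X ^ B →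
    ∃ S : ℝ, 0 < S ∧ Tendsto (fun z => partialC a b c z) atTop (𝓝 S) ∧
      ∀ y h : ℕ, (X : ℝ) ^ (1 / 3 + 1 / e : ℝ) ≤ y → (y : ℝ) ≤ Real.sqrt X * Real.log X ^ B →
        (|b| : ℝ) ≤ y * Real.log X ^ B → Real.log X ^ B' ≤ h → h * Real.log X ^ B' ≤ y →
        (((Icc 1 y).filter (fun u => ¬ GoodWin a b c (eps a b * S * gcdProd a b) (1 / Real.log X ^ A) u h)).card : ℝ) ≤
          y / Real.log X ^ A

open Classical in
theorem main (A B : ℕ) : ∃ B' : ℕ, ∀ e : ℕ, 1 ≤ e → ∃ X₀ : ℕ, ∀ X : ℕ, X₀ ≤ X →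
    (((Icc (-(X : ℤ)) X).filter (fun D => ¬ HoldsW e A B B' X D)).card : ℝ) ≤ X / Real.log X ^ A := by
  obtain ⟨A1, hA1⟩ : ∃ A1 : ℕ, A1 = A + 7 * B + 8 := ⟨_, rfl⟩
  obtain ⟨K, hK⟩ : ∃ K : ℕ, K = A + 1 := ⟨_, rfl⟩
  obtain ⟨A3, hA3⟩ : ∃ A3 : ℕ, A3 = 2 * A + 2 * B + 5 := ⟨_, rfl⟩
  obtain ⟨A5, hA5⟩ : ∃ A5 : ℕ, A5 = A3 + A1 + 1 := ⟨_, rfl⟩
  obtain ⟨H, hH⟩ : ∃ H : ℕ, H = 14 * A5 + 6 * B + 61 := ⟨_, rfl⟩
  refine ⟨2 * (H + 2 * A + 2 * B + 6), fun e he => ?_⟩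
  obtain ⟨Ea, hEa⟩ := Tot.tot t_MKT (2 * e) A5 B (by omega)
  obtain ⟨Eb, hEb⟩ := Pool.Agent.H79.Q.Cst.cst t_LE A1 K
  obtain ⟨E, hE⟩ : ∃ E : ℕ, E = Ea + Eb + B + 1 := ⟨_, rfl⟩
  obtain ⟨N₁, hN₁⟩ := hEa (E + 1)
  obtain ⟨N₂, hN₂⟩ := hEb (E + 1)
  obtain ⟨N₄, hN₄⟩ := Vz_inv_small (E + 1)
  obtain ⟨N₅, hN₅⟩ := ev_L' 5000
  obtain ⟨N₆, hN₆⟩ := Dp.big 2 (by norm_num) (5 * B + 2) 1 (2 * e) (by omega)
  obtain ⟨N₇, hN₇⟩ := Dp.big 2 (by norm_num) (H + A5 + 4) 1 3 (by omega)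
  obtain ⟨N₈, hN₈⟩ := Dp.big 8 (by norm_num) (5 * B + 2 + A) 1 1 (by omega)
  refine ⟨N₁ + N₂ + N₄ + N₅ + N₆ + N₇ + N₈ + 4, ?_⟩
  intro X hX
  have hX1 : 1 ≤ X := by omega
  have hXR : (1 : ℝ) ≤ X := by exact_mod_cast hX1
  have hX0 : (0 : ℝ) < X := lt_of_lt_of_le one_pos hXR
  have hLx := hN₅ X (by omega)
  have hb6 := hN₆ X (by omega)
  have hb8 := hN₈ X (by omega)
  rw [pow_one] at hb6 hb8
  obtain ⟨Lx, hLxd⟩ : ∃ Lx : ℝ, Lx = Real.log X := ⟨_, rfl⟩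
  rw [← hLxd] at hLx hb6 hb8
  have hLx0 : 0 < Lx := by linarith
  have hLx1 : 1 ≤ Lx := by linarith
  have hb8' : 8 * Lx ^ (5 * B + 2 + A) ≤ X := by
    have h1 : (X : ℝ) ^ (1 / ((1 : ℕ) : ℝ)) = X := by simp
    rwa [h1] at hb8
  -- the parameters
  obtain ⟨M, hM⟩ : ∃ M : ℕ, M = ⌈Lx ^ (5 * B + 2)⌉₊ := ⟨_, rfl⟩
  have hLp : 1 ≤ Lx ^ (5 * B + 2) := one_le_pow₀ hLx1
  have hM1 : Lx ^ (5 * B + 2) ≤ M := by rw [hM]; exact Nat.le_ceil _
  have hM2 : (M : ℝ) ≤ 2 * Lx ^ (5 * B + 2) := by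
    have : (M : ℝ) < Lx ^ (5 * B + 2) + 1 := by rw [hM]; exact Nat.ceil_lt_add_one (by linarith)
    linarith
  have hMR : (1 : ℝ) ≤ M := hLp.trans hM1
  have hM0 : 1 ≤ M := by exact_mod_cast hMR
  have hM0R : (0 : ℝ) ≤ M := Nat.cast_nonneg M
  have hLA1' : 1 ≤ Lx ^ A := one_le_pow₀ hLx1
  have hMX : (M : ℝ) ≤ X := by
    refine hM2.trans (le_trans ?_ hb8')
    rw [pow_add Lx (5 * B + 2) A]
    exact n1 _ _ hLA1' (by linarith)
  obtain ⟨N, hN⟩ : ∃ N : ℕ, N = X * M := ⟨_, rfl⟩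
  have hNR : (N : ℝ) = X * M := by rw [hN]; push_cast; rfl
  have hXN : X ≤ N := by rw [hN]; exact Nat.le_mul_of_pos_right X (by omega)
  have hXNR : (X : ℝ) ≤ N := by exact_mod_cast hXN
  have hN0 : (0 : ℝ) < N := lt_of_lt_of_le hX0 hXNR
  obtain ⟨L, hL⟩ : ∃ L : ℝ, L = Real.log N := ⟨_, rfl⟩
  have hLL : Lx ≤ L := by rw [hLxd, hL]; exact Real.log_le_log hX0 hXNR
  have hLL2 : L ≤ 2 * Lx := by
    have h1 : (N : ℝ) ≤ (X : ℝ) ^ 2 := by
      rw [hNR, sq]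
      exact mul_le_mul_of_nonneg_left hMX hX0.le
    rw [hLxd, hL]
    calc Real.log N ≤ Real.log ((X : ℝ) ^ 2) := Real.log_le_log hN0 h1
      _ = 2 * Real.log X := by rw [Real.log_pow]; push_cast; ring
  have hL0 : 0 < L := by linarith
  have hL1 : 1 ≤ L := by linarith
  have hLsq : L ≤ Lx ^ 2 := n2 Lx L hLx hLL2
  have hNc : 1400 * X * Lx ^ (5 * B) ≤ N := by
    rw [hNR]
    calc 1400 * (X : ℝ) * Lx ^ (5 * B) = X * (1400 * Lx ^ (5 * B)) := by ring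
      _ ≤ X * M := by
        apply mul_le_mul_of_nonneg_left _ hX0.le
        refine le_trans ?_ hM1
        rw [pow_add, mul_comm]
        apply mul_le_mul_of_nonneg_left _ (by positivity)
        exact n3 Lx hLx
  have hb7 := hN₇ N (by omega)
  rw [pow_one, ← hL] at hb7
  obtain ⟨z, hz⟩ : ∃ z : ℕ, z = ⌈L ^ E⌉₊ := ⟨_, rfl⟩
  have hLE : 1 ≤ L ^ E := one_le_pow₀ hL1
  have hz1 : L ^ E ≤ z := by rw [hz]; exact Nat.le_ceil _
  have hz2 : (z : ℝ) ≤ L ^ (E + 1) := by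
    have : (z : ℝ) < L ^ E + 1 := by rw [hz]; exact Nat.ceil_lt_add_one (by linarith)
    rw [pow_succ]
    exact n4 _ _ _ hLE (by linarith) this
  have hzge : 2 ≤ z := by
    have : (2 : ℝ) ≤ z := by
      calc (2 : ℝ) ≤ L := by linarith
        _ = L ^ 1 := (pow_one _).symm
        _ ≤ L ^ E := pow_le_pow_right₀ hL1 (by omega)
        _ ≤ z := hz1
    exact_mod_cast this
  have hzB : L ^ B ≤ z := (pow_le_pow_right₀ hL1 (by omega)).trans hz1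
  obtain ⟨h0, hh0⟩ : ∃ h0 : ℕ, h0 = ⌈L ^ H⌉₊ := ⟨_, rfl⟩
  have hLH : 1 ≤ L ^ H := one_le_pow₀ hL1
  have hh01 : L ^ H ≤ h0 := by rw [hh0]; exact Nat.le_ceil _
  have hh02 : (h0 : ℝ) ≤ 2 * L ^ H := by
    have : (h0 : ℝ) < L ^ H + 1 := by rw [hh0]; exact Nat.ceil_lt_add_one (by linarith)
    linarith
  have hh03 : 1 ≤ h0 := by
    have : (1 : ℝ) ≤ h0 := hLH.trans hh01
    exact_mod_cast this
  have hP := hN₁ N (by omega) z (by rw [← hL]; exact (pow_le_pow_right₀ hL1 (by omega)).trans hz1)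
    (by rw [← hL]; exact hz2)
  have hC := hN₂ N (by omega) z (by rw [← hL]; exact (pow_le_pow_right₀ hL1 (by omega)).trans hz1)
    (by rw [← hL]; exact hz2)
  have hV := hN₄ N (by omega) z (by omega) (by rw [← hL]; exact hz2)
  rw [← hL] at hP hC hV
  rw [← hLxd]
  -- the exceptional sets
  obtain ⟨M', hM'⟩ : ∃ M' : ℕ, M' = ⌊Lx ^ B⌋₊ := ⟨_, rfl⟩
  have hLB0 : 0 ≤ Lx ^ B := by positivity
  have hM'R : (M' : ℝ) ≤ Lx ^ B := by rw [hM']; exact Nat.floor_le hLB0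
  obtain ⟨Φ, hΦ⟩ : ∃ Φ : ℤ → ℤ → ℕ → ℤ → ℝ, Φ = fun a b' i c =>
    ∑ u ∈ Icc 1 (2 ^ i), |∑ t ∈ Icc 1 h0, tp (qv a b' (u + t) + c) - h0 * sg z (qF a b' c)| := ⟨_, rfl⟩
  obtain ⟨Cd, hCd⟩ : ∃ Cd : (ℤ × ℤ) × ℕ → Prop, Cd = fun q => 1 ≤ q.1.1 ∧ |q.1.2| ≤ 2 * q.1.1 ∧
    (N : ℝ) ^ (1 / 3 + 1 / (2 * e : ℕ) : ℝ) ≤ ((2 ^ q.2 : ℕ) : ℝ) ∧ 36 * q.1.1 * ((2 ^ q.2 : ℕ) : ℤ) ^ 2 + 6 * X ≤ N := ⟨_, rfl⟩
  obtain ⟨BP, hBP⟩ : ∃ BP : (ℤ × ℤ) × ℕ → Finset ℤ, BP = fun q => if Cd q then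
    ((Icc (-((2 * X : ℕ) : ℤ)) (2 * X : ℕ)).filter (fun c =>
      ((2 ^ q.2 : ℕ) : ℝ) * h0 / L ^ A3 < Φ q.1.1 q.1.2 q.2 c)).image (fun c => q.1.2 ^ 2 - 4 * q.1.1 * c) else ∅ := ⟨_, rfl⟩
  obtain ⟨BC, hBC⟩ : ∃ BC : Finset ℤ, BC = (Icc (-(N : ℤ)) N).filter (fun D => ¬ IsSquare D ∧ ¬ GC K N z D) := ⟨_, rfl⟩
  obtain ⟨w, hw⟩ : ∃ w : ℕ, w = ⌊(X : ℝ) / Lx ^ (2 * A + 2)⌋₊ := ⟨_, rfl⟩
  obtain ⟨BS, hBS⟩ : ∃ BS : Finset ℤ, BS = Icc (-(w : ℤ)) w := ⟨_, rfl⟩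
  obtain ⟨J, hJ⟩ : ∃ J : ℕ, J = ⌊2 * L⌋₊ + 1 := ⟨_, rfl⟩
  obtain ⟨I, hI⟩ : ∃ I : Finset ((ℤ × ℤ) × ℕ), I = (Icc (1 : ℤ) M' ×ˢ Icc (-(2 * (M' : ℤ))) (2 * M')) ×ˢ range J := ⟨_, rfl⟩
  have hNL : (0 : ℝ) ≤ N / L ^ (A1 + 1) := by positivity
  have hBPc : ∀ q ∈ I, ((BP q).card : ℝ) ≤ N / L ^ (A1 + 1) := by
    intro q hq
    rw [hI, mem_product, mem_product, mem_Icc, mem_Icc] at hq
    rw [hBP]
    dsimp only
    split_ifs with h
    · rw [hCd] at h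
      obtain ⟨k1, k2, k3, k4⟩ := h
      have hpa : (q.1.1 : ℝ) ≤ L ^ B := by
        have h1 : (q.1.1 : ℝ) ≤ M' := by exact_mod_cast hq.1.1.2
        exact h1.trans (hM'R.trans (pow_le_pow_left₀ hLx0.le hLL B))
      have hY0 : (0 : ℝ) < ((2 ^ q.2 : ℕ) : ℝ) := by positivity
      have h2 := hP q.1.1 q.1.2 k1 hpa k2 (2 * X) (2 ^ q.2) h0 (by rw [← hH]; exact hh01) (by
        have h3 : (N : ℝ) ^ (1 / ((3 : ℕ) : ℝ)) ≤ (N : ℝ) ^ (1 / 3 + 1 / (2 * e : ℕ) : ℝ) := by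
          apply Real.rpow_le_rpow_of_exponent_le (hXR.trans hXNR)
          have : (0 : ℝ) ≤ 1 / (2 * e : ℕ) := by positivity
          push_cast at this ⊢
          linarith
        refine le_trans ?_ (hb7.trans (h3.trans k3))
        calc (h0 : ℝ) * L ^ (A5 + 4) ≤ (2 * L ^ H) * L ^ (A5 + 4) := mul_le_mul_of_nonneg_right hh02 (by positivity)
          _ = 2 * L ^ (H + A5 + 4) := by rw [mul_assoc, ← pow_add]; congr 2) k3 (by push_cast at k4 ⊢; linarith)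
      obtain ⟨Bd, hBd⟩ : ∃ Bd : Finset ℤ, Bd = (Icc (-((2 * X : ℕ) : ℤ)) (2 * X : ℕ)).filter (fun c =>
        ((2 ^ q.2 : ℕ) : ℝ) * h0 / L ^ A3 < Φ q.1.1 q.1.2 q.2 c) := ⟨_, rfl⟩
      rw [← hBd]
      have h3 : (Bd.card : ℝ) * (((2 ^ q.2 : ℕ) : ℝ) * h0 / L ^ A3) ≤ N * ((2 ^ q.2 : ℕ) : ℝ) * h0 / L ^ A5 := by
        refine le_trans ?_ h2
        calc (Bd.card : ℝ) * (((2 ^ q.2 : ℕ) : ℝ) * h0 / L ^ A3) = ∑ _c ∈ Bd, ((2 ^ q.2 : ℕ) : ℝ) * h0 / L ^ A3 := by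
              rw [sum_const, nsmul_eq_mul]
          _ ≤ ∑ c ∈ Bd, Φ q.1.1 q.1.2 q.2 c := by
              apply Finset.sum_le_sum
              intro c hc
              rw [hBd, mem_filter] at hc
              exact hc.2.le
          _ ≤ ∑ c ∈ Icc (-((2 * X : ℕ) : ℤ)) (2 * X : ℕ), Φ q.1.1 q.1.2 q.2 c := by
              apply Finset.sum_le_sum_of_subset_of_nonneg
              · rw [hBd]; exact filter_subset _ _
              · intro c _ _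
                rw [hΦ]
                exact Finset.sum_nonneg fun _ _ => abs_nonneg _
          _ = _ := by rw [hΦ]
      have hh0p : (0 : ℝ) < h0 := by exact_mod_cast hh03
      have h4 : (Bd.card : ℝ) * (((2 ^ q.2 : ℕ) : ℝ) * h0 / L ^ A3) ≤ (N / L ^ (A1 + 1)) * (((2 ^ q.2 : ℕ) : ℝ) * h0 / L ^ A3) := by
        refine h3.trans (le_of_eq ?_)
        have e1 : L ^ A5 = L ^ (A1 + 1) * L ^ A3 := by rw [← pow_add, hA5]; congr 1; ring
        rw [e1]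
        field_simp
      have h5 : (Bd.card : ℝ) ≤ N / L ^ (A1 + 1) := le_of_mul_le_mul_right h4 (by positivity)
      refine le_trans ?_ h5
      exact_mod_cast Finset.card_image_le
    · rw [card_empty, Nat.cast_zero]
      exact hNL
  have hBCc : (BC.card : ℝ) ≤ N / L ^ A1 := by rw [hBC]; exact hC
  have hBSc : (BS.card : ℝ) ≤ 2 * (X / Lx ^ (2 * A + 2)) + 1 := by
    rw [hBS, Int.card_Icc]
    have e1 : ((w : ℤ) + 1 - -(w : ℤ)).toNat = 2 * w + 1 := by omega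
    rw [e1]
    push_cast
    have h1 : (w : ℝ) ≤ X / Lx ^ (2 * A + 2) := by
      rw [hw]
      exact Nat.floor_le (by positivity)
    linarith
  have hIc : (I.card : ℝ) ≤ 15 * (Lx ^ B) ^ 2 * L := by
    rw [hI, card_product, card_product, Int.card_Icc, Int.card_Icc, card_range]
    have e1 : ((M' : ℤ) + 1 - 1).toNat = M' := by omega
    have e2 : (2 * (M' : ℤ) + 1 - -(2 * (M' : ℤ))).toNat = 4 * M' + 1 := by omega
    rw [e1, e2]
    push_cast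
    have hLB1 : 1 ≤ Lx ^ B := one_le_pow₀ hLx1
    have h0' : (0 : ℝ) ≤ M' := Nat.cast_nonneg _
    have hJR : (J : ℝ) ≤ 3 * L := by
      rw [hJ]
      push_cast
      have : ((⌊2 * L⌋₊ : ℕ) : ℝ) ≤ 2 * L := Nat.floor_le (by linarith)
      linarith
    have h1 : (M' : ℝ) * (4 * M' + 1) ≤ 5 * (Lx ^ B) ^ 2 := n5 _ _ h0' hM'R hLB1
    calc (M' : ℝ) * (4 * M' + 1) * J ≤ 5 * (Lx ^ B) ^ 2 * (3 * L) := by
          apply mul_le_mul h1 hJR (Nat.cast_nonneg _) (by positivity)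
      _ = 15 * (Lx ^ B) ^ 2 * L := by ring
  have hsub : (Icc (-(X : ℤ)) X).filter (fun D => ¬ HoldsW e A B (2 * (H + 2 * A + 2 * B + 6)) X D) ⊆
      (BS ∪ BC) ∪ I.biUnion BP := by
    intro D hD
    rw [mem_filter, mem_Icc] at hD
    obtain ⟨⟨hD1, hD2⟩, hDn⟩ := hD
    by_contra hcon
    rw [mem_union, mem_union, not_or, not_or] at hcon
    obtain ⟨⟨hc0, hc1⟩, hc2⟩ := hcon
    apply hDn
    intro a b c hadm hdisc haL
    rw [← hLxd] at haL ⊢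
    have ha : 1 ≤ a := hadm.1
    have hDX : |b ^ 2 - 4 * a * c| ≤ (X : ℤ) := by
      rw [hdisc, abs_le]
      constructor <;> omega
    have hGC : GC K N z (b ^ 2 - 4 * a * c) := by
      by_contra hno
      apply hc1
      rw [hBC, mem_filter, mem_Icc]
      refine ⟨⟨by omega, by omega⟩, ?_, ?_⟩
      · rw [← hdisc]
        exact hadm.2.2.2
      · rw [← hdisc]
        exact hno
    have haX : (a : ℝ) ≤ X := by
      refine haL.trans (le_trans ?_ hb8')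
      have h2 : Lx ^ B ≤ Lx ^ (5 * B + 2 + A) := pow_le_pow_right₀ hLx1 (by omega)
      have h3 : 0 ≤ Lx ^ (5 * B + 2 + A) := by positivity
      linarith
    have hc0X : |c0 a b c| ≤ ((2 * X : ℕ) : ℤ) := by
      refine (c0_bd a b c ha X hDX).trans ?_
      have : a ≤ (X : ℤ) := by exact_mod_cast haX
      push_cast
      linarith
    have hc0N' := abs_le.1 hc0X
    have hDl : √X ≤ √(|((b ^ 2 - 4 * a * c : ℤ) : ℝ)|) * L ^ (A + 1) := by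
      rw [hdisc]
      have h1 : (w : ℤ) < |D| := by
        by_contra hno
        push Not at hno
        apply hc0
        rw [hBS, mem_Icc]
        exact abs_le.1 hno
      have h2 : (X : ℝ) / Lx ^ (2 * A + 2) ≤ |(D : ℝ)| := by
        have h3 : (X : ℝ) / Lx ^ (2 * A + 2) < w + 1 := by
          rw [hw]
          exact Nat.lt_floor_add_one _
        have h4 : (w : ℝ) + 1 ≤ |(D : ℝ)| := by
          have : (w : ℤ) + 1 ≤ |D| := by omega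
          exact_mod_cast this
        linarith
      apply Real.sqrt_le_iff.2
      refine ⟨by positivity, ?_⟩
      rw [mul_pow, Real.sq_sqrt (abs_nonneg _), ← pow_mul]
      rw [div_le_iff₀ (by positivity)] at h2
      refine h2.trans ?_
      apply mul_le_mul_of_nonneg_left _ (abs_nonneg _)
      rw [show (A + 1) * 2 = 2 * A + 2 by ring]
      exact pow_le_pow_left₀ hLx0.le hLL _
    have haM : a ≤ M' := by
      have h1 : ((a.toNat : ℕ) : ℝ) = (a : ℝ) := by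
        have : ((a.toNat : ℕ) : ℤ) = a := Int.toNat_of_nonneg (by omega)
        exact_mod_cast this
      have h2 : a.toNat ≤ M' := by
        rw [hM']
        apply Nat.le_floor
        rw [h1]
        exact haL
      omega
    have hgood : ∀ b' : ℤ, |b'| ≤ 2 * a → b' ^ 2 = (b % (2 * a)) ^ 2 → ∀ i : ℕ,
        (N : ℝ) ^ (1 / 3 + 1 / (2 * e : ℕ) : ℝ) ≤ ((2 ^ i : ℕ) : ℝ) → 36 * a * ((2 ^ i : ℕ) : ℤ) ^ 2 + 6 * X ≤ N →
        Φ a b' i (c0 a b c) ≤ ((2 ^ i : ℕ) : ℝ) * h0 / L ^ A3 := by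
      intro b' hb' hsq i hi1 hi2
      by_contra hno
      push Not at hno
      apply hc2
      rw [mem_biUnion]
      have hb'' := abs_le.1 hb'
      refine ⟨((a, b'), i), ?_, ?_⟩
      · rw [hI, mem_product, mem_product, mem_Icc, mem_Icc, mem_range]
        refine ⟨⟨⟨ha, haM⟩, by constructor <;> dsimp only <;> omega⟩, ?_⟩
        dsimp only
        rw [hJ, Nat.lt_succ_iff]
        apply Nat.le_floor
        have h1 : ((2 ^ i : ℕ) : ℝ) ≤ N := by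
          have h2 : ((2 ^ i : ℕ) : ℤ) ≤ N := by
            have h3 : (1 : ℤ) ≤ ((2 ^ i : ℕ) : ℤ) := by
              have := Nat.one_le_two_pow (n := i)
              exact_mod_cast this
            exact n6 a _ X N ha h3 (Int.natCast_nonneg _) hi2
          exact_mod_cast h2
        have h2 : (i : ℝ) * Real.log 2 ≤ L := by
          rw [hL, ← Real.log_pow]
          apply Real.log_le_log (by positivity)
          exact_mod_cast h1
        have h3 := Real.log_two_gt_d9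
        exact n7 _ _ _ (Nat.cast_nonneg _) (by linarith) h2
      · rw [hBP]
        dsimp only
        rw [if_pos (by rw [hCd]; exact ⟨ha, hb', hi1, hi2⟩), mem_image]
        refine ⟨c0 a b c, ?_, ?_⟩
        · rw [mem_filter, mem_Icc]
          exact ⟨hc0N', hno⟩
        · rw [hsq, disc, hdisc]
    have hr := res_bd a b ha
    obtain ⟨S, hS0, hS1, hS2⟩ := Wone.wone e A B A3 K X N z h0 H Lx L hLx hLL hL hX1 (by omega) hNc (le_of_eq hA3.symm)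
      (le_of_eq hK.symm) hzge hzB hV hh03 hh02 a b c hadm hDX haL hGC hDl (by
        intro b' hb' i hi1 hi2
        have h1 : |b'| ≤ 2 * a := by
          rcases hb' with h | h <;> rw [h]
          · exact hr
          · rw [abs_neg]; exact hr
        have h2 : b' ^ 2 = (b % (2 * a)) ^ 2 := by
          rcases hb' with h | h <;> rw [h]
          rw [neg_sq]
        have h3 := hgood b' h1 h2 i hi1 hi2
        rw [hΦ] at h3
        exact h3)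
    refine ⟨S, hS0, hS1, ?_⟩
    intro y h hy1 hy2 hy3 hh1 hh2
    have heR : (1 : ℝ) ≤ e := by exact_mod_cast he
    have hXs : (X : ℝ) ^ (1 / 3 + 1 / (e : ℝ)) = (X : ℝ) ^ (1 / 3 + 1 / (2 * e : ℕ) : ℝ) * (X : ℝ) ^ (1 / ((2 * e : ℕ) : ℝ)) := by
      rw [← Real.rpow_add hX0]
      congr 1
      push_cast
      field_simp
      ring
    have hpw : ∀ k : ℕ, L ^ k ≤ Lx ^ (2 * k) := by
      intro k
      rw [pow_mul]
      exact pow_le_pow_left₀ hL0.le hLsq k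
    refine hS2 y h ?_ hy2 hy3 ?_ ?_
    · refine le_trans ?_ hy1
      rw [hXs]
      have hs1 : (1 / 3 + 1 / (2 * e : ℕ) : ℝ) ≤ 1 := by
        have : (1 : ℝ) / ((2 * e : ℕ) : ℝ) ≤ 1 / 2 := by
          apply one_div_le_one_div_of_le (by norm_num)
          push_cast
          linarith
        linarith
      have hMs : (M : ℝ) ^ (1 / 3 + 1 / (2 * e : ℕ) : ℝ) ≤ M := by
        calc (M : ℝ) ^ (1 / 3 + 1 / (2 * e : ℕ) : ℝ) ≤ (M : ℝ) ^ (1 : ℝ) := Real.rpow_le_rpow_of_exponent_le hMR hs1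
          _ = M := Real.rpow_one _
      rw [hNR, Real.mul_rpow hX0.le hM0R]
      have hXp : (0 : ℝ) ≤ (X : ℝ) ^ (1 / 3 + 1 / (2 * e : ℕ) : ℝ) := by positivity
      calc (X : ℝ) ^ (1 / 3 + 1 / (2 * e : ℕ) : ℝ) * (M : ℝ) ^ (1 / 3 + 1 / (2 * e : ℕ) : ℝ)
          ≤ (X : ℝ) ^ (1 / 3 + 1 / (2 * e : ℕ) : ℝ) * (2 * Lx ^ (5 * B + 2)) := by
            gcongr
            exact hMs.trans hM2
        _ ≤ (X : ℝ) ^ (1 / 3 + 1 / (2 * e : ℕ) : ℝ) * (X : ℝ) ^ (1 / ((2 * e : ℕ) : ℝ)) :=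
            mul_le_mul_of_nonneg_left hb6 hXp
    · refine (hpw _).trans (le_trans ?_ hh1)
      exact pow_le_pow_right₀ hLx1 (by omega)
    · refine le_trans ?_ hh2
      apply mul_le_mul_of_nonneg_left _ (Nat.cast_nonneg _)
      refine (hpw _).trans ?_
      exact pow_le_pow_right₀ hLx1 (by omega)
  have hcard : (((Icc (-(X : ℤ)) X).filter (fun D => ¬ HoldsW e A B (2 * (H + 2 * A + 2 * B + 6)) X D)).card : ℝ) ≤
      (BS.card + BC.card) + ∑ q ∈ I, ((BP q).card : ℝ) := by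
    have h1 := (card_le_card hsub).trans (card_union_le _ _)
    have h2 : (I.biUnion BP).card ≤ ∑ q ∈ I, (BP q).card := Finset.card_biUnion_le
    have h3 := card_union_le BS BC
    have h4 := h1.trans (Nat.add_le_add h3 h2)
    exact_mod_cast h4
  have hsum : ∑ q ∈ I, ((BP q).card : ℝ) ≤ I.card * (N / L ^ (A1 + 1)) := by
    refine (Finset.sum_le_card_nsmul _ _ _ hBPc).trans ?_
    rw [nsmul_eq_mul]
  refine hcard.trans ?_
  have hLB1 : 1 ≤ Lx ^ B := one_le_pow₀ hLx1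
  have h1 : (BC.card : ℝ) + ∑ q ∈ I, ((BP q).card : ℝ) ≤ 16 * (Lx ^ B) ^ 2 * (N / L ^ A1) := by
    have h2 : (I.card : ℝ) * (N / L ^ (A1 + 1)) ≤ 15 * (Lx ^ B) ^ 2 * L * (N / L ^ (A1 + 1)) :=
      mul_le_mul_of_nonneg_right hIc hNL
    have h2' : 15 * (Lx ^ B) ^ 2 * L * (N / L ^ (A1 + 1)) = 15 * (Lx ^ B) ^ 2 * (N / L ^ A1) := by
      have e0 : L ^ (A1 + 1) = L ^ A1 * L := pow_succ _ _
      rw [e0]
      field_simp
    have h3 : N / L ^ A1 ≤ (Lx ^ B) ^ 2 * (N / L ^ A1) := by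
      have : 1 ≤ (Lx ^ B) ^ 2 := one_le_pow₀ hLB1
      exact le_mul_of_one_le_left (by positivity) this
    linarith
  have hpos : 0 < Lx ^ A1 := by positivity
  have h2 : 16 * (Lx ^ B) ^ 2 * ((N : ℝ) / L ^ A1) ≤ X * (1 / (4 * Lx ^ A)) := by
    calc 16 * (Lx ^ B) ^ 2 * ((N : ℝ) / L ^ A1) ≤ 16 * (Lx ^ B) ^ 2 * ((X * (2 * Lx ^ (5 * B + 2))) / Lx ^ A1) := by
          apply mul_le_mul_of_nonneg_left _ (by positivity)
          apply div_le_div₀ (by positivity) _ hpos (pow_le_pow_left₀ hLx0.le hLL A1)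
          rw [hNR]
          exact mul_le_mul_of_nonneg_left hM2 hX0.le
      _ = X * (32 * Lx ^ (7 * B + 2) / Lx ^ A1) := by
          have : Lx ^ (7 * B + 2) = (Lx ^ B) ^ 2 * Lx ^ (5 * B + 2) := by
            rw [← pow_mul, ← pow_add]
            congr 1
            ring
          rw [this]
          ring
      _ ≤ X * (1 / (4 * Lx ^ A)) := by
          apply mul_le_mul_of_nonneg_left _ hX0.le
          rw [div_le_div_iff₀ hpos (by positivity)]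
          have e1 : Lx ^ A1 = Lx ^ 6 * Lx ^ (7 * B + 2) * Lx ^ A := by
            rw [← pow_add, ← pow_add, hA1]
            congr 1
            ring
          rw [e1]
          have e2 : 128 ≤ Lx ^ 6 := by
            calc (128 : ℝ) ≤ Lx := by linarith
              _ = Lx ^ 1 := (pow_one _).symm
              _ ≤ Lx ^ 6 := pow_le_pow_right₀ hLx1 (by norm_num)
          exact n8 _ _ _ e2 (by positivity)
  have h3 : 2 * (X / Lx ^ (2 * A + 2)) ≤ X * (1 / (4 * Lx ^ A)) := by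
    have e1 : Lx ^ (2 * A + 2) = Lx ^ A * Lx ^ A * Lx ^ 2 := by
      rw [← pow_add, ← pow_add]
      congr 1
      ring
    have h4 : 8 * Lx ^ A ≤ Lx ^ (2 * A + 2) := by
      rw [e1]
      have h5 : (8 : ℝ) ≤ Lx ^ A * Lx ^ 2 := n9 _ _ hLA1' hLx
      calc 8 * Lx ^ A ≤ (Lx ^ A * Lx ^ 2) * Lx ^ A := mul_le_mul_of_nonneg_right h5 (by positivity)
        _ = Lx ^ A * Lx ^ A * Lx ^ 2 := by ring
    calc 2 * ((X : ℝ) / Lx ^ (2 * A + 2)) ≤ 2 * (X / (8 * Lx ^ A)) := by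
          apply mul_le_mul_of_nonneg_left _ (by norm_num)
          exact div_le_div_of_nonneg_left hX0.le (by positivity) h4
      _ = X * (1 / (4 * Lx ^ A)) := by
          field_simp
          ring
  have h4 : (1 : ℝ) ≤ X * (1 / (4 * Lx ^ A)) := by
    rw [mul_one_div, le_div_iff₀ (by positivity)]
    refine le_trans ?_ hb8'
    have : Lx ^ A ≤ Lx ^ (5 * B + 2 + A) := pow_le_pow_right₀ hLx1 (by omega)
    have h5 : 0 ≤ Lx ^ (5 * B + 2 + A) := by positivity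
    linarith
  have h5 : (X : ℝ) / Lx ^ A = 4 * (X * (1 / (4 * Lx ^ A))) := by
    field_simp
  rw [h5]
  linarith

end Pool.Agent.H79.W.WFin
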