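import Pool.Agent.H79.W.Cn
import Pool.Agent.H79.W.Adm
import Pool.Agent.H79.W.Avg

/-!
Primes in windows for one polynomial, from the estimates for the reduced polynomials.
-/

set_option autoImplicit false

namespace Pool.Agent.H79.W.Wone

open Finset Polynomial Filter Topology
open Pool.Agent.helper24_UT
open Pool.Agent.H373R2.T7 (pz mem_pz Vz Vz_pos Vz_inv_small ev_L')
open Pool.Agent.Results.MP_a1177c_nt.AllTriples (Admissible eps gcdProd partialC eps_pos gcdProd_pos)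
open Pool.Agent.H79.Q.Fac (qF qF_eval qF_deg sg_eq Pr Qa split limit)
open Pool.Agent.H79.Q.Th (df tp)
open Pool.Agent.H79.Q.En (qv)
open Pool.Agent.H79.Q.Core
open Pool.Agent.H79.Q.Cst (GC)
open Pool.Agent.H79.Q.One
open Pool.Agent.H79.W.Adm (sg_red sg_red_neg)
open Pool.Agent.H79.W.Avg (Ws)
open Pool.Agent.H79.W.Cn

lemma sq_ge (Y : ℤ) (h : 1 ≤ Y) : Y ≤ Y ^ 2 := by nlinarith

lemma a_sq (a Y : ℤ) (ha : 1 ≤ a) (h : 1 ≤ Y) : a ≤ a * Y ^ 2 := by
  have h1 : 1 ≤ Y ^ 2 := h.trans (sq_ge Y h)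
  nlinarith

lemma fourteen (t L : ℝ) (ht : 0 ≤ t) (hL : 14 ≤ L) : 14 * t ≤ t * L := by nlinarith

/-- the formula holds in the window `(u, u + h]` -/
def GoodWin (a b c : ℤ) (M δ : ℝ) (u h : ℕ) : Prop :=
  2 ≤ |(fv a b c u : ℝ)| ∧ |windowCount a b c u h - M * h / Real.log (|(fv a b c u : ℝ)|)| ≤
    M * h / Real.log (|(fv a b c u : ℝ)|) * δ

open Classical in
theorem wone (e A B A3 K X N z h0 H : ℕ) (Lx L : ℝ) (hLx : 5000 ≤ Lx) (hL1 : Lx ≤ L) (hL2 : L = Real.log N)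
    (hX : 1 ≤ X) (hN : 2 ≤ N) (hN2 : 1400 * X * Lx ^ (5 * B) ≤ N) (hA3 : 2 * A + 2 * B + 5 ≤ A3)
    (hK : A + 1 ≤ K) (hz : 2 ≤ z) (hzB : L ^ B ≤ z) (hV : (Vz z)⁻¹ ≤ L) (hh0 : 1 ≤ h0) (hh0L : (h0 : ℝ) ≤ 2 * L ^ H)
    (a b c : ℤ) (hadm : Admissible a b c) (hD : |b ^ 2 - 4 * a * c| ≤ (X : ℤ)) (haL : (a : ℝ) ≤ Lx ^ B)
    (hGC : GC K N z (b ^ 2 - 4 * a * c))
    (hDl : √X ≤ √(|((b ^ 2 - 4 * a * c : ℤ) : ℝ)|) * L ^ (A + 1))
    (hg : ∀ b' : ℤ, (b' = b % (2 * a) ∨ b' = -(b % (2 * a))) → ∀ i : ℕ,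
      (N : ℝ) ^ (1 / 3 + 1 / (2 * e : ℕ) : ℝ) ≤ ((2 ^ i : ℕ) : ℝ) → 36 * a * ((2 ^ i : ℕ) : ℤ) ^ 2 + 6 * X ≤ N →
      ∑ u ∈ Icc 1 (2 ^ i), |∑ t ∈ Icc 1 h0, tp (qv a b' (u + t) + c0 a b c) - h0 * sg z (qF a b' (c0 a b c))| ≤
        ((2 ^ i : ℕ) : ℝ) * h0 / L ^ A3) :
    ∃ S : ℝ, 0 < S ∧ Tendsto (fun z => partialC a b c z) atTop (𝓝 S) ∧
      ∀ y h : ℕ, (N : ℝ) ^ (1 / 3 + 1 / (2 * e : ℕ) : ℝ) ≤ y → (y : ℝ) ≤ Real.sqrt X * Lx ^ B →
        (|b| : ℝ) ≤ y * Lx ^ B → L ^ (H + 2 * A + B + 6) ≤ h → h * L ^ (2 * A + 2 * B + 3) ≤ y →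
        (((Icc 1 y).filter (fun u => ¬ GoodWin a b c (eps a b * S * gcdProd a b) (1 / Lx ^ A) u h)).card : ℝ) ≤
          y / Lx ^ A := by
  have ha : 1 ≤ a := hadm.1
  have haR : (1 : ℝ) ≤ a := by exact_mod_cast ha
  have hLx1 : 1 ≤ Lx := by linarith
  have hLx0 : 0 < Lx := by linarith
  have hL0 : 0 < L := by linarith
  have hL1' : 1 ≤ L := by linarith
  have hL5 : 5000 ≤ L := by linarith
  have haz : a ≤ z := by
    have h1 : (a : ℝ) ≤ z := haL.trans ((pow_le_pow_left₀ (by linarith) hL1 B).trans hzB)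
    exact_mod_cast h1
  have hXR : (1 : ℝ) ≤ X := by exact_mod_cast hX
  obtain ⟨Hc, hH0, hHlim, hHz, hHge⟩ := hGC
  rw [← hL2] at hHz hHge
  obtain ⟨S, hS0, hSlim, hSz, hSge⟩ := limit a b c ha z haz Hc (1 / L ^ K) hH0 hHlim hHz
  refine ⟨S, hS0, hSlim, ?_⟩
  intro y h hyN hy1 hyb hh1 hh2
  have hy0 : (0 : ℝ) ≤ y := Nat.cast_nonneg y
  -- the constant
  have heps := eps_ge a b
  have hgcd := gcdProd_ge a b
  obtain ⟨Mc, hMc⟩ : ∃ Mc : ℝ, Mc = eps a b * S * gcdProd a b := ⟨_, rfl⟩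
  rw [← hMc]
  have hMc0 : 0 < Mc := by rw [hMc]; positivity
  have hMcS : S ≤ Mc := by
    rw [hMc]
    calc S = 1 * S * 1 := by ring
      _ ≤ eps a b * S * gcdProd a b := by gcongr
  have hsg := sg_eq a b c hadm z hz haz
  obtain ⟨G, hG⟩ : ∃ G : ℝ, G = sg z (qF a b c) := ⟨_, rfl⟩
  have hGL : G ≤ L := by rw [hG]; exact (sg_le z (qF a b c) rfl).trans hV
  have hGM : |G - Mc| ≤ Mc * (1 / L ^ K) := by
    have h1 : G - Mc = -(eps a b * gcdProd a b * (S - partialC a b c z)) := by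
      rw [hG, hsg, hMc]
      ring
    rw [h1, abs_neg, abs_mul, abs_of_pos (by positivity : 0 < eps a b * gcdProd a b)]
    calc eps a b * gcdProd a b * |S - partialC a b c z| ≤ eps a b * gcdProd a b * (S * (1 / L ^ K)) :=
          mul_le_mul_of_nonneg_left hSz (by positivity)
      _ = Mc * (1 / L ^ K) := by rw [hMc]; ring
  have hLK : 1 / L ^ K ≤ 1 / 2 := by
    apply one_div_le_one_div_of_le (by norm_num)
    calc (2 : ℝ) ≤ L := by linarith
      _ = L ^ 1 := (pow_one L).symm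
      _ ≤ L ^ K := pow_le_pow_right₀ hL1' (by omega)
  have hMge : 1 / (2 * L ^ (B + 2)) ≤ Mc := by
    refine le_trans ?_ hMcS
    refine le_trans ?_ hSge
    have h1 : 1 / (2 * L ^ (B + 2)) = 1 / (2 * L ^ 2) / L ^ B := by
      rw [div_div]
      congr 1
      ring
    rw [h1]
    apply div_le_div₀ hH0.le hHge (by linarith)
    exact haL.trans (pow_le_pow_left₀ (by linarith) hL1 B)
  have hGge : 1 / (4 * L ^ (B + 2)) ≤ G := by
    have h1 := (abs_le.1 hGM).1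
    have h2 : Mc * (1 / L ^ K) ≤ Mc * (1 / 2) := mul_le_mul_of_nonneg_left hLK hMc0.le
    have h3 : 1 / (4 * L ^ (B + 2)) = 1 / (2 * L ^ (B + 2)) / 2 := by
      rw [div_div]
      congr 1
      ring
    rw [h3]
    linarith
  have hGpos : 0 < G := lt_of_lt_of_le (by positivity) hGge
  -- sizes
  have hhR : (1 : ℝ) ≤ h := (one_le_pow₀ hL1').trans hh1
  have hhpos : 1 ≤ h := by exact_mod_cast hhR
  have hH3 : 1 ≤ L ^ (2 * A + 2 * B + 3) := one_le_pow₀ hL1'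
  have hhy : (h : ℝ) ≤ y := by
    refine le_trans ?_ hh2
    exact le_mul_of_one_le_right (by linarith) hH3
  have hyR1 : (1 : ℝ) ≤ y := hhR.trans hhy
  have hy1' : 1 ≤ y := by exact_mod_cast hyR1
  have hLB1 : 1 ≤ Lx ^ B := one_le_pow₀ hLx1
  obtain ⟨κ, hκ⟩ : ∃ κ : ℤ, κ = b / (2 * a) := ⟨_, rfl⟩
  have hκb : ((|κ| : ℤ) : ℝ) ≤ y * Lx ^ B := by
    refine le_trans ?_ hyb
    have := quo_bd a b ha
    rw [← hκ] at this
    have h2 : ((|κ| : ℤ) : ℝ) ≤ ((|b| : ℤ) : ℝ) := by exact_mod_cast this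
    rw [Int.cast_abs (a := b)] at h2
    exact h2
  obtain ⟨w, hw⟩ : ∃ w : ℕ, w = κ.natAbs + y + h := ⟨_, rfl⟩
  have hκn : ((κ.natAbs : ℕ) : ℝ) = ((|κ| : ℤ) : ℝ) := by rw [Nat.cast_natAbs]
  have hwR : (w : ℝ) ≤ 3 * y * Lx ^ B := by
    rw [hw]
    push_cast
    rw [hκn]
    have h1 : (y : ℝ) ≤ y * Lx ^ B := le_mul_of_one_le_right hy0 hLB1
    linarith
  obtain ⟨i, hi⟩ : ∃ i : ℕ, i = Nat.log 2 w + 1 := ⟨_, rfl⟩
  obtain ⟨Y, hY⟩ : ∃ Y : ℕ, Y = 2 ^ i := ⟨_, rfl⟩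
  have hw0 : w ≠ 0 := by omega
  have hYw : w ≤ Y := by
    rw [hY, hi]
    exact (Nat.lt_pow_succ_log_self (by norm_num) w).le
  have hYw2 : Y ≤ 2 * w := by
    rw [hY, hi, pow_succ]
    have := Nat.pow_log_le_self 2 hw0
    omega
  have hYR : (Y : ℝ) ≤ 6 * y * Lx ^ B := by
    have : (Y : ℝ) ≤ 2 * w := by exact_mod_cast hYw2
    linarith
  have hyY : (y : ℝ) ≤ Y := by exact_mod_cast (by omega : y ≤ Y)
  have hYsq : (Y : ℝ) ^ 2 ≤ 36 * X * Lx ^ (4 * B) := by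
    have h1 : (Y : ℝ) ≤ 6 * (√X * Lx ^ B) * Lx ^ B := by
      refine hYR.trans ?_
      gcongr
    have h2 : (Y : ℝ) ^ 2 ≤ (6 * (√X * Lx ^ B) * Lx ^ B) ^ 2 := pow_le_pow_left₀ (Nat.cast_nonneg _) h1 2
    have h5 : √(X : ℝ) ^ 2 = X := Real.sq_sqrt (by linarith)
    calc (Y : ℝ) ^ 2 ≤ (6 * (√X * Lx ^ B) * Lx ^ B) ^ 2 := h2
      _ = 36 * √X ^ 2 * (Lx ^ B) ^ 4 := by ring
      _ = 36 * X * Lx ^ (4 * B) := by rw [h5, ← pow_mul, mul_comm B 4]
  have hYN : 36 * (a : ℝ) * (Y : ℝ) ^ 2 + 6 * X ≤ N := by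
    have h1 : 36 * (a : ℝ) * (Y : ℝ) ^ 2 ≤ 1296 * X * Lx ^ (5 * B) := by
      calc 36 * (a : ℝ) * (Y : ℝ) ^ 2 ≤ 36 * Lx ^ B * (36 * X * Lx ^ (4 * B)) := by gcongr
        _ = 1296 * X * Lx ^ (5 * B) := by
            have : Lx ^ (5 * B) = Lx ^ B * Lx ^ (4 * B) := by rw [← pow_add]; congr 1; ring
            rw [this]
            ring
    have h2 : 1 ≤ Lx ^ (5 * B) := one_le_pow₀ hLx1
    have h3 : (X : ℝ) ≤ X * Lx ^ (5 * B) := le_mul_of_one_le_right (by linarith) h2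
    linarith
  have hYNZ : 36 * a * ((2 ^ i : ℕ) : ℤ) ^ 2 + 6 * X ≤ N := by
    rw [← hY]
    exact_mod_cast hYN
  -- the constant term
  have hc0 : |c0 a b c| ≤ a + X := c0_bd a b c ha X hD
  have hr := res_bd a b ha
  -- the function
  obtain ⟨F, hF⟩ : ∃ F : ℤ → ℝ, F = fun v => tp (a * v ^ 2 + (b % (2 * a)) * v + c0 a b c) - G := ⟨_, rfl⟩
  have hYZ1 : (1 : ℤ) ≤ Y := by omega
  have hYNZ' : 36 * a * (Y : ℤ) ^ 2 + 6 * X ≤ N := by exact_mod_cast hYN
  have hh0Y : h0 ≤ Y := by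
    have h1 : (h0 : ℝ) ≤ h := by
      refine hh0L.trans (le_trans ?_ hh1)
      calc 2 * L ^ H ≤ L * L ^ H := mul_le_mul_of_nonneg_right (by linarith) (by positivity)
        _ = L ^ (H + 1) := (pow_succ' L H).symm
        _ ≤ L ^ (H + 2 * A + B + 6) := pow_le_pow_right₀ hL1' (by omega)
    have h2 : (h0 : ℝ) ≤ Y := h1.trans (hhy.trans hyY)
    exact_mod_cast h2
  have hFb : ∀ v : ℤ, |v| ≤ 2 * Y → |F v| ≤ 3 * L := by
    intro v hv
    rw [hF]
    dsimp only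
    have h1 := tp_nonneg (a * v ^ 2 + (b % (2 * a)) * v + c0 a b c)
    have h2 := tp_le (a * v ^ 2 + (b % (2 * a)) * v + c0 a b c) N hN (by
      have h3 : v ^ 2 ≤ (2 * (Y : ℤ)) ^ 2 := by
        rw [← sq_abs v]
        exact pow_le_pow_left₀ (abs_nonneg _) hv 2
      have h4 : a * v ^ 2 ≤ 4 * (a * (Y : ℤ) ^ 2) := by
        have := mul_le_mul_of_nonneg_left h3 (show (0 : ℤ) ≤ a by omega)
        linarith
      have h5 : |(b % (2 * a)) * v| ≤ 4 * (a * (Y : ℤ) ^ 2) := by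
        rw [abs_mul]
        have h6 : |b % (2 * a)| * |v| ≤ (2 * a) * (2 * Y) := mul_le_mul hr hv (abs_nonneg _) (by omega)
        have h7 : (Y : ℤ) ≤ (Y : ℤ) ^ 2 := sq_ge _ hYZ1
        have h8 : a * (Y : ℤ) ≤ a * (Y : ℤ) ^ 2 := mul_le_mul_of_nonneg_left h7 (by omega)
        linarith
      have h6 : 0 ≤ a * v ^ 2 := by positivity
      have h7 := abs_le.1 h5
      have h8 := abs_le.1 hc0
      have h9 : a ≤ a * (Y : ℤ) ^ 2 := a_sq a Y ha hYZ1
      have hX0 : (0 : ℤ) ≤ X := Int.natCast_nonneg _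
      rw [abs_le]
      constructor <;> linarith [h7.1, h7.2, h8.1, h8.2])
    rw [← hL2] at h2
    rw [abs_le]
    constructor <;> linarith
  -- the window sums of the reduced polynomials
  have hYpow : ((2 ^ i : ℕ) : ℝ) = Y := by rw [hY]
  have hR1 : ∑ u ∈ Icc 1 Y, |Ws F h0 (u : ℤ)| ≤ Y * h0 / L ^ A3 := by
    have h1 := hg _ (Or.inl rfl) i (by rw [hYpow]; exact hyN.trans hyY) hYNZ
    rw [hYpow, ← hY, sg_red a b c hadm z hz haz, ← hG] at h1
    refine le_trans (le_of_eq ?_) h1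
    refine Finset.sum_congr rfl fun u _ => ?_
    congr 1
    unfold Ws
    rw [hF]
    rw [Finset.sum_sub_distrib, Finset.sum_const, Nat.card_Icc, Nat.add_sub_cancel, nsmul_eq_mul]
    congr 1
    refine Finset.sum_congr rfl fun t _ => ?_
    congr 1
    unfold qv
    push_cast
    ring
  have hR2 : ∑ u ∈ Icc 1 Y, |Ws (fun v => F (-v)) h0 (u : ℤ)| ≤ Y * h0 / L ^ A3 := by
    have h1 := hg _ (Or.inr rfl) i (by rw [hYpow]; exact hyN.trans hyY) hYNZ
    rw [hYpow, ← hY, sg_red_neg a b c hadm z hz haz, ← hG] at h1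
    refine le_trans (le_of_eq ?_) h1
    refine Finset.sum_congr rfl fun u _ => ?_
    congr 1
    unfold Ws
    rw [hF]
    rw [Finset.sum_sub_distrib, Finset.sum_const, Nat.card_Icc, Nat.add_sub_cancel, nsmul_eq_mul]
    congr 1
    refine Finset.sum_congr rfl fun t _ => ?_
    congr 1
    unfold qv
    push_cast
    ring
  have hh0R : (1 : ℝ) ≤ h0 := by exact_mod_cast hh0
  have hh0h : h0 < h := by
    have h1 : (h0 : ℝ) < h := by
      refine lt_of_le_of_lt hh0L (lt_of_lt_of_le ?_ hh1)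
      calc 2 * L ^ H < L * L ^ H := mul_lt_mul_of_pos_right (by linarith) (by positivity)
        _ = L ^ (H + 1) := (pow_succ' L H).symm
        _ ≤ L ^ (H + 2 * A + B + 6) := pow_le_pow_right₀ hL1' (by omega)
    exact_mod_cast h1
  have hall := Avg.all F (3 * L) (by linarith) h h0 y Y κ (2 * Y) (by omega) (by
    have : |κ| = ((κ.natAbs : ℕ) : ℤ) := Int.abs_eq_natAbs κ
    rw [this]
    omega) hh0h hFb (Y * h0 / L ^ A3) hR1 hR2
  -- the sums over the windows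
  obtain ⟨Wd, hWd⟩ : ∃ Wd : ℕ → ℝ, Wd = fun u : ℕ => ∑ t ∈ Icc 1 h, (tp (fv a b c ((u : ℤ) + t)) - G) := ⟨_, rfl⟩
  have hWW : ∀ u : ℕ, Ws F h ((u : ℤ) + κ) = Wd u := by
    intro u
    unfold Ws
    rw [hWd, hF]
    refine Finset.sum_congr rfl fun t _ => ?_
    dsimp only
    congr 2
    unfold fv
    rw [hκ]
    have h1 := red a b c ((u : ℤ) + t)
    rw [← h1]
    ring
  obtain ⟨A4, hA4⟩ : ∃ A4 : ℕ, A4 = 2 * A + B + 4 := ⟨_, rfl⟩
  have hLA4 : 0 < L ^ A4 := by positivity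
  have hsumW : ∑ u ∈ Icc 1 y, |Wd u| ≤ y * h / L ^ A4 := by
    have h1 : (h0 : ℝ) * ∑ u ∈ Icc 1 y, |Wd u| ≤ h0 * (y * h / L ^ A4) := by
      have e1 : ∑ u ∈ Icc 1 y, |Wd u| = ∑ u ∈ Icc 1 y, |Ws F h ((u : ℤ) + κ)| :=
        Finset.sum_congr rfl fun u _ => by rw [hWW]
      rw [e1]
      refine hall.trans ?_
      have hbig : 54 * L ^ (H + 1 + A4) ≤ L ^ (H + 2 * A + B + 6) := by
        have e2 : L ^ (H + 2 * A + B + 6) = L * L ^ (H + 1 + A4) := by
          rw [← pow_succ', hA4]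
          congr 1
          ring
        rw [e2]
        exact mul_le_mul_of_nonneg_right (by linarith) (by positivity)
      have p1 : h * (2 * (Y * h0 / L ^ A3)) ≤ h0 * (y * h / L ^ A4) * (1 / 3) := by
        have h2 : 36 * L ^ B * L ^ A4 ≤ L ^ A3 := by
          calc 36 * L ^ B * L ^ A4 ≤ L * L ^ B * L ^ A4 := by gcongr; linarith
            _ = L ^ (2 * A + 2 * B + 5) := by rw [← pow_succ', ← pow_add, hA4]; congr 1; ring
            _ ≤ L ^ A3 := pow_le_pow_right₀ hL1' hA3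
        have h3 : (Y : ℝ) ≤ 6 * y * L ^ B := hYR.trans (by gcongr)
        calc (h : ℝ) * (2 * (Y * h0 / L ^ A3)) = 2 * h * h0 * (Y / L ^ A3) := by ring
          _ ≤ 2 * h * h0 * (y / (6 * L ^ A4)) := by
              apply mul_le_mul_of_nonneg_left _ (by positivity)
              rw [div_le_div_iff₀ (by positivity) (by positivity)]
              calc (Y : ℝ) * (6 * L ^ A4) ≤ (6 * y * L ^ B) * (6 * L ^ A4) := mul_le_mul_of_nonneg_right h3 (by positivity)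
                _ = y * (36 * L ^ B * L ^ A4) := by ring
                _ ≤ y * L ^ A3 := mul_le_mul_of_nonneg_left h2 hy0
          _ = h0 * (y * h / L ^ A4) * (1 / 3) := by
              field_simp
              ring
      have p2 : (h : ℝ) * ((h0 + 2) * (h0 * (3 * L))) ≤ h0 * (y * h / L ^ A4) * (1 / 3) := by
        have h2 : (h0 + 2 : ℝ) * (3 * L) * 3 * L ^ A4 ≤ y := by
          calc (h0 + 2 : ℝ) * (3 * L) * 3 * L ^ A4 ≤ (3 * h0) * (3 * L) * 3 * L ^ A4 := by gcongr; linarith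
            _ ≤ (3 * (2 * L ^ H)) * (3 * L) * 3 * L ^ A4 := by gcongr
            _ = 54 * L ^ (H + 1 + A4) := by rw [pow_add, pow_add]; ring
            _ ≤ L ^ (H + 2 * A + B + 6) := hbig
            _ ≤ y := hh1.trans hhy
        have h3 : (h0 + 2 : ℝ) * (3 * L) ≤ y / (3 * L ^ A4) := by
          rw [le_div_iff₀ (by positivity)]
          linarith
        calc (h : ℝ) * ((h0 + 2) * (h0 * (3 * L))) = h * h0 * ((h0 + 2) * (3 * L)) := by ring
          _ ≤ h * h0 * (y / (3 * L ^ A4)) := mul_le_mul_of_nonneg_left h3 (by positivity)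
          _ = h0 * (y * h / L ^ A4) * (1 / 3) := by
              field_simp
      have p3 : (y : ℝ) * (2 * h0 ^ 2 * (3 * L)) ≤ h0 * (y * h / L ^ A4) * (1 / 3) := by
        have h2 : (h0 : ℝ) * 6 * L * (3 * L ^ A4) ≤ h := by
          calc (h0 : ℝ) * 6 * L * (3 * L ^ A4) ≤ (2 * L ^ H) * 6 * L * (3 * L ^ A4) := by gcongr
            _ = 36 * L ^ (H + 1 + A4) := by rw [pow_add, pow_add]; ring
            _ ≤ 54 * L ^ (H + 1 + A4) := mul_le_mul_of_nonneg_right (by norm_num) (by positivity)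
            _ ≤ h := hbig.trans hh1
        have h3 : (h0 : ℝ) * 6 * L ≤ h / (3 * L ^ A4) := by
          rw [le_div_iff₀ (by positivity)]
          exact h2
        calc (y : ℝ) * (2 * h0 ^ 2 * (3 * L)) = y * h0 * (h0 * 6 * L) := by ring
          _ ≤ y * h0 * (h / (3 * L ^ A4)) := mul_le_mul_of_nonneg_left h3 (by positivity)
          _ = h0 * (y * h / L ^ A4) * (1 / 3) := by
              field_simp
      have e3 : (h : ℝ) * (2 * (Y * h0 / L ^ A3) + (h0 + 2) * (h0 * (3 * L))) =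
          h * (2 * (Y * h0 / L ^ A3)) + h * ((h0 + 2) * (h0 * (3 * L))) := by ring
      rw [e3]
      linarith
    exact le_of_mul_le_mul_left h1 (by linarith)
  -- the exceptional sets
  obtain ⟨θ, hθ⟩ : ∃ θ : ℝ, θ = 1 / L ^ (A + 1) := ⟨_, rfl⟩
  have hLA1 : 0 < L ^ (A + 1) := by positivity
  have hLA1' : L ≤ L ^ (A + 1) := by
    calc L = L ^ 1 := (pow_one L).symm
      _ ≤ L ^ (A + 1) := pow_le_pow_right₀ hL1' (by omega)
  have hθ0 : 0 < θ := by rw [hθ]; positivity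
  have hθs : θ ≤ 1 / 5000 := by
    rw [hθ]
    exact one_div_le_one_div_of_le (by norm_num) (hL5.trans hLA1')
  obtain ⟨r, hrd⟩ : ∃ r : ℝ, r = √(|((b ^ 2 - 4 * a * c : ℤ) : ℝ)|) := ⟨_, rfl⟩
  have hrsq : r ^ 2 = |((b ^ 2 - 4 * a * c : ℤ) : ℝ)| := by
    rw [hrd]
    exact Real.sq_sqrt (abs_nonneg _)
  rw [← hrd] at hDl
  obtain ⟨R, hR⟩ : ∃ R : ℝ, R = 4 * a * h / θ := ⟨_, rfl⟩
  have hReq : R = 4 * a * h * L ^ (A + 1) := by
    rw [hR, hθ]
    field_simp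
  have hR0 : 0 ≤ R := by rw [hReq]; positivity
  have hRr : 2 * R ≤ r := by
    have h1 : 2 * R * L ^ (A + 1) ≤ r * L ^ (A + 1) := by
      refine le_trans ?_ hDl
      have h2 : (h : ℝ) * L ^ (2 * A + 2 * B + 3) ≤ √X * L ^ B := by
        refine hh2.trans (hy1.trans ?_)
        gcongr
      have h3 : 8 * (h : ℝ) * L ^ (2 * A + 2 * B + 2) ≤ √X * L ^ B := by
        refine le_trans ?_ h2
        have e1 : L ^ (2 * A + 2 * B + 3) = L * L ^ (2 * A + 2 * B + 2) := pow_succ' _ _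
        rw [e1]
        calc 8 * (h : ℝ) * L ^ (2 * A + 2 * B + 2) = h * (8 * L ^ (2 * A + 2 * B + 2)) := by ring
          _ ≤ h * (L * L ^ (2 * A + 2 * B + 2)) := by gcongr; linarith
      have h4 : 2 * R * L ^ (A + 1) * L ^ B ≤ √X * L ^ B := by
        refine le_trans ?_ h3
        rw [hReq]
        calc 2 * (4 * (a : ℝ) * h * L ^ (A + 1)) * L ^ (A + 1) * L ^ B
            ≤ 2 * (4 * L ^ B * h * L ^ (A + 1)) * L ^ (A + 1) * L ^ B := by
              gcongr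
              exact haL.trans (pow_le_pow_left₀ (by linarith) hL1 B)
          _ = 8 * h * L ^ (2 * A + 2 * B + 2) := by
              have : L ^ (2 * A + 2 * B + 2) = L ^ B * L ^ B * L ^ (A + 1) * L ^ (A + 1) := by
                rw [← pow_add, ← pow_add, ← pow_add]
                congr 1
                ring
              rw [this]
              ring
      exact le_of_mul_le_mul_right h4 (by positivity)
    exact le_of_mul_le_mul_right h1 hLA1
  have hR4 : 4 * 5000 ≤ R := by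
    rw [hReq]
    calc (4 * 5000 : ℝ) = 4 * 1 * 1 * 5000 := by ring
      _ ≤ 4 * a * h * L ^ (A + 1) := by
          gcongr
          exact hL5.trans hLA1'
  have hr8 : 8 ≤ r := by linarith
  obtain ⟨E2, hE2⟩ : ∃ E2 : Finset ℕ, E2 = (Icc 1 y).filter (fun u => θ * (h * G) < |Wd u|) := ⟨_, rfl⟩
  obtain ⟨E1, hE1⟩ : ∃ E1 : Finset ℕ, E1 = (Icc 1 y).filter (fun u : ℕ => |sv a b u - r| < R) := ⟨_, rfl⟩
  obtain ⟨E3, hE3⟩ : ∃ E3 : Finset ℕ, E3 = (Icc 1 y).filter (fun u : ℕ => |sv a b u - (-r)| < R) := ⟨_, rfl⟩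
  have hE1c : (E1.card : ℝ) ≤ R / a + 1 := by rw [hE1]; exact few a b ha y r R hR0
  have hE3c : (E3.card : ℝ) ≤ R / a + 1 := by rw [hE3]; exact few a b ha y (-r) R hR0
  have hE2c : (E2.card : ℝ) ≤ 4 * (y / L ^ (A + 1)) := by
    have h1 : (E2.card : ℝ) * (θ * (h * G)) ≤ y * h / L ^ A4 := by
      refine le_trans ?_ hsumW
      calc (E2.card : ℝ) * (θ * (h * G)) = ∑ _u ∈ E2, θ * (h * G) := by rw [sum_const, nsmul_eq_mul]
        _ ≤ ∑ u ∈ E2, |Wd u| := by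
            apply Finset.sum_le_sum
            intro u hu
            rw [hE2, mem_filter] at hu
            exact hu.2.le
        _ ≤ ∑ u ∈ Icc 1 y, |Wd u| := by
            apply Finset.sum_le_sum_of_subset_of_nonneg
            · rw [hE2]; exact filter_subset _ _
            · intro u _ _; exact abs_nonneg _
    have h2 : 1 / L ^ (A + B + 3) * (h / 4) ≤ θ * (h * G) := by
      rw [hθ]
      have e1 : L ^ (A + B + 3) = L ^ (A + 1) * L ^ (B + 2) := by rw [← pow_add]; congr 1; ring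
      rw [e1]
      calc 1 / (L ^ (A + 1) * L ^ (B + 2)) * ((h : ℝ) / 4) = 1 / L ^ (A + 1) * (h * (1 / (4 * L ^ (B + 2)))) := by
            field_simp
        _ ≤ 1 / L ^ (A + 1) * (h * G) := by gcongr
    have h3 : (E2.card : ℝ) * (1 / L ^ (A + B + 3) * (h / 4)) ≤ y * h / L ^ A4 :=
      (mul_le_mul_of_nonneg_left h2 (Nat.cast_nonneg _)).trans h1
    have e2 : L ^ A4 = L ^ (A + B + 3) * L ^ (A + 1) := by rw [← pow_add, hA4]; congr 1; ring
    have h4 : (E2.card : ℝ) * (1 / L ^ (A + B + 3) * (h / 4)) ≤ (4 * (y / L ^ (A + 1))) * (1 / L ^ (A + B + 3) * (h / 4)) := by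
      refine h3.trans (le_of_eq ?_)
      rw [e2]
      field_simp
    exact le_of_mul_le_mul_right h4 (by positivity)
  have hsub : (Icc 1 y).filter (fun u => ¬ GoodWin a b c Mc (1 / Lx ^ A) u h) ⊆ (E2 ∪ E1) ∪ E3 := by
    intro u hu
    rw [mem_filter] at hu
    by_contra hno
    rw [mem_union, mem_union, not_or, not_or, hE1, hE2, hE3, mem_filter, mem_filter, mem_filter] at hno
    obtain ⟨⟨hn2, hn1⟩, hn3⟩ := hno
    have k2 : |Wd u| ≤ θ * (h * G) := by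
      by_contra hh; push Not at hh; exact hn2 ⟨hu.1, hh⟩
    have k1 : R ≤ |sv a b u - r| := by
      by_contra hh; push Not at hh; exact hn1 ⟨hu.1, hh⟩
    have k3 : R ≤ |sv a b u + r| := by
      by_contra hh; push Not at hh
      apply hn3
      refine ⟨hu.1, ?_⟩
      rw [sub_neg_eq_add]
      exact hh
    apply hu.2
    obtain ⟨m1, m2⟩ := away a b c ha u h hhpos r θ R hθ0 (by linarith) hr8 hrsq hR hRr k1 k3
    have m3 := one_window a b c u h G Mc (Wd u) θ θ (1 / L ^ K) hθ0.le (by linarith) hGpos.le hMc0.le (by rw [hWd]) m1 m2 k2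
      hθ0.le (by linarith) (by rw [mul_comm]; exact hGM) (by linarith)
    refine ⟨by linarith, m3.trans ?_⟩
    have hlog : 0 ≤ Real.log (|(fv a b c u : ℝ)|) := Real.log_nonneg (by linarith)
    apply mul_le_mul_of_nonneg_left _ (by positivity)
    have h1 : 1 / L ^ K ≤ θ := by
      rw [hθ]
      exact one_div_le_one_div_of_le hLA1 (pow_le_pow_right₀ hL1' hK)
    have h2 : 11 * θ ≤ 1 / L ^ A := by
      rw [hθ, pow_succ]
      calc 11 * (1 / (L ^ A * L)) = 1 / L ^ A * (11 / L) := by field_simp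
        _ ≤ 1 / L ^ A * 1 := by
            apply mul_le_mul_of_nonneg_left _ (by positivity)
            rw [div_le_one hL0]
            linarith
        _ = 1 / L ^ A := mul_one _
    have h3 : 1 / L ^ A ≤ 1 / Lx ^ A := one_div_le_one_div_of_le (by positivity) (pow_le_pow_left₀ hLx0.le hL1 A)
    linarith
  have hcard : (((Icc 1 y).filter (fun u => ¬ GoodWin a b c Mc (1 / Lx ^ A) u h)).card : ℝ) ≤
      ((E2.card : ℝ) + E1.card) + E3.card := by
    have h1 := (card_le_card hsub).trans (card_union_le _ _)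
    have h2 := card_union_le E2 E1
    exact_mod_cast h1.trans (Nat.add_le_add_right h2 _)
  refine hcard.trans ?_
  have hRa : R / a = 4 * h * L ^ (A + 1) := by
    rw [hReq]
    field_simp
  have h1 : (h : ℝ) * L ^ (A + 1) ≤ y / L ^ (A + 1) := by
    rw [le_div_iff₀ hLA1]
    calc (h : ℝ) * L ^ (A + 1) * L ^ (A + 1) = h * L ^ (2 * A + 2) := by rw [mul_assoc, ← pow_add]; congr 2; ring
      _ ≤ h * L ^ (2 * A + 2 * B + 3) := by
          apply mul_le_mul_of_nonneg_left _ (by linarith)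
          exact pow_le_pow_right₀ hL1' (by omega)
      _ ≤ y := hh2
  have h2 : (1 : ℝ) ≤ h * L ^ (A + 1) := by
    calc (1 : ℝ) = 1 * 1 := by ring
      _ ≤ h * L ^ (A + 1) := by gcongr; linarith
  have h3 : 14 * (y / L ^ (A + 1)) ≤ y / Lx ^ A := by
    have e1 : (y : ℝ) / L ^ (A + 1) = y / L ^ A / L := by rw [pow_succ]; field_simp
    rw [e1]
    have h4 : (y : ℝ) / L ^ A ≤ y / Lx ^ A := div_le_div_of_nonneg_left hy0 (by positivity) (pow_le_pow_left₀ hLx0.le hL1 A)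
    refine le_trans ?_ h4
    rw [mul_div_assoc', div_le_iff₀ hL0]
    have : 0 ≤ (y : ℝ) / L ^ A := by positivity
    exact fourteen _ _ this (by linarith)
  rw [hRa] at hE1c hE3c
  linarith

end Pool.Agent.H79.W.Wone
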